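import Pool.Agent.H64.KD.Nu

/-!
Module Nw (row KDNW).  Sharper vertex inequalities for `d = 4, 5`.  `wt 4 = 2/3 = 8/12`, `wt 5 = 7/12`; in general `12 wt d = 12 - d` here.  Use only the STATEMENTS of Nu.

`f v = {p, q, r}` (three different nodes), multiplicities `m1, m2, m3 ≥ 1`, sum `≤ d + 3`.  Nodes in `U` first.
If exactly one node is in `U` (m1): `uu = 1/m1`, `12 sv = 12/m1 + 6/m2 + 6/m3 - (12 - d)`.
If two are in `U`: `12 sv = 12/m1 + 12/m2 + 6/m3 - (12-d)`; if three, `12/m1+12/m2+12/m3-(12-d)`, which is larger.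
Tangents (natural `m ≥ 1`): `12/m ≥ 7 - m` (`(m-3)(m-4) ≥ 0`), `6/m ≥ 5 - m` (`(m-2)(m-3) ≥ 0`).
`w1`: `12 sv ≥ 7 + 5 + 5 - (d+3) - (12-d) = 2`.   `w2`: `12 sv ≥ 7 + 7 + 5 - (d+3) - (12-d) = 4`.
`w3` (`d = 5`, sum `≤ 8`): `m1 ≤ 4`: `7/12 - 1/m1 ≤ 1/3`.  `m1 ≥ 5`: `m1 ≤ 6`, `7/12 - 1/6 = 5/12`; `m1 = 5`: `m2 + m3 ≤ 3`: `6/m2 + 6/m3 ≥ 9`, `12 sv ≥ 12/5 + 9 - 7 = 4.4`;
   `m1 = 6`: `m2 = m3 = 1`, `12 sv = 2 + 12 - 7 = 7`.
`w4` (`d = 4`, sum `≤ 7`): `m1 ≤ 5`, `2/3 - 1/5 ≤ 1/2`.  `m1 = 1`: `12 sv ≥ 12 - 8 = 4`.  `m1 = 2`: `uu = 1/2`, `m2 + m3 ≤ 5`, `6/m2 + 6/m3 ≥ 5`, `12 sv ≥ 3`.  `m1 = 3`: `uu = 1/3`.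
   `m1 = 4`: `m2 + m3 ≤ 3`: `12 sv ≥ 3 + 9 - 8 = 4`.  `m1 = 5`: `m2 = m3 = 1`: `12 sv = 12/5 + 12 - 8 ≥ 4`.
-/

set_option autoImplicit false
set_option linter.all false

namespace Pool.Agent.H64.KD

open Classical Pool.Agent.H67.CF Pool.Agent.H64.K4

noncomputable section

variable {V N : Type} [Fintype V] [Fintype N] {G : SimpleGraph V} {f : V → Finset N} {d : ℕ}
  {U : Finset N}

lemma Nw_mult {v : V} {p : N} (hp : p ∈ f v) : 1 ≤ mult f p := by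
  unfold mult
  exact Finset.card_pos.2 ⟨v, Finset.mem_filter.2 ⟨Finset.mem_univ _, hp⟩⟩

lemma Nw_three (h : PSd G f d) (v : V) {a b c : N} (hab : a ≠ b) (hac : a ≠ c) (hbc : b ≠ c)
    (hf : f v = {a, b, c}) : 1 ≤ mult f a ∧ 1 ≤ mult f b ∧ 1 ≤ mult f c ∧
      mult f a + mult f b + mult f c ≤ d + 3 ∧
      ∑ p ∈ f v, im f p = 1 / (mult f a : ℝ) + 1 / (mult f b : ℝ) + 1 / (mult f c : ℝ) := by
  have ha : a ∈ f v := by rw [hf]; simp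
  have hb : b ∈ f v := by rw [hf]; simp
  have hc : c ∈ f v := by rw [hf]; simp
  have h1 := h.deg v
  have hs : ∀ {M : Type} [AddCommMonoid M] (g : N → M), ∑ p ∈ f v, g p = g a + (g b + g c) := by
    intro M _ g
    rw [hf, Finset.sum_insert (by simp [hab, hac]), Finset.sum_insert (by simp [hbc]),
      Finset.sum_singleton]
  rw [hs] at h1
  refine ⟨Nw_mult ha, Nw_mult hb, Nw_mult hc, by omega, ?_⟩
  rw [hs]
  unfold im
  ring

lemma Nw_core1 (h : PSd G f d) (v : V)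
    (hU : ((f v).filter (fun p => p ∈ U)).card = 1) : ∃ m1 m2 m3 : ℕ, 1 ≤ m1 ∧ 1 ≤ m2 ∧ 1 ≤ m3 ∧
      m1 + m2 + m3 ≤ d + 3 ∧ uu f U v = 1 / (m1 : ℝ) ∧
      ∑ p ∈ f v, im f p = 1 / (m1 : ℝ) + 1 / (m2 : ℝ) + 1 / (m3 : ℝ) := by
  obtain ⟨a, ha⟩ := Finset.card_eq_one.1 hU
  have haf : a ∈ f v := by
    have : a ∈ (f v).filter (fun p => p ∈ U) := by rw [ha]; simp
    exact (Finset.mem_filter.1 this).1
  have h2 : ((f v).erase a).card = 2 := by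
    rw [Finset.card_erase_of_mem haf, h.card3 v]
  obtain ⟨b, c, hbc, he⟩ := Finset.card_eq_two.1 h2
  have hb : b ∈ (f v).erase a := by rw [he]; simp
  have hc : c ∈ (f v).erase a := by rw [he]; simp
  have hf : f v = {a, b, c} := by
    rw [← Finset.insert_erase haf, he]
  obtain ⟨g1, g2, g3, g4, g5⟩ := Nw_three h v (Finset.ne_of_mem_erase hb).symm
    (Finset.ne_of_mem_erase hc).symm hbc hf
  refine ⟨mult f a, mult f b, mult f c, g1, g2, g3, g4, ?_, g5⟩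
  unfold uu
  rw [ha, Finset.sum_singleton]
  rfl

lemma Nw_core2 (h : PSd G f d) (v : V)
    (hU : 2 ≤ ((f v).filter (fun p => p ∈ U)).card) : ∃ m1 m2 m3 : ℕ, 1 ≤ m1 ∧ 1 ≤ m2 ∧ 1 ≤ m3 ∧
      m1 + m2 + m3 ≤ d + 3 ∧ 1 / (m1 : ℝ) + 1 / (m2 : ℝ) ≤ uu f U v ∧
      ∑ p ∈ f v, im f p = 1 / (m1 : ℝ) + 1 / (m2 : ℝ) + 1 / (m3 : ℝ) := by
  obtain ⟨a, b, ha, hb, hab⟩ := Finset.one_lt_card_iff.1 hU
  have haf := (Finset.mem_filter.1 ha).1
  have hbf := (Finset.mem_filter.1 hb).1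
  have h2 : (((f v).erase a).erase b).card = 1 := by
    rw [Finset.card_erase_of_mem (Finset.mem_erase.2 ⟨hab.symm, hbf⟩),
      Finset.card_erase_of_mem haf, h.card3 v]
  obtain ⟨c, he⟩ := Finset.card_eq_one.1 h2
  have hc : c ∈ ((f v).erase a).erase b := by rw [he]; simp
  have hf : f v = {a, b, c} := by
    rw [← Finset.insert_erase haf, ← Finset.insert_erase (Finset.mem_erase.2 ⟨hab.symm, hbf⟩), he]
  obtain ⟨g1, g2, g3, g4, g5⟩ := Nw_three h v hab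
    (Finset.ne_of_mem_erase (Finset.mem_of_mem_erase hc)).symm
    (Finset.ne_of_mem_erase hc).symm hf
  refine ⟨mult f a, mult f b, mult f c, g1, g2, g3, g4, ?_, g5⟩
  have h3 : ({a, b} : Finset N) ⊆ (f v).filter (fun p => p ∈ U) := by
    intro x hx
    rw [Finset.mem_insert, Finset.mem_singleton] at hx
    rcases hx with rfl | rfl
    · exact ha
    · exact hb
  have h4 : ∑ p ∈ ({a, b} : Finset N), im f p ≤ ∑ p ∈ (f v).filter (fun p => p ∈ U), im f p :=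
    Finset.sum_le_sum_of_subset_of_nonneg h3 fun p _ _ => by unfold im; positivity
  rw [Finset.sum_pair hab] at h4
  exact h4

lemma Nw_t7 {m : ℕ} (hm : 1 ≤ m) : (7 - (m : ℝ)) / 12 ≤ 1 / (m : ℝ) := by
  have h0 : (0 : ℝ) < m := by exact_mod_cast hm
  have h1 : (0 : ℝ) ≤ ((m : ℝ) - 3) * ((m : ℝ) - 4) := by
    rcases le_or_gt m 3 with h | h
    · have : (m : ℝ) ≤ 3 := by exact_mod_cast h
      nlinarith
    · have : (4 : ℝ) ≤ m := by exact_mod_cast h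
      nlinarith
  rw [div_le_div_iff₀ (by norm_num) h0]
  nlinarith

lemma Nw_t5 {m : ℕ} (hm : 1 ≤ m) : (5 - (m : ℝ)) / 6 ≤ 1 / (m : ℝ) := by
  have h0 : (0 : ℝ) < m := by exact_mod_cast hm
  have h1 : (0 : ℝ) ≤ ((m : ℝ) - 2) * ((m : ℝ) - 3) := by
    rcases le_or_gt m 2 with h | h
    · have : (m : ℝ) ≤ 2 := by exact_mod_cast h
      nlinarith
    · have : (3 : ℝ) ≤ m := by exact_mod_cast h
      nlinarith
  rw [div_le_div_iff₀ (by norm_num) h0]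
  nlinarith

lemma Nw_wt (hd : d = 4 ∨ d = 5) : wt d = (12 - (d : ℝ)) / 12 := by
  rcases hd with rfl | rfl
  · rw [wt4]; norm_num
  · rw [wt5]; norm_num

theorem w1 (hd : d = 4 ∨ d = 5) (h : PSd G f d) (v : V)
    (hU : ((f v).filter (fun p => p ∈ U)).card = 1) : 1 / 6 ≤ sv f U (wt d) v := by
  obtain ⟨m1, m2, m3, h1, h2, h3, hs, hu, hi⟩ := Nw_core1 h v hU
  unfold sv
  rw [hu, hi, Nw_wt hd]
  have e1 := Nw_t7 h1
  have e2 := Nw_t5 h2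
  have e3 := Nw_t5 h3
  have e4 : (m1 : ℝ) + m2 + m3 ≤ d + 3 := by exact_mod_cast hs
  linarith

theorem w2 (hd : d = 4 ∨ d = 5) (h : PSd G f d) (v : V)
    (hU : 2 ≤ ((f v).filter (fun p => p ∈ U)).card) : 1 / 3 ≤ sv f U (wt d) v := by
  obtain ⟨m1, m2, m3, h1, h2, h3, hs, hu, hi⟩ := Nw_core2 h v hU
  unfold sv
  rw [hi, Nw_wt hd]
  have e1 := Nw_t7 h1
  have e2 := Nw_t7 h2
  have e3 := Nw_t5 h3
  have e4 : (m1 : ℝ) + m2 + m3 ≤ d + 3 := by exact_mod_cast hs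
  linarith

theorem w3 (h : PSd G f 5) (v : V) (hU : ((f v).filter (fun p => p ∈ U)).card = 1) :
    wt 5 - uu f U v ≤ 1 / 3 ∨ (wt 5 - uu f U v ≤ 5 / 12 ∧ 1 / 3 ≤ sv f U (wt 5) v) := by
  obtain ⟨m1, m2, m3, h1, h2, h3, hs, hu, hi⟩ := Nw_core1 h v hU
  unfold sv
  rw [hu, hi, wt5]
  have hm1 : m1 ≤ 6 := by omega
  interval_cases m1
  · left; norm_num
  · left; norm_num
  · left; norm_num
  · left; norm_num
  · right
    have hm2 : m2 ≤ 2 := by omega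
    have hm3 : m3 ≤ 2 := by omega
    interval_cases m2 <;> interval_cases m3 <;> first | (exfalso; omega) | norm_num
  · right
    have hm2 : m2 ≤ 1 := by omega
    have hm3 : m3 ≤ 1 := by omega
    interval_cases m2 <;> interval_cases m3 <;> first | (exfalso; omega) | norm_num

theorem w4 (h : PSd G f 4) (v : V) (hU : ((f v).filter (fun p => p ∈ U)).card = 1) :
    wt 4 - uu f U v ≤ 1 / 2 ∧
      (1 / 3 ≤ sv f U (wt 4) v ∨ uu f U v = 1 / 3 ∨ (uu f U v = 1 / 2 ∧ 1 / 4 ≤ sv f U (wt 4) v)) := by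
  obtain ⟨m1, m2, m3, h1, h2, h3, hs, hu, hi⟩ := Nw_core1 h v hU
  unfold sv
  rw [hu, hi, wt4]
  have hm1 : m1 ≤ 5 := by omega
  interval_cases m1
  · refine ⟨by norm_num, Or.inl ?_⟩
    have e2 : (0 : ℝ) ≤ (m2 : ℝ)⁻¹ := by positivity
    have e3 : (0 : ℝ) ≤ (m3 : ℝ)⁻¹ := by positivity
    norm_num
    linarith
  · refine ⟨by norm_num, Or.inr (Or.inr ⟨by norm_num, ?_⟩)⟩
    have e2 := Nw_t5 h2
    have e3 := Nw_t5 h3
    have e4 : (m2 : ℝ) + m3 ≤ 5 := by exact_mod_cast (by omega : m2 + m3 ≤ 5)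
    norm_num at e2 e3 ⊢
    linarith
  · exact ⟨by norm_num, Or.inr (Or.inl (by norm_num))⟩
  · refine ⟨by norm_num, Or.inl ?_⟩
    have hm2 : m2 ≤ 2 := by omega
    have hm3 : m3 ≤ 2 := by omega
    interval_cases m2 <;> interval_cases m3 <;> first | (exfalso; omega) | norm_num
  · refine ⟨by norm_num, Or.inl ?_⟩
    have hm2 : m2 ≤ 1 := by omega
    have hm3 : m3 ≤ 1 := by omega
    interval_cases m2 <;> interval_cases m3 <;> first | (exfalso; omega) | norm_num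

end

end Pool.Agent.H64.KD
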