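import Pool.Agent.H64.KD.B6
import Pool.Agent.H64.KD.Nw

/-!
Module B4 (row KDB4).  Bad classes for `d = 4`.  Use only the STATEMENTS of B6, Nw, Nv, Lh, Ee, Nu.  `κ = wt 4 = 2/3`, `q = |Z|` odd, `i = |ins f Z|`, `Ez < 0`.

`A := Σ_(v ∈ tch f Z) sv(v) ≤ Ez + 1/2 < 1/2` (`e1`), all terms `≥ 0` (`v0`).  Boundary vertices (`bdr_pos`): type 1 (exactly one node in `U`): `sv ≥ 1/6` (`w1`); type 2 (at least two): `sv ≥ 1/3` (`w2`), `uu ≥ κ` (`v2`).
(a) `|bdr| ≤ 1`.  Three boundary vertices give `A ≥ 1/2`.  Suppose `bdr = {v, w}`.  If one is of type 2 or has `sv ≥ 1/3`: `A ≥ 1/3 + 1/6 = 1/2`, contradiction.  So both are of type 1 and by `w4` each has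
    `uu = 1/3`, or `uu = 1/2` and `sv ≥ 1/4`.  By `e3`, with `q - 1 = 2j`: `12 Ez = 12 j - 8 i - 16 + 12 uu(v) + 12 uu(w)`.
    Both `uu = 1/3`: `12 Ez = 12 j - 8 i - 8`, a multiple of 4, and `12 Ez ≥ 12 A - 6 ≥ 4 - 6 = -2`: so `Ez ≥ 0`.
    One `1/3`, one `1/2`: `12 Ez = 12 j - 8 i - 6` is even, and `≥ 12 (1/6 + 1/4) - 6 = -1`: `Ez ≥ 0`.   Both `1/2`: `A ≥ 1/2`.  Contradictions.
(b) Suppose `2i ≤ q`, so `2i ≤ q - 1`.  By `e3`, `|bdr| ≤ 1`, and `κ - uu ≤ 1/2` for type 1 (`w4`), `≤ 0` for type 2: `Ez ≥ (q-1)/2 - (2/3) i - 1/2`.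
    `q ≥ 5`: `i ≤ (q-1)/2`: `Ez ≥ (q-1)/6 - 1/2 > 0`.  `q = 3`, `i = 0`: `Ez ≥ 1 - 1/2`.  `q = 3`, `i ≥ 1` and `q = 1`: `small_ok`.   Contradictions, so `2i ≥ q + 1`.
-/

set_option autoImplicit false
set_option linter.all false

namespace Pool.Agent.H64.KD

open Classical Pool.Agent.H67.CF Pool.Agent.H64.K4

noncomputable section

variable {V N : Type} [Fintype V] [Fintype N] {G : SimpleGraph V} {f : V → Finset N}
  {U : Finset N}

theorem B4_sub (h : PSd G f 4) {Z : Finset N} (hZ : Z ∈ allC (ngr f) U)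
    (hodd : Odd Z.card) (S : Finset V) (hS : S ⊆ bdr f Z) :
    ∑ v ∈ S, sv f U (wt 4) v ≤ Ez f U (wt 4) Z + 1 / 2 := by
  have h1 := e1 (κ := wt 4) h.card3 hZ
  rw [if_pos hodd] at h1
  have h2 : S ⊆ tch f Z := fun v hv => (mem_bdr.1 (hS hv)).1
  have h3 : ∑ v ∈ S, sv f U (wt 4) v ≤ ∑ v ∈ tch f Z, sv f U (wt 4) v :=
    Finset.sum_le_sum_of_subset_of_nonneg h2 (fun v _ _ => v0 (by norm_num) h v)
  linarith

theorem B4_sv (h : PSd G f 4) {Z : Finset N} (hZ : Z ∈ allC (ngr f) U) {v : V}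
    (hv : v ∈ bdr f Z) : 1 / 6 ≤ sv f U (wt 4) v ∧ wt 4 - uu f U v ≤ 1 / 2 ∧
      (1 / 3 ≤ sv f U (wt 4) v ∨ uu f U v = 1 / 3 ∨
        (uu f U v = 1 / 2 ∧ 1 / 4 ≤ sv f U (wt 4) v)) := by
  have h1 := bdr_pos h hZ hv
  rcases Nat.lt_or_ge ((f v).filter (fun p => p ∈ U)).card 2 with h2 | h2
  · have h3 : ((f v).filter (fun p => p ∈ U)).card = 1 := by omega
    exact ⟨w1 (Or.inl rfl) h v h3, w4 h v h3⟩
  · have h3 := w2 (Or.inl rfl) h v h2
    have h4 := v2 (by norm_num) h v h2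
    exact ⟨by linarith, by linarith, Or.inl h3⟩

theorem B4_a (h : PSd G f 4) {Z : Finset N} (hZ : Z ∈ allC (ngr f) U)
    (hodd : Odd Z.card) (hE : Ez f U (wt 4) Z < 0) : (bdr f Z).card ≤ 1 := by
  by_contra hcon
  have hc : 2 ≤ (bdr f Z).card := by omega
  rcases Nat.lt_or_ge 2 (bdr f Z).card with h3 | h3
  · -- at least three
    have h4 := B4_sub h hZ hodd (bdr f Z) (Finset.Subset.refl _)
    have h5 : ((bdr f Z).card : ℝ) * (1 / 6) ≤ ∑ v ∈ bdr f Z, sv f U (wt 4) v := by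
      rw [← nsmul_eq_mul]
      exact Finset.card_nsmul_le_sum _ _ _ (fun v hv => (B4_sv h hZ hv).1)
    have h6 : (3 : ℝ) ≤ ((bdr f Z).card : ℝ) := by exact_mod_cast h3
    linarith
  · have h4 : (bdr f Z).card = 2 := by omega
    obtain ⟨v, w, hvw, hb⟩ := Finset.card_eq_two.1 h4
    have hv : v ∈ bdr f Z := by rw [hb]; simp
    have hw : w ∈ bdr f Z := by rw [hb]; simp
    have hA := B4_sub h hZ hodd (bdr f Z) (Finset.Subset.refl _)
    rw [hb, Finset.sum_pair hvw] at hA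
    have hE3 := e3 (κ := wt 4) h.card3 hZ hodd
    rw [hb, Finset.sum_pair hvw] at hE3
    obtain ⟨hv1, hv2, hv3⟩ := B4_sv h hZ hv
    obtain ⟨hw1, hw2, hw3⟩ := B4_sv h hZ hw
    obtain ⟨j, hj⟩ := hodd
    have hq : (Z.card : ℝ) = 2 * (j : ℝ) + 1 := by rw [hj]; push_cast; ring
    rw [hq] at hE3
    rw [wt4] at *
    have key3 : ∀ x : ℝ, 3 * x = 3 * (j : ℝ) - 2 * ((ins f Z).card : ℝ) - 2 → x < 0 → x ≤ -(1 / 3) := by
      intro x hx hx0
      have h5 : ((3 * (j : ℤ) - 2 * ((ins f Z).card : ℤ) - 2 : ℤ) : ℝ) < ((0 : ℤ) : ℝ) := by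
        push_cast; linarith
      have h6 : (3 * (j : ℤ) - 2 * ((ins f Z).card : ℤ) - 2 : ℤ) ≤ -1 := by
        have := Int.cast_lt.1 h5
        omega
      have h7 : ((3 * (j : ℤ) - 2 * ((ins f Z).card : ℤ) - 2 : ℤ) : ℝ) ≤ ((-1 : ℤ) : ℝ) := by
        exact_mod_cast h6
      push_cast at h7
      linarith
    have key6 : ∀ x : ℝ, 6 * x = 6 * (j : ℝ) - 4 * ((ins f Z).card : ℝ) - 3 → x < 0 → x ≤ -(1 / 6) := by
      intro x hx hx0
      have h5 : ((6 * (j : ℤ) - 4 * ((ins f Z).card : ℤ) - 3 : ℤ) : ℝ) < ((0 : ℤ) : ℝ) := by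
        push_cast; linarith
      have h6 : (6 * (j : ℤ) - 4 * ((ins f Z).card : ℤ) - 3 : ℤ) ≤ -1 := by
        have := Int.cast_lt.1 h5
        omega
      have h7 : ((6 * (j : ℤ) - 4 * ((ins f Z).card : ℤ) - 3 : ℤ) : ℝ) ≤ ((-1 : ℤ) : ℝ) := by
        exact_mod_cast h6
      push_cast at h7
      linarith
    rcases hv3 with a | a | ⟨a, a'⟩
    · linarith
    · rcases hw3 with b | b | ⟨b, b'⟩
      · linarith
      · rw [a, b] at hE3
        have := key3 _ (by rw [hE3]; ring) hE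
        linarith
      · rw [a, b] at hE3
        have := key6 _ (by rw [hE3]; ring) hE
        linarith
    · rcases hw3 with b | b | ⟨b, b'⟩
      · linarith
      · rw [a, b] at hE3
        have := key6 _ (by rw [hE3]; ring) hE
        linarith
      · linarith

theorem B4_b (h : PSd G f 4) {Z : Finset N} (hZ : Z ∈ allC (ngr f) U)
    (hodd : Odd Z.card) (hE : Ez f U (wt 4) Z < 0) : Z.card + 1 ≤ 2 * (ins f Z).card := by
  by_contra hcon
  have hb := B4_a h hZ hodd hE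
  have hE3 := e3 (κ := wt 4) h.card3 hZ hodd
  have hs : ∀ hh : (Z.card = 1 ∨ (Z.card = 3 ∧ (ins f Z).Nonempty)), False := by
    intro hh
    have := small_ok (by norm_num) h hZ hh
    linarith
  have h1 : -(1 / 2 : ℝ) ≤ ∑ v ∈ bdr f Z, (uu f U v - wt 4) := by
    rcases Nat.eq_zero_or_pos (bdr f Z).card with h0 | h0
    · rw [Finset.card_eq_zero.1 h0, Finset.sum_empty]; norm_num
    · have h2 : (bdr f Z).card = 1 := by omega
      obtain ⟨v, hv⟩ := Finset.card_eq_one.1 h2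
      rw [hv, Finset.sum_singleton]
      have h3 : v ∈ bdr f Z := by rw [hv]; simp
      have h4 := (B4_sv h hZ h3).2.1
      linarith
  obtain ⟨j, hj⟩ := hodd
  have hi : (ins f Z).card ≤ j := by omega
  have hiR : ((ins f Z).card : ℝ) ≤ (j : ℝ) := by exact_mod_cast hi
  have hq : (Z.card : ℝ) = 2 * (j : ℝ) + 1 := by rw [hj]; push_cast; ring
  rw [hq] at hE3
  rw [wt4] at *
  rcases Nat.lt_or_ge j 2 with hj2 | hj2
  · rcases Nat.eq_zero_or_pos j with h0 | h0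
    · exact hs (Or.inl (by omega))
    · have hj1 : j = 1 := by omega
      rcases Nat.eq_zero_or_pos (ins f Z).card with h5 | h5
      · rw [h5, hj1] at hE3
        push_cast at hE3
        linarith
      · exact hs (Or.inr ⟨by omega, Finset.card_pos.1 h5⟩)
  · have h6 : (2 : ℝ) ≤ (j : ℝ) := by exact_mod_cast hj2
    linarith

theorem bad4 (h : PSd G f 4) {Z : Finset N} (hZ : Z ∈ allC (ngr f) U)
    (hodd : Odd Z.card) (hE : Ez f U (wt 4) Z < 0) :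
    (bdr f Z).card ≤ 1 ∧ Z.card + 1 ≤ 2 * (ins f Z).card := by
  exact ⟨B4_a h hZ hodd hE, B4_b h hZ hodd hE⟩

end

end Pool.Agent.H64.KD
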