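import Pool.Agent.H64.KD.B6
import Pool.Agent.H64.KD.Nw

/-!
Module B5 (row KDB5).  Bad classes for `d = 5`.  Use only the STATEMENTS of B6, Nw, Nv, Lh, Ee, Nu.  `κ = wt 5 = 7/12`, `q = |Z|` odd, `i = |ins f Z|`, `Ez < 0`.

Suppose `2i ≤ q + 2`, so `2i ≤ q + 1`.  `A := Σ_(v ∈ tch f Z) sv(v) ≤ Ez + 1/2 < 1/2` (`e1`), all terms `≥ 0` (`v0`).
Boundary vertices of type 1: exactly one node in `U`: `sv ≥ 1/6` (`w1`); type 2: at least two nodes in `U`: `uu ≥ κ` (`v2`).  (`bdr_pos`: every boundary vertex is of type 1 or 2.)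
So there are at most 2 vertices of type 1.  CLAIM: `Σ_(type 1) (κ - uu) ≤ 2/3`.  If some type 1 vertex has `sv ≥ 1/3` then it is the only one of type 1 (`1/3 + 1/6 = 1/2`), and
`κ - uu ≤ 5/12` (`w3`: both alternatives give `≤ 5/12`).  Otherwise all of them have `κ - uu ≤ 1/3` by `w3`, and there are at most two.
By `e3`: `Ez ≥ (q-1)/2 - (7/12) i - 2/3`.
`q ≥ 7`: `i ≤ (q+1)/2`: `Ez ≥ (12q - 12 - 7q - 7 - 16)/24 = (5q-35)/24 ≥ 0`.  `q = 5`: `i ≤ 2` (`l5`): `Ez ≥ 2 - 7/6 - 2/3 = 1/6`.  `q = 3`, `i = 0`: `Ez ≥ 1 - 2/3`.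
`q = 3`, `i ≥ 1` and `q = 1`: `small_ok`.
-/

set_option autoImplicit false
set_option linter.all false

namespace Pool.Agent.H64.KD

open Classical Pool.Agent.H67.CF Pool.Agent.H64.K4

noncomputable section

variable {V N : Type} [Fintype V] [Fintype N] {G : SimpleGraph V} {f : V → Finset N}
  {U : Finset N}

theorem B5_claim (h : PSd G f 5) {B1 : Finset V}
    (hB : ∀ v ∈ B1, ((f v).filter (fun p => p ∈ U)).card = 1)
    (hs : ∑ v ∈ B1, sv f U (wt 5) v < 1 / 2) : ∑ v ∈ B1, (wt 5 - uu f U v) ≤ 2 / 3 := by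
  have hw : ∀ v ∈ B1, 1 / 6 ≤ sv f U (wt 5) v := fun v hv => w1 (Or.inr rfl) h v (hB v hv)
  by_cases hex : ∃ v ∈ B1, 1 / 3 ≤ sv f U (wt 5) v
  · obtain ⟨v, hv, hv3⟩ := hex
    have h1 : B1 = {v} := by
      apply Finset.eq_singleton_iff_unique_mem.2
      refine ⟨hv, fun w hw' => ?_⟩
      by_contra hne
      have h2 : ∑ x ∈ ({v, w} : Finset V), sv f U (wt 5) x ≤ ∑ x ∈ B1, sv f U (wt 5) x := by
        refine Finset.sum_le_sum_of_subset_of_nonneg ?_ ?_
        · intro x hx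
          rcases Finset.mem_insert.1 hx with rfl | hx
          · exact hv
          · rw [Finset.mem_singleton.1 hx]
            exact hw'
        · intro x hx _
          linarith [hw x hx]
      rw [Finset.sum_pair (fun h => hne h.symm)] at h2
      linarith [hw w hw']
    rw [h1, Finset.sum_singleton]
    rcases w3 (U := U) h v (hB v hv) with h3 | h3
    · linarith
    · linarith [h3.1]
  · push Not at hex
    have h4 : ∀ v ∈ B1, wt 5 - uu f U v ≤ 1 / 3 := by
      intro v hv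
      rcases w3 (U := U) h v (hB v hv) with h3 | h3
      · exact h3
      · exact absurd h3.2 (not_le.2 (hex v hv))
    have h5 : (B1.card : ℝ) * (1 / 6) ≤ ∑ v ∈ B1, sv f U (wt 5) v := by
      rw [← nsmul_eq_mul]
      exact Finset.card_nsmul_le_sum _ _ _ hw
    have h6 : (B1.card : ℝ) < 3 := by linarith
    have h7 : B1.card ≤ 2 := by
      have : B1.card < 3 := by exact_mod_cast h6
      omega
    have h8 : (B1.card : ℝ) ≤ 2 := by exact_mod_cast h7
    have h9 : ∑ v ∈ B1, (wt 5 - uu f U v) ≤ (B1.card : ℝ) * (1 / 3) := by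
      rw [← nsmul_eq_mul]
      exact Finset.sum_le_card_nsmul _ _ _ h4
    linarith

theorem bad5 (h : PSd G f 5) {Z : Finset N} (hZ : Z ∈ allC (ngr f) U)
    (hodd : Odd Z.card) (hE : Ez f U (wt 5) Z < 0) : Z.card + 3 ≤ 2 * (ins f Z).card := by
  by_contra hcon
  have hs0 : ∀ v, 0 ≤ sv f U (wt 5) v := fun v => v0 (by norm_num) h v
  have hA := e1 (κ := wt 5) h.card3 hZ
  rw [if_pos hodd] at hA
  have hsub : bdr f Z ⊆ tch f Z := Finset.filter_subset _ _
  obtain ⟨B1, hB1⟩ : ∃ B1, B1 = (bdr f Z).filter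
    (fun v => ((f v).filter (fun p => p ∈ U)).card = 1) := ⟨_, rfl⟩
  have hB1s : B1 ⊆ bdr f Z := by
    rw [hB1]
    exact Finset.filter_subset _ _
  have hsum1 : ∑ v ∈ B1, sv f U (wt 5) v < 1 / 2 := by
    have h1 : ∑ v ∈ B1, sv f U (wt 5) v ≤ ∑ v ∈ tch f Z, sv f U (wt 5) v :=
      Finset.sum_le_sum_of_subset_of_nonneg (hB1s.trans hsub) fun v _ _ => hs0 v
    linarith
  have hcl := B5_claim (U := U) h (B1 := B1) (fun v hv => by
    rw [hB1] at hv
    exact (Finset.mem_filter.1 hv).2) hsum1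
  have hbd : -(2 / 3 : ℝ) ≤ ∑ v ∈ bdr f Z, (uu f U v - wt 5) := by
    have h1 : ∑ v ∈ B1, (uu f U v - wt 5) ≤ ∑ v ∈ bdr f Z, (uu f U v - wt 5) := by
      rw [← Finset.sum_sdiff hB1s]
      have h2 : 0 ≤ ∑ v ∈ bdr f Z \ B1, (uu f U v - wt 5) := by
        refine Finset.sum_nonneg fun v hv => ?_
        obtain ⟨hv1, hv2⟩ := Finset.mem_sdiff.1 hv
        have h3 := bdr_pos h hZ hv1
        have h4 : ((f v).filter (fun p => p ∈ U)).card ≠ 1 := by
          intro h5
          apply hv2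
          rw [hB1]
          exact Finset.mem_filter.2 ⟨hv1, h5⟩
        have h6 := v2 (U := U) (by norm_num) h v (by omega)
        linarith
      linarith
    have h2 : ∑ v ∈ B1, (uu f U v - wt 5) = -∑ v ∈ B1, (wt 5 - uu f U v) := by
      rw [← Finset.sum_neg_distrib]
      exact Finset.sum_congr rfl fun v _ => by ring
    linarith
  have hE3 := e3 (κ := wt 5) h.card3 hZ hodd
  have hk : wt 5 = 7 / 12 := wt5
  have key : ((Z.card : ℝ) - 1) / 2 - 7 / 12 * ((ins f Z).card : ℝ) - 2 / 3 ≤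
      Ez f U (wt 5) Z := by
    rw [hE3]
    rw [hk] at hbd ⊢
    linarith
  obtain ⟨k, hk2⟩ := hodd
  have hi : (ins f Z).card ≤ k + 1 := by omega
  rcases Nat.lt_or_ge k 3 with hk3 | hk3
  · interval_cases k
    · have h1 := small_ok (U := U) (by norm_num) h hZ (Or.inl (by omega))
      linarith
    · rcases Finset.eq_empty_or_nonempty (ins f Z) with h0 | h0
      · rw [h0, Finset.card_empty, hk2] at key
        norm_num at key
        linarith
      · have h1 := small_ok (U := U) (by norm_num) h hZ (Or.inr ⟨by omega, h0⟩)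
        linarith
    · have h1 := l5 h hZ (by omega)
      have h2 : ((ins f Z).card : ℝ) ≤ 2 := by exact_mod_cast h1
      rw [hk2] at key
      norm_num at key
      linarith
  · have h1 : ((ins f Z).card : ℝ) ≤ k + 1 := by exact_mod_cast hi
    have h2 : (3 : ℝ) ≤ k := by exact_mod_cast hk3
    have h3 : (Z.card : ℝ) = 2 * k + 1 := by
      rw [hk2]
      push_cast
      ring
    rw [h3] at key
    linarith

end

end Pool.Agent.H64.KD
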