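import Pool.Agent.H64.KD.Defs

/-!
Module Ee (row KDEE).  The function `Ez` and the total count.
Lemmas of H64/K4/Co.lean to use: `sum_allC`, `sum_tch`, `card_tch`, `node_split`, `allC_eq`, `allC_disj`, `mem_tch`, `mem_ins`, `mem_bdr`, `ins_sub_tch`; the pattern of `double_count`, `sum_Bw` there.

`dc` (double counting): `Σ_v Σ_(p ∈ f v ∩ A) 1/m(p) = Σ_(p ∈ A) m(p) · (1/m(p)) ≤ |A|`.
`e1`: for `v ∈ tch f Z`: `f v` is the disjoint union of `f v ∩ U` and `f v ∩ Z` (`node_split`), so `sv = (1/2) Σ_(p ∈ f v ∩ Z) im f p + uu - κ`; sum over `v ∈ tch f Z`, and `dc` for `Z`.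
`e3`: `uu f U v = 0` for `v ∈ ins f Z` (`Z ∩ U = ∅`); `tch f Z` is the disjoint union of `ins f Z` and `bdr f Z`.
`e2`: `2|F| ≥ |N| + |U| - |oddC|`, `|N| = Σ_Z |Z| + |U|` (`sum_allC`).  `|U| ≥ Σ_v uu(v) = Σ_Z Σ_(v ∈ tch Z) uu(v) + Σ_(f v ⊆ U) uu(v)` (`dc` for `U`; every `v` with `f v ⊄ U` touches exactly one class).
    `Σ_Z Ez = Σ|Z|/2 - |oddC|/2 + Σ_Z Σ_(tch Z) uu - κ Σ_Z |tch Z|`, `Σ_Z |tch Z| + #{f v ⊆ U} = |V|` (`sum_tch`), `uu(v) ≥ κ` if `f v ⊆ U`.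
    So `|F| ≥ Σ|Z|/2 - |oddC|/2 + |U| ≥ Σ_Z Ez + κ |V|`.
-/

set_option autoImplicit false
set_option linter.all false

namespace Pool.Agent.H64.KD

open Classical Pool.Agent.H67.CF Pool.Agent.H64.K4

noncomputable section

variable {V N : Type} [Fintype V] [Fintype N] {f : V → Finset N} {U : Finset N} {κ : ℝ}

theorem Ee_im_nonneg (p : N) : 0 ≤ im f p := by
  unfold im
  exact one_div_nonneg.2 (Nat.cast_nonneg _)

theorem dc (A : Finset N) :
    ∑ v : V, ∑ p ∈ (f v).filter (fun p => p ∈ A), im f p ≤ (A.card : ℝ) := by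
  have h1 : ∀ v : V, ∑ p ∈ (f v).filter (fun p => p ∈ A), im f p =
      ∑ p ∈ A, if p ∈ f v then im f p else 0 := by
    intro v
    rw [← Finset.sum_filter]
    refine Finset.sum_congr ?_ fun _ _ => rfl
    ext p
    simp only [Finset.mem_filter]
    tauto
  rw [Finset.sum_congr rfl fun v _ => h1 v, Finset.sum_comm]
  have h2 : ∀ p ∈ A, (∑ v : V, if p ∈ f v then im f p else 0) ≤ (1 : ℝ) := by
    intro p _
    rw [← Finset.sum_filter, Finset.sum_const, nsmul_eq_mul]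
    change (mult f p : ℝ) * im f p ≤ 1
    unfold im
    by_cases h : (mult f p : ℝ) = 0
    · rw [h, zero_mul]
      exact zero_le_one
    · rw [mul_one_div_cancel h]
  calc ∑ p ∈ A, (∑ v : V, if p ∈ f v then im f p else 0) ≤ ∑ p ∈ A, (1 : ℝ) :=
        Finset.sum_le_sum h2
    _ = (A.card : ℝ) := by rw [Finset.sum_const, nsmul_eq_mul, mul_one]

theorem Ee_split (h3 : ∀ v, (f v).card = 3) {Z : Finset N} (hZ : Z ∈ allC (ngr f) U) {v : V}
    (hv : v ∈ tch f Z) : ∑ p ∈ f v, im f p =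
      uu f U v + ∑ p ∈ (f v).filter (fun p => p ∈ Z), im f p := by
  rw [← Finset.sum_filter_add_sum_filter_not (f v) (fun p => p ∈ U)]
  unfold uu
  congr 1
  refine Finset.sum_congr ?_ fun _ _ => rfl
  ext p
  simp only [Finset.mem_filter]
  constructor
  · rintro ⟨hp, hpU⟩
    exact ⟨hp, node_split h3 hZ hv hp hpU⟩
  · rintro ⟨hp, hpZ⟩
    exact ⟨hp, (allC_eq hZ hpZ).1⟩

theorem e1 (h3 : ∀ v, (f v).card = 3) {Z : Finset N} (hZ : Z ∈ allC (ngr f) U) :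
    ∑ v ∈ tch f Z, sv f U κ v ≤ Ez f U κ Z + (if Odd Z.card then 1 / 2 else 0) := by
  have h1 : ∀ v ∈ tch f Z, sv f U κ v =
      (∑ p ∈ (f v).filter (fun p => p ∈ Z), im f p) / 2 + (uu f U v - κ) := by
    intro v hv
    unfold sv
    rw [Ee_split h3 hZ hv]
    ring
  rw [Finset.sum_congr rfl h1, Finset.sum_add_distrib, ← Finset.sum_div]
  have h4 : ∑ v ∈ tch f Z, ∑ p ∈ (f v).filter (fun p => p ∈ Z), im f p ≤
      ∑ v : V, ∑ p ∈ (f v).filter (fun p => p ∈ Z), im f p :=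
    Finset.sum_le_univ_sum_of_nonneg fun v => Finset.sum_nonneg fun p _ => Ee_im_nonneg p
  have h5 := dc (f := f) Z
  unfold Ez
  linarith

theorem e3 (h3 : ∀ v, (f v).card = 3) {Z : Finset N} (hZ : Z ∈ allC (ngr f) U) (hodd : Odd Z.card) :
    Ez f U κ Z = ((Z.card : ℝ) - 1) / 2 - κ * ((ins f Z).card : ℝ) +
      ∑ v ∈ bdr f Z, (uu f U v - κ) := by
  have h1 : (tch f Z).filter (fun v => f v ⊆ Z) = ins f Z := by
    ext v
    rw [Finset.mem_filter, mem_ins]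
    exact ⟨fun h => h.2, fun h => ⟨ins_sub_tch h3 (mem_ins.2 h), h⟩⟩
  have h2 : ∑ v ∈ tch f Z, (uu f U v - κ) =
      ∑ v ∈ ins f Z, (uu f U v - κ) + ∑ v ∈ bdr f Z, (uu f U v - κ) := by
    rw [← Finset.sum_filter_add_sum_filter_not (tch f Z) (fun v => f v ⊆ Z), h1]
    rfl
  have h4 : ∑ v ∈ ins f Z, (uu f U v - κ) = ∑ v ∈ ins f Z, (-κ) := by
    refine Finset.sum_congr rfl fun v hv => ?_
    have h5 : (f v).filter (fun p => p ∈ U) = ∅ := by
      refine Finset.filter_eq_empty_iff.2 fun p hp hpU => ?_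
      exact (allC_eq hZ (mem_ins.1 hv hp)).1 hpU
    unfold uu
    rw [h5, Finset.sum_empty, zero_sub]
  unfold Ez
  rw [h2, h4, if_pos hodd, Finset.sum_const, nsmul_eq_mul]
  ring

theorem e2 (h3 : ∀ v, (f v).card = 3) (hκ : ∀ v, f v ⊆ U → κ ≤ uu f U v) {F : Finset V}
    (hF : Fintype.card N + U.card ≤ 2 * F.card + (oddC (ngr f) U).card) :
    κ * (Fintype.card V : ℝ) + ∑ Z ∈ allC (ngr f) U, Ez f U κ Z ≤ (F.card : ℝ) := by
  have h1 : ∑ Z ∈ allC (ngr f) U, ∑ v ∈ tch f Z, (uu f U v - κ) =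
      ∑ v ∈ Finset.univ.filter (fun v => ¬ f v ⊆ U), (uu f U v - κ) := by
    have h1 : (Finset.univ.filter (fun v => ¬ f v ⊆ U)) = (allC (ngr f) U).biUnion (tch f) := by
      ext v
      simp only [Finset.mem_filter, Finset.mem_univ, true_and, Finset.mem_biUnion]
      constructor
      · intro hv
        obtain ⟨p, hp, hpU⟩ := Finset.not_subset.1 hv
        exact ⟨clsF (ngr f) U p, mem_allC.2 ⟨p, hpU, rfl⟩, mem_tch.2 ⟨p, hp, self_mem_clsF hpU⟩⟩
      · rintro ⟨Z, hZ, hv⟩ hsub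
        obtain ⟨p, hp1, hp2⟩ := mem_tch.1 hv
        exact (allC_eq hZ hp2).1 (hsub hp1)
    rw [h1, Finset.sum_biUnion]
    intro Z hZ Z' hZ' hne
    rw [Function.onFun, Finset.disjoint_left]
    intro v hv hv'
    obtain ⟨p, hp1, hp2⟩ := mem_tch.1 hv
    exact hne (allC_disj hZ hZ' hp2 (node_split h3 hZ' hv' hp1 (allC_eq hZ hp2).1))
  have h2 : ∑ Z ∈ allC (ngr f) U, (if Odd Z.card then (1 / 2 : ℝ) else 0) =
      ((oddC (ngr f) U).card : ℝ) / 2 := by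
    rw [← Finset.sum_filter, Finset.sum_const, nsmul_eq_mul]
    change ((oddC (ngr f) U).card : ℝ) * (1 / 2) = _
    ring
  have h4 : ∑ Z ∈ allC (ngr f) U, Ez f U κ Z =
      (∑ Z ∈ allC (ngr f) U, (Z.card : ℝ)) / 2 - ((oddC (ngr f) U).card : ℝ) / 2 +
        ∑ v ∈ Finset.univ.filter (fun v => ¬ f v ⊆ U), (uu f U v - κ) := by
    unfold Ez
    rw [Finset.sum_add_distrib, Finset.sum_sub_distrib, h1, h2, Finset.sum_div]
  have h5 : ∑ v ∈ Finset.univ.filter (fun v => ¬ f v ⊆ U), (uu f U v - κ) =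
      ∑ v ∈ Finset.univ.filter (fun v => ¬ f v ⊆ U), uu f U v -
        κ * ((Finset.univ.filter (fun v => ¬ f v ⊆ U)).card : ℝ) := by
    rw [Finset.sum_sub_distrib, Finset.sum_const, nsmul_eq_mul]
    ring
  have h6 : κ * ((Finset.univ.filter (fun v => f v ⊆ U)).card : ℝ) ≤
      ∑ v ∈ Finset.univ.filter (fun v => f v ⊆ U), uu f U v := by
    have h7 : ∑ v ∈ Finset.univ.filter (fun v => f v ⊆ U), κ ≤
        ∑ v ∈ Finset.univ.filter (fun v => f v ⊆ U), uu f U v :=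
      Finset.sum_le_sum fun v hv => hκ v (Finset.mem_filter.1 hv).2
    rw [Finset.sum_const, nsmul_eq_mul] at h7
    linarith
  have h8 : ∑ v ∈ Finset.univ.filter (fun v => f v ⊆ U), uu f U v +
      ∑ v ∈ Finset.univ.filter (fun v => ¬ f v ⊆ U), uu f U v = ∑ v : V, uu f U v :=
    Finset.sum_filter_add_sum_filter_not _ _ _
  have h9 : ∑ v : V, uu f U v ≤ (U.card : ℝ) := dc U
  have h10 : (((Finset.univ.filter (fun v => f v ⊆ U)).card : ℕ) : ℝ) +
      (((Finset.univ.filter (fun v => ¬ f v ⊆ U)).card : ℕ) : ℝ) = (Fintype.card V : ℝ) := by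
    have h11 := Finset.card_filter_add_card_filter_not (s := (Finset.univ : Finset V))
      (fun v => f v ⊆ U)
    rw [Finset.card_univ] at h11
    exact_mod_cast h11
  have h12 : ∑ Z ∈ allC (ngr f) U, (Z.card : ℝ) + (U.card : ℝ) = (Fintype.card N : ℝ) := by
    have h13 := sum_allC (S := ngr f) (U := U)
    exact_mod_cast h13
  have h14 : (Fintype.card N : ℝ) + (U.card : ℝ) ≤
      2 * (F.card : ℝ) + ((oddC (ngr f) U).card : ℝ) := by exact_mod_cast hF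
  rw [h4, h5, ← h10]
  linarith

end

end Pool.Agent.H64.KD
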