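import Pool.Agent.H64.KD.Defs

/-!
Module Lh (row KDLH).  Small classes `Z ∈ allC (ngr f) U` (so `Z ∩ U = ∅`: `allC_eq`).
By `node_split` (H64/K4/Co) the nodes of a vertex `v ∈ tch f Z` are all in `Z` or in `U`, so `|f v ∩ Z| + |f v ∩ U| = 3`; `v ∈ ins f Z` iff `f v ⊆ Z`.
Two different vertices share at most one node (`PSd.lin`): `|f u ∩ f v| ≤ 1`.
`l1`: `|Z| = 1`: no `v` has `f v ⊆ Z`, and `|f v ∩ Z| ≤ 1`.
`l3`: `|Z| = 3`: `v ∈ ins` means `f v = Z`; two such vertices would share three nodes; a vertex `w ∈ bdr` with at most one node in `U` has two nodes in `Z = f v`: contradiction to `lin`.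
`l5`: `|Z| = 5`: three different `u, v, w ∈ ins`: `|f u ∪ f v ∪ f w| ≥ 9 - 3 = 6 > 5` (`Finset.card_union_add_card_inter`; `|f u ∪ f v| ≥ 5`, `|(f u ∪ f v) ∩ f w| ≤ 2`).
`ndeg`: `f v = 3` elements, as above.
-/

set_option autoImplicit false
set_option linter.all false

namespace Pool.Agent.H64.KD

open Classical Pool.Agent.H67.CF Pool.Agent.H64.K4

noncomputable section

variable {V N : Type} [Fintype V] [Fintype N] {G : SimpleGraph V} {f : V → Finset N} {d : ℕ}
  {U : Finset N}

theorem Lh_inter (h : PSd G f d) {u v : V} (huv : u ≠ v) : (f u ∩ f v).card ≤ 1 := by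
  rw [Finset.card_le_one]
  intro p hp q hq
  rw [Finset.mem_inter] at hp hq
  exact h.lin u v huv p q hp.1 hp.2 hq.1 hq.2

theorem Lh_split (h : PSd G f d) {Z : Finset N} (hZ : Z ∈ allC (ngr f) U) {v : V}
    (hv : v ∈ bdr f Z) : 3 ≤ ((f v).filter (fun p => p ∈ U)).card + (f v ∩ Z).card := by
  have h1 : f v ⊆ (f v).filter (fun p => p ∈ U) ∪ (f v ∩ Z) := by
    intro p hp
    rw [Finset.mem_union, Finset.mem_filter, Finset.mem_inter]
    by_cases hpU : p ∈ U
    · exact Or.inl ⟨hp, hpU⟩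
    · exact Or.inr ⟨hp, node_split h.card3 hZ (mem_bdr.1 hv).1 hp hpU⟩
  have h2 := (Finset.card_le_card h1).trans (Finset.card_union_le _ _)
  rwa [h.card3] at h2

/-- the nodes of a boundary vertex -/
theorem bdr_pos (h : PSd G f d) {Z : Finset N} (hZ : Z ∈ allC (ngr f) U) {v : V}
    (hv : v ∈ bdr f Z) : 1 ≤ ((f v).filter (fun p => p ∈ U)).card := by
  have h1 := Lh_split h hZ hv
  have h2 : (f v ∩ Z).card < 3 := by
    rw [← h.card3 v]
    apply Finset.card_lt_card
    refine ⟨Finset.inter_subset_left, fun hs => ?_⟩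
    exact (mem_bdr.1 hv).2 (fun p hp => (Finset.mem_inter.1 (hs hp)).2)
  omega

theorem l1 (h : PSd G f d) {Z : Finset N} (hZ : Z ∈ allC (ngr f) U) (h1 : Z.card = 1) :
    ins f Z = ∅ ∧ ∀ v ∈ bdr f Z, 2 ≤ ((f v).filter (fun p => p ∈ U)).card := by
  constructor
  · rw [Finset.eq_empty_iff_forall_notMem]
    intro v hv
    have h2 := Finset.card_le_card (mem_ins.1 hv)
    rw [h.card3, h1] at h2
    omega
  · intro v hv
    have h2 := Lh_split h hZ hv
    have h3 : (f v ∩ Z).card ≤ 1 := by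
      rw [← h1]
      exact Finset.card_le_card Finset.inter_subset_right
    omega

theorem l3 (h : PSd G f d) {Z : Finset N} (hZ : Z ∈ allC (ngr f) U) (h1 : Z.card = 3) :
    (ins f Z).card ≤ 1 ∧
      ((ins f Z).Nonempty → ∀ v ∈ bdr f Z, 2 ≤ ((f v).filter (fun p => p ∈ U)).card) := by
  have key : ∀ v ∈ ins f Z, f v = Z := by
    intro v hv
    exact Finset.eq_of_subset_of_card_le (mem_ins.1 hv) (by rw [h1, h.card3])
  constructor
  · rw [Finset.card_le_one]
    intro u hu v hv
    by_contra hne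
    have h2 := Lh_inter h hne
    rw [key u hu, key v hv, Finset.inter_self, h1] at h2
    omega
  · rintro ⟨v, hv⟩ w hw
    have h2 := Lh_split h hZ hw
    have hne : w ≠ v := by
      rintro rfl
      exact (mem_bdr.1 hw).2 (mem_ins.1 hv)
    have h3 := Lh_inter h hne
    rw [key v hv] at h3
    omega

theorem l5 (h : PSd G f d) {Z : Finset N} (hZ : Z ∈ allC (ngr f) U) (h1 : Z.card = 5) :
    (ins f Z).card ≤ 2 := by
  by_contra hcon
  push Not at hcon
  obtain ⟨u, hu, v, hv, w, hw, huv, huw, hvw⟩ := Finset.two_lt_card.1 hcon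
  have e1 := Lh_inter h huv
  have e2 := Lh_inter h huw
  have e3 := Lh_inter h hvw
  have e4 := Finset.card_union_add_card_inter (f u) (f v)
  have e5 := Finset.card_union_add_card_inter (f u ∪ f v) (f w)
  rw [h.card3, h.card3] at e4
  rw [h.card3] at e5
  have e6 : ((f u ∪ f v) ∩ f w).card ≤ (f u ∩ f w).card + (f v ∩ f w).card := by
    rw [Finset.union_inter_distrib_right]
    exact Finset.card_union_le _ _
  have e7 : (f u ∪ f v ∪ f w).card ≤ 5 := by
    rw [← h1]
    apply Finset.card_le_card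
    exact Finset.union_subset (Finset.union_subset (mem_ins.1 hu) (mem_ins.1 hv)) (mem_ins.1 hw)
  omega

end

end Pool.Agent.H64.KD
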