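import Pool.Agent.H64.KD.Nv
import Pool.Agent.H64.KD.Lh
import Pool.Agent.H64.KD.Ee

/-!
Module B6 (row KDB6).  Bad classes have few boundary vertices; `d ≥ 6`: they have many inside vertices.  Use only the STATEMENTS of Nv, Lh, Ee, Nu.  `κ = wt d`, `q = |Z|`, `i = |ins f Z|`.

`A := Σ_(v ∈ tch f Z) sv(v)`, all terms `≥ 0` (`v0`).  By `e1`: `A ≤ Ez` if `q` is even (so `Ez ≥ 0`: `ez_even`), `A ≤ Ez + 1/2` if `q` is odd (so `Ez ≥ -1/2`: `ez_odd`).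
`bad_bdr`: `Ez < 0`, `q` odd: `A < 1/2`, every boundary vertex has `sv ≥ 1/(2(d+1))` (`v4`, `bdr_pos`): `|bdr| < d + 1`.
`bad6`: suppose `2i ≤ q + 2`, so `2i ≤ q + 1` (`q` odd).  By `e3`, `v3` (for the boundary vertices `uu - κ ≥ -2 sv`): `Ez ≥ (q-1)/2 - κ i - 2A`.  With `Ez ≥ A - 1/2`: `3 Ez ≥ (q-3)/2 - κ i`.
   `q ≥ 7`: `κ ≤ 1/2`, `i ≤ (q+1)/2`: `3 Ez ≥ (q-3)/2 - (q+1)/4 = (q-7)/4 ≥ 0`.   `q = 5`: `i ≤ 2` (`l5`): `3 Ez ≥ 1 - 2κ ≥ 0`.
   `q = 3`: `i ≤ 1` (`l3`).  `i = 0`: `3 Ez ≥ 0`.  `i = 1`: all boundary vertices have two nodes in `U` (`l3`), so `uu ≥ κ` (`v2`), `Ez ≥ 1 - κ ≥ 0` by `e3`.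
   `q = 1`: `i = 0`, `uu ≥ κ` on the boundary (`l1`, `v2`): `Ez ≥ 0` by `e3`.   Each time a contradiction to `Ez < 0`.
`small_ok` (for all `d ≥ 4`): the case `q = 1`, and `q = 3`, `i = 1`, as above (`κ ≤ 1`: `wt_le_one` of H67/CF/Ab, or `wt4, wt5, wt_half`): `Ez ≥ 0`.
-/

set_option autoImplicit false
set_option linter.all false

namespace Pool.Agent.H64.KD

open Classical Pool.Agent.H67.CF Pool.Agent.H64.K4

noncomputable section

variable {V N : Type} [Fintype V] [Fintype N] {G : SimpleGraph V} {f : V → Finset N} {d : ℕ}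
  {U : Finset N}

private theorem B6_A0 (hd : 4 ≤ d) (h : PSd G f d) (S : Finset V) : 0 ≤ ∑ v ∈ S, sv f U (wt d) v :=
  Finset.sum_nonneg fun v _ => v0 hd h v

private theorem B6_le (hd : 4 ≤ d) (h : PSd G f d) (Z : Finset N) :
    ∑ v ∈ bdr f Z, sv f U (wt d) v ≤ ∑ v ∈ tch f Z, sv f U (wt d) v := by
  refine Finset.sum_le_sum_of_subset_of_nonneg ?_ fun v _ _ => v0 hd h v
  unfold bdr
  exact Finset.filter_subset _ _

theorem ez_even (hd : 4 ≤ d) (h : PSd G f d) {Z : Finset N} (hZ : Z ∈ allC (ngr f) U)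
    (hodd : ¬ Odd Z.card) : 0 ≤ Ez f U (wt d) Z := by
  have h1 := e1 (κ := wt d) h.card3 hZ
  rw [if_neg hodd, add_zero] at h1
  exact (B6_A0 hd h _).trans h1

theorem ez_odd (hd : 4 ≤ d) (h : PSd G f d) {Z : Finset N} (hZ : Z ∈ allC (ngr f) U)
    (hodd : Odd Z.card) : -(1 / 2) ≤ Ez f U (wt d) Z := by
  have h1 := e1 (κ := wt d) h.card3 hZ
  rw [if_pos hodd] at h1
  have h2 := B6_A0 (U := U) hd h (tch f Z)
  linarith

theorem bad_bdr (hd : 4 ≤ d) (h : PSd G f d) {Z : Finset N} (hZ : Z ∈ allC (ngr f) U)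
    (hodd : Odd Z.card) (hE : Ez f U (wt d) Z < 0) : (bdr f Z).card ≤ d := by
  have h1 := e1 (κ := wt d) h.card3 hZ
  rw [if_pos hodd] at h1
  have h2 := B6_le (U := U) hd h Z
  have h3 : ((bdr f Z).card : ℝ) * (1 / (2 * ((d : ℝ) + 1))) ≤ ∑ v ∈ bdr f Z, sv f U (wt d) v := by
    rw [← nsmul_eq_mul]
    exact Finset.card_nsmul_le_sum _ _ _ fun v hv => v4 hd h v (bdr_pos h hZ hv)
  have h4 : ((bdr f Z).card : ℝ) * (1 / (2 * ((d : ℝ) + 1))) < 1 / 2 := by linarith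
  have h5 : (0 : ℝ) < (d : ℝ) + 1 := by positivity
  rw [mul_one_div, div_lt_iff₀ (by positivity)] at h4
  have h6 : ((bdr f Z).card : ℝ) < ((d + 1 : ℕ) : ℝ) := by
    push_cast
    linarith
  have h7 : (bdr f Z).card < d + 1 := by exact_mod_cast h6
  omega

private theorem B6_key (hd : 4 ≤ d) (h : PSd G f d) {Z : Finset N} (hZ : Z ∈ allC (ngr f) U)
    (hodd : Odd Z.card) :
    ((Z.card : ℝ) - 3) / 2 - wt d * ((ins f Z).card : ℝ) ≤ 3 * Ez f U (wt d) Z := by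
  have h1 := e1 (κ := wt d) h.card3 hZ
  rw [if_pos hodd] at h1
  have h2 := B6_le (U := U) hd h Z
  have h3 := e3 (κ := wt d) h.card3 hZ hodd
  have h4 : ∑ v ∈ bdr f Z, (wt d - uu f U v) ≤ ∑ v ∈ bdr f Z, 2 * sv f U (wt d) v :=
    Finset.sum_le_sum fun v hv => v3 hd h v (bdr_pos h hZ hv)
  rw [← Finset.mul_sum] at h4
  have h5 : ∑ v ∈ bdr f Z, (uu f U v - wt d) = - ∑ v ∈ bdr f Z, (wt d - uu f U v) := by
    rw [← Finset.sum_neg_distrib]
    exact Finset.sum_congr rfl fun v _ => by ring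
  rw [h5] at h3
  linarith

private theorem B6_two (hd : 4 ≤ d) (h : PSd G f d) {Z : Finset N} (hZ : Z ∈ allC (ngr f) U)
    (hodd : Odd Z.card) (h2 : ∀ v ∈ bdr f Z, 2 ≤ ((f v).filter (fun p => p ∈ U)).card) :
    ((Z.card : ℝ) - 1) / 2 - wt d * ((ins f Z).card : ℝ) ≤ Ez f U (wt d) Z := by
  have h3 := e3 (κ := wt d) h.card3 hZ hodd
  have h4 : 0 ≤ ∑ v ∈ bdr f Z, (uu f U v - wt d) :=
    Finset.sum_nonneg fun v hv => sub_nonneg.2 (v2 hd h v (h2 v hv))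
  linarith

theorem small_ok (hd : 4 ≤ d) (h : PSd G f d) {Z : Finset N} (hZ : Z ∈ allC (ngr f) U)
    (hs : Z.card = 1 ∨ (Z.card = 3 ∧ (ins f Z).Nonempty)) : 0 ≤ Ez f U (wt d) Z := by
  rcases hs with h1 | ⟨h1, h2⟩
  · obtain ⟨h3, h4⟩ := l1 h hZ h1
    have h5 := B6_two hd h hZ (by rw [h1]; decide) h4
    rw [h1, h3, Finset.card_empty] at h5
    norm_num at h5
    exact h5
  · obtain ⟨h3, h4⟩ := l3 h hZ h1
    have h5 := B6_two hd h hZ (by rw [h1]; decide) (h4 h2)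
    have h6 : (ins f Z).card = 1 := le_antisymm h3 (Finset.card_pos.2 h2)
    rw [h1, h6] at h5
    have h7 : wt d ≤ 1 := by
      rcases (by omega : d = 4 ∨ d = 5 ∨ 6 ≤ d) with h8 | h8 | h8
      · rw [h8, wt4]; norm_num
      · rw [h8, wt5]; norm_num
      · exact (wt_half h8).trans (by norm_num)
    norm_num at h5
    linarith

theorem bad6 (hd : 6 ≤ d) (h : PSd G f d) {Z : Finset N} (hZ : Z ∈ allC (ngr f) U)
    (hodd : Odd Z.card) (hE : Ez f U (wt d) Z < 0) : Z.card + 3 ≤ 2 * (ins f Z).card := by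
  by_contra hcon
  have hd4 : 4 ≤ d := by omega
  have hw := wt_half hd
  have hkey := B6_key hd4 h hZ hodd
  obtain ⟨m, hm⟩ := hodd
  have hi : 2 * (ins f Z).card ≤ Z.card + 1 := by omega
  have hi0 : (0 : ℝ) ≤ ((ins f Z).card : ℝ) := Nat.cast_nonneg _
  have hmul : wt d * ((ins f Z).card : ℝ) ≤ 1 / 2 * ((ins f Z).card : ℝ) := mul_le_mul_of_nonneg_right hw hi0
  have hcases : Z.card = 1 ∨ Z.card = 3 ∨ Z.card = 5 ∨ 7 ≤ Z.card := by omega
  rcases hcases with h1 | h1 | h1 | h1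
  · have := small_ok hd4 h hZ (Or.inl h1)
    linarith
  · by_cases h2 : (ins f Z).Nonempty
    · have := small_ok hd4 h hZ (Or.inr ⟨h1, h2⟩)
      linarith
    · rw [Finset.not_nonempty_iff_eq_empty] at h2
      rw [h1, h2, Finset.card_empty] at hkey
      norm_num at hkey
      linarith
  · have h2 := l5 h hZ h1
    have h3 : ((ins f Z).card : ℝ) ≤ 2 := by exact_mod_cast h2
    rw [h1] at hkey
    norm_num at hkey
    linarith
  · have h2 : 2 * ((ins f Z).card : ℝ) ≤ (Z.card : ℝ) + 1 := by exact_mod_cast hi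
    have h3 : (7 : ℝ) ≤ (Z.card : ℝ) := by exact_mod_cast h1
    linarith

end

end Pool.Agent.H64.KD
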