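import Pool.Agent.H64.KD.Defs

/-!
Module Cs (row KDCS).  Complementary slackness in the Tutte-Berge formula.

`(U, mate)` as given by `tutte_berge (ngr f)`; `F` = vertices owning a matched pair: for `v ∈ F`, `own v = {p, mate p}` with `mate p ≠ p`; the sets `own v` are disjoint.
Lemmas of H64/K4/Co.lean to use: `mem_clsF`, `allC_eq`, `allC_disj`, `allC_closed`, `node_split`, `mem_tch`, `own_card`; `oddC S U = (allC S U).filter (Odd ∘ card)`.

For `Z' ∈ oddC` let `ρ(Z') := #{p ∈ Z' : mate p = p ∨ mate p ∈ U}`.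
(1) `ρ(Z') ≥ 1`: otherwise for all `p ∈ Z'`: `mate p ≠ p`, `mate p ∉ U`, `p ~ mate p` in `ngr f`, so `mate p ∈ Z'` (`allC_closed`): a fixed-point-free involution of `Z'`, `|Z'|` would be even
    (`Finset.card_involution`-type lemma: Mathlib `Finset.even_card_of_involution`/`Finset.card_involution`, or `Equiv.Perm.card_fixedPoints_modEq`, or an own induction).
(2) The sets `{p ∈ Z' : ...}`, `Z' ∈ oddC`, are disjoint subsets of `A ∪ A'`, `A = {p ∉ U : mate p = p}`, `A' = {p ∉ U : mate p ∈ U}`; `mate` maps `A'` injectively into `{u ∈ U : mate u ∉ U}`.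
    So `|oddC| ≤ Σ ρ(Z') ≤ |A| + |A'| ≤ #{p ∉ U : mate p = p} + #{u ∈ U : mate u ∉ U}`, while `hcard` says `#{p : mate p = p} + |U| ≤ |oddC|`.  So everything is an equality:
    every `u ∈ U` has `mate u ∉ U`, and `ρ(Z') = 1` for every `Z' ∈ oddC` (a sum of terms `≥ 1` with total `≤` the number of terms).
(3) Let `v ∈ F ∩ tch f Z`, `own v = {p, mate p} ⊆ f v`.  By `node_split` every node of `v` is in `Z` or in `U`; not both `p, mate p` are in `U` by (2).  So `own v ∩ Z` has two elements, or exactly one,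
    say `p`, and then `mate p ∈ U`, `p` is one of the `ρ(Z) = 1` nodes; as the sets `own v` are disjoint, at most one `v` is of the second kind.
    `2 |F ∩ tch f Z| ≤ Σ_(v ∈ F ∩ tch f Z) |own v ∩ Z| + 1 ≤ |Z| + 1`.
-/

set_option autoImplicit false
set_option linter.all false

namespace Pool.Agent.H64.KD

open Classical Pool.Agent.H67.CF Pool.Agent.H64.K4

noncomputable section

/-- the nodes of `Z` which are unmatched or matched to `U` -/
def Cs_R {N : Type} (mate : N → N) (U Z : Finset N) : Finset N :=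
  Z.filter (fun p => mate p = p ∨ mate p ∈ U)

theorem Cs_sum {V N : Type} {F : Finset V} {own : V → Finset N}
    (hd : ∀ u ∈ F, ∀ v ∈ F, u ≠ v → Disjoint (own u) (own v)) (T : Finset V) (hT : T ⊆ F)
    (W : Finset N) : ∑ v ∈ T, (own v ∩ W).card ≤ W.card := by
  rw [← Finset.card_biUnion]
  · apply Finset.card_le_card
    intro p hp
    obtain ⟨v, hv, hpv⟩ := Finset.mem_biUnion.1 hp
    exact (Finset.mem_inter.1 hpv).2
  · intro u hu v hv huv
    exact Finset.disjoint_of_subset_left Finset.inter_subset_left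
      (Finset.disjoint_of_subset_right Finset.inter_subset_left (hd u (hT hu) v (hT hv) huv))

theorem Cs_odd {N : Type} {s : Finset N} {mate : N → N} (hmm : ∀ p, mate (mate p) = p)
    (hm : ∀ p ∈ s, mate p ≠ p ∧ mate p ∈ s) : ¬ Odd s.card := by
  have h1 : ∑ p ∈ s, (1 : ZMod 2) = 0 :=
    Finset.sum_involution (fun p _ => mate p) (fun p _ => by decide) (fun p hp _ => (hm p hp).1)
      (fun p hp => (hm p hp).2) (fun p _ => hmm p)
  rw [Finset.sum_const, nsmul_eq_mul, mul_one] at h1
  rw [Nat.not_odd_iff_even]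
  exact even_iff_two_dvd.2 ((ZMod.natCast_eq_zero_iff _ _).1 h1)

theorem cs_card {V N : Type} [Fintype V] [Fintype N] {f : V → Finset N}
    (h3 : ∀ v, (f v).card = 3) {U : Finset N} {mate : N → N} (hmm : ∀ p, mate (mate p) = p)
    (hmadj : ∀ p, mate p = p ∨ (ngr f).Adj p (mate p))
    (hcard : (Finset.univ.filter (fun p => mate p = p)).card + U.card ≤ (oddC (ngr f) U).card)
    {F : Finset V} {own : V → Finset N} (hown : Own f F own)
    (hm : ∀ v ∈ F, ∀ p ∈ own v, mate p ≠ p ∧ mate p ∈ own v)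
    {Z : Finset N} (hZ : Z ∈ oddC (ngr f) U) :
    2 * (F ∩ tch f Z).card ≤ Z.card + 1 := by
  have hoddall : ∀ Z, Z ∈ oddC (ngr f) U → Z ∈ allC (ngr f) U ∧ Odd Z.card :=
    fun Z hZ => Finset.mem_filter.1 hZ
  obtain ⟨hZa, hZo⟩ := hoddall Z hZ
  have hR1 : ∀ Z' ∈ oddC (ngr f) U, 1 ≤ (Cs_R mate U Z').card := by
    intro Z' hZ'
    obtain ⟨hZa', hZo'⟩ := hoddall Z' hZ'
    by_contra hcon
    have h0 : Cs_R mate U Z' = ∅ := by
      rw [← Finset.card_eq_zero]
      omega
    refine Cs_odd hmm ?_ hZo'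
    intro p hp
    have h1 : ¬ (mate p = p ∨ mate p ∈ U) := by
      intro h
      have h2 : p ∈ Cs_R mate U Z' := Finset.mem_filter.2 ⟨hp, h⟩
      rw [h0] at h2
      exact absurd h2 (Finset.notMem_empty p)
    push Not at h1
    refine ⟨h1.1, ?_⟩
    rcases hmadj p with h2 | h2
    · exact absurd h2 h1.1
    · exact allC_closed hZa' hp h1.2 h2
  have hsum : ∑ Z' ∈ oddC (ngr f) U, (Cs_R mate U Z').card ≤
      (Finset.univ.filter (fun p => p ∉ U ∧ (mate p = p ∨ mate p ∈ U))).card := by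
    rw [← Finset.card_biUnion]
    · apply Finset.card_le_card
      intro p hp
      obtain ⟨Z', hZ', hp'⟩ := Finset.mem_biUnion.1 hp
      obtain ⟨hp1, hp2⟩ := Finset.mem_filter.1 hp'
      exact Finset.mem_filter.2 ⟨Finset.mem_univ _, (allC_eq (hoddall Z' hZ').1 hp1).1, hp2⟩
    · intro Z' hZ' Z'' hZ'' hne
      rw [Function.onFun, Finset.disjoint_left]
      intro p hp hp'
      exact hne (allC_disj (hoddall Z' hZ').1 (hoddall Z'' hZ'').1 (Finset.mem_filter.1 hp).1
        (Finset.mem_filter.1 hp').1)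
  have hsub : (Finset.univ.filter (fun p => p ∉ U ∧ (mate p = p ∨ mate p ∈ U))).card ≤
      (Finset.univ.filter (fun p => mate p = p)).card + (U.filter (fun u => ¬ mate u ∈ U)).card := by
    have h1 : Finset.univ.filter (fun p => p ∉ U ∧ (mate p = p ∨ mate p ∈ U)) ⊆
        Finset.univ.filter (fun p => mate p = p) ∪ (U.filter (fun u => ¬ mate u ∈ U)).image mate := by
      intro p hp
      obtain ⟨-, hp1, hp2⟩ := Finset.mem_filter.1 hp
      rw [Finset.mem_union]
      rcases hp2 with h | h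
      · left
        exact Finset.mem_filter.2 ⟨Finset.mem_univ _, h⟩
      · right
        refine Finset.mem_image.2 ⟨mate p, Finset.mem_filter.2 ⟨h, ?_⟩, hmm p⟩
        rw [hmm]
        exact hp1
    exact (Finset.card_le_card h1).trans ((Finset.card_union_le _ _).trans
      (Nat.add_le_add_left Finset.card_image_le _))
  have hU := Finset.card_filter_add_card_filter_not (s := U) (fun u => mate u ∈ U)
  have hlow : (oddC (ngr f) U).card ≤ ∑ Z' ∈ oddC (ngr f) U, (Cs_R mate U Z').card := by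
    have h1 := Finset.card_nsmul_le_sum (oddC (ngr f) U) (fun Z' => (Cs_R mate U Z').card) 1 hR1
    rw [smul_eq_mul, mul_one] at h1
    exact h1
  have hi : (U.filter (fun u => mate u ∈ U)).card = 0 := by omega
  have hin : ∀ u ∈ U, mate u ∉ U := by
    intro u hu hmu
    have h1 : u ∈ U.filter (fun u => mate u ∈ U) := Finset.mem_filter.2 ⟨hu, hmu⟩
    rw [Finset.card_eq_zero.1 hi] at h1
    exact absurd h1 (Finset.notMem_empty u)
  have hRZ : (Cs_R mate U Z).card ≤ 1 := by
    have h1 := Finset.add_sum_erase (oddC (ngr f) U) (fun Z' => (Cs_R mate U Z').card) hZ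
    have h2 := Finset.card_nsmul_le_sum ((oddC (ngr f) U).erase Z)
      (fun Z' => (Cs_R mate U Z').card) 1 (fun Z' h => hR1 Z' (Finset.mem_of_mem_erase h))
    have h3 := Finset.card_erase_add_one hZ
    rw [smul_eq_mul, mul_one] at h2
    omega
  have key : ∀ v ∈ F ∩ tch f Z, 2 ≤ (own v ∩ Z).card + (own v ∩ Cs_R mate U Z).card := by
    intro v hv
    obtain ⟨hvF, hvt⟩ := Finset.mem_inter.1 hv
    by_cases hall : own v ⊆ Z
    · have h1 : own v ∩ Z = own v := Finset.inter_eq_left.2 hall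
      rw [h1, hown.card2 v hvF]
      omega
    · obtain ⟨p, hp, hpZ⟩ := Finset.not_subset.1 hall
      have hpf := hown.sub v hvF hp
      have hpU : p ∈ U := by
        by_contra h
        exact hpZ (node_split h3 hZa hvt hpf h)
      obtain ⟨h4, h5⟩ := hm v hvF p hp
      have h6 : mate p ∉ U := hin p hpU
      have h7 : mate p ∈ Z := node_split h3 hZa hvt (hown.sub v hvF h5) h6
      have h8 : mate p ∈ Cs_R mate U Z :=
        Finset.mem_filter.2 ⟨h7, Or.inr (by rw [hmm]; exact hpU)⟩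
      have h9 : 1 ≤ (own v ∩ Z).card := Finset.card_pos.2 ⟨_, Finset.mem_inter.2 ⟨h5, h7⟩⟩
      have h10 : 1 ≤ (own v ∩ Cs_R mate U Z).card :=
        Finset.card_pos.2 ⟨_, Finset.mem_inter.2 ⟨h5, h8⟩⟩
      omega
  have e1 := Finset.card_nsmul_le_sum (F ∩ tch f Z)
    (fun v => (own v ∩ Z).card + (own v ∩ Cs_R mate U Z).card) 2 key
  rw [Finset.sum_add_distrib, smul_eq_mul] at e1
  have e2 := Cs_sum hown.disj (F ∩ tch f Z) Finset.inter_subset_left Z
  have e3 := Cs_sum hown.disj (F ∩ tch f Z) Finset.inter_subset_left (Cs_R mate U Z)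
  omega

end

end Pool.Agent.H64.KD
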