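import Pool.Agent.H64.KD.B5
import Pool.Agent.H64.KD.B4
import Pool.Agent.H64.KD.Cs

/-!
Module Co2.  The construction of the kept set, every `d ≥ 4` (helper64).  See /team-store/H64_KD.md, 6.
-/

set_option autoImplicit false
set_option linter.all false

namespace Pool.Agent.H64.KD

open Classical Pool.Agent.H67.CF Pool.Agent.H64.K4

noncomputable section

theorem core2 {V N : Type} [Fintype V] [Fintype N] {G : SimpleGraph V} {f : V → Finset N} {d : ℕ}
    (hd : 4 ≤ d) (h : PSd G f d) :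
    ∃ (F : Finset V) (own : V → Finset N) (D : Finset V) (B : Finset (Finset V))
      (ext : Finset V → Finset V),
      Own f F own ∧ Rge (del G D) B ext ∧ (∀ X ∈ B, Disjoint X D) ∧
      (∀ X ∈ B, Disjoint (ext X) F) ∧ (∀ X ∈ B, (ext X).card ≤ d + 1) ∧
      wt d * (Fintype.card V : ℝ) ≤ ((F \ D).card : ℝ) + ∑ X ∈ B, ((ext X).card : ℝ) := by
  obtain ⟨U, mate, hmm, hmadj, hcard⟩ := tutte_berge (ngr f)
  have h3 := h.card3
  obtain ⟨own, howndef⟩ : ∃ own : V → Finset N,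
      own = fun v => (f v).filter (fun p => mate p ≠ p ∧ mate p ∈ f v) := ⟨_, rfl⟩
  obtain ⟨F, hFdef⟩ : ∃ F : Finset V,
      F = Finset.univ.filter (fun v => ∃ p, p ∈ f v ∧ mate p ≠ p ∧ mate p ∈ f v) := ⟨_, rfl⟩
  have mem_own : ∀ v p, p ∈ own v ↔ p ∈ f v ∧ mate p ≠ p ∧ mate p ∈ f v := by
    intro v p
    rw [howndef]
    simp only [Finset.mem_filter]
  have mem_F : ∀ v, v ∈ F ↔ ∃ p, p ∈ f v ∧ mate p ≠ p ∧ mate p ∈ f v := by
    intro v
    rw [hFdef]
    simp only [Finset.mem_filter, Finset.mem_univ, true_and]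
  have hOwn : Own f F own := by
    refine ⟨?_, ?_, ?_⟩
    · intro v hv p hp
      exact ((mem_own v p).1 hp).1
    · intro v hv
      obtain ⟨p, hp, hne, hmp⟩ := (mem_F v).1 hv
      have h1 : own v = {p, mate p} := by
        rw [howndef]
        exact own_card (h3 v) hmm hp hne hmp
      rw [h1, Finset.card_pair (fun he => hne he.symm)]
    · intro u hu v hv huv
      rw [Finset.disjoint_left]
      intro p hp hp'
      obtain ⟨a1, a2, a3⟩ := (mem_own u p).1 hp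
      obtain ⟨b1, b2, b3⟩ := (mem_own v p).1 hp'
      exact a2 (h.lin u v huv (mate p) p a3 b3 a1 b1)
  have hm : ∀ v ∈ F, ∀ p ∈ own v, mate p ≠ p ∧ mate p ∈ own v := by
    intro v hv p hp
    obtain ⟨a1, a2, a3⟩ := (mem_own v p).1 hp
    refine ⟨a2, (mem_own v (mate p)).2 ⟨a3, ?_, ?_⟩⟩
    · rw [hmm]; exact fun he => a2 he.symm
    · rw [hmm]; exact a1
  -- the number of matched nodes
  have hmatched : (Finset.univ.filter (fun p => ¬ mate p = p)).card = 2 * F.card := by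
    have h1 : Finset.univ.filter (fun p => ¬ mate p = p) = F.biUnion own := by
      ext p
      simp only [Finset.mem_filter, Finset.mem_univ, true_and, Finset.mem_biUnion]
      constructor
      · intro hp
        rcases hmadj p with he | he
        · exact absurd he hp
        · obtain ⟨-, v, hv1, hv2⟩ := he
          exact ⟨v, (mem_F v).2 ⟨p, hv1, hp, hv2⟩, (mem_own v p).2 ⟨hv1, hp, hv2⟩⟩
      · rintro ⟨v, hv, hp⟩
        exact ((mem_own v p).1 hp).2.1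
    rw [h1, Finset.card_biUnion (fun u hu v hv huv => hOwn.disj u hu v hv huv),
      Finset.sum_congr rfl fun v hv => hOwn.card2 v hv, Finset.sum_const, smul_eq_mul, mul_comm]
  have hN := Finset.card_filter_add_card_filter_not (s := (Finset.univ : Finset N))
    (fun p => mate p = p)
  rw [hmatched, Finset.card_univ] at hN
  have hκ : ∀ v, f v ⊆ U → wt d ≤ uu f U v := by
    intro v hv
    apply v2 hd h v
    rw [Finset.filter_true_of_mem fun p hp => hv hp, h3 v]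
    norm_num
  have hcount := e2 (κ := wt d) h3 hκ (F := F) (by omega)
  -- the bad classes
  obtain ⟨bad, hbaddef⟩ : ∃ bad : Finset (Finset N),
      bad = (allC (ngr f) U).filter (fun Z => Ez f U (wt d) Z < 0) := ⟨_, rfl⟩
  have mem_bad : ∀ Z, Z ∈ bad ↔ Z ∈ allC (ngr f) U ∧ Ez f U (wt d) Z < 0 := by
    intro Z
    rw [hbaddef, Finset.mem_filter]
  have hodd : ∀ Z ∈ bad, Odd Z.card := by
    intro Z hZ
    obtain ⟨h1, h2⟩ := (mem_bad Z).1 hZ
    by_contra hcon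
    have := ez_even hd h h1 hcon
    linarith
  have htype : ∀ Z ∈ bad, ((bdr f Z).card ≤ 1 ∧ Z.card + 1 ≤ 2 * (ins f Z).card) ∨
      Z.card + 3 ≤ 2 * (ins f Z).card := by
    intro Z hZ
    obtain ⟨h1, h2⟩ := (mem_bad Z).1 hZ
    have ho := hodd Z hZ
    rcases Nat.lt_or_ge d 6 with hd6 | hd6
    · have hd' : d = 4 ∨ d = 5 := by omega
      rcases hd' with rfl | rfl
      · exact Or.inl (bad4 h h1 ho h2)
      · exact Or.inr (bad5 h h1 ho h2)
    · exact Or.inr (bad6 hd6 h h1 ho h2)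
  have hinspos : ∀ Z ∈ bad, 1 ≤ (ins f Z).card := by
    intro Z hZ
    rcases htype Z hZ with h1 | h1
    · omega
    · omega
  have hinj : ∀ Z ∈ allC (ngr f) U, ∀ Z' ∈ allC (ngr f) U, ∀ v, v ∈ ins f Z → v ∈ ins f Z' →
      Z = Z' := by
    intro Z hZ Z' hZ' v hv hv'
    have h1 : (f v).Nonempty := by
      rw [← Finset.card_pos, h3]; norm_num
    obtain ⟨p, hp⟩ := h1
    exact allC_disj hZ hZ' (mem_ins.1 hv hp) (mem_ins.1 hv' hp)
  have hinj2 : ∀ Z ∈ bad, ∀ Z' ∈ bad, ins f Z = ins f Z' → Z = Z' := by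
    intro Z hZ Z' hZ' he
    obtain ⟨v, hv⟩ := Finset.card_pos.1 (hinspos Z hZ)
    exact hinj Z ((mem_bad Z).1 hZ).1 Z' ((mem_bad Z').1 hZ').1 v hv (by rw [← he]; exact hv)
  -- the sizes of the additional sets
  obtain ⟨cf, hcfdef⟩ : ∃ cf : Finset N → ℕ,
      cf = fun Z => if (bdr f Z).card ≤ 1 ∧ Z.card + 1 ≤ 2 * (ins f Z).card then 1
        else (F ∩ bdr f Z).card + 1 := ⟨_, rfl⟩
  have cfA : ∀ Z, ((bdr f Z).card ≤ 1 ∧ Z.card + 1 ≤ 2 * (ins f Z).card) → cf Z = 1 := by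
    intro Z hZ
    rw [hcfdef]
    exact if_pos hZ
  have cfB : ∀ Z, ¬ ((bdr f Z).card ≤ 1 ∧ Z.card + 1 ≤ 2 * (ins f Z).card) →
      cf Z = (F ∩ bdr f Z).card + 1 := by
    intro Z hZ
    rw [hcfdef]
    exact if_neg hZ
  have hFins : ∀ Z : Finset N, 2 * (F ∩ ins f Z).card ≤ Z.card := by
    intro Z
    have h1 : ((F ∩ ins f Z).biUnion own).card = 2 * (F ∩ ins f Z).card := by
      rw [Finset.card_biUnion (fun u hu v hv huv => hOwn.disj u (Finset.mem_inter.1 hu).1 v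
          (Finset.mem_inter.1 hv).1 huv),
        Finset.sum_congr rfl fun v hv => hOwn.card2 v (Finset.mem_inter.1 hv).1,
        Finset.sum_const, smul_eq_mul, mul_comm]
    rw [← h1]
    apply Finset.card_le_card
    intro p hp
    obtain ⟨v, hv, hpv⟩ := Finset.mem_biUnion.1 hp
    exact mem_ins.1 (Finset.mem_inter.1 hv).2 (hOwn.sub v (Finset.mem_inter.1 hv).1 hpv)
  have hFtch : ∀ Z : Finset N, (F ∩ tch f Z).card = (F ∩ ins f Z).card + (F ∩ bdr f Z).card := by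
    intro Z
    have h1 : F ∩ tch f Z = (F ∩ ins f Z) ∪ (F ∩ bdr f Z) := by
      ext v
      simp only [Finset.mem_inter, Finset.mem_union]
      constructor
      · rintro ⟨hv, hvt⟩
        by_cases hvi : f v ⊆ Z
        · exact Or.inl ⟨hv, mem_ins.2 hvi⟩
        · exact Or.inr ⟨hv, mem_bdr.2 ⟨hvt, hvi⟩⟩
      · rintro (⟨hv, hvi⟩ | ⟨hv, hvb⟩)
        · exact ⟨hv, ins_sub_tch h3 hvi⟩
        · exact ⟨hv, (mem_bdr.1 hvb).1⟩
    rw [h1, Finset.card_union_of_disjoint]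
    rw [Finset.disjoint_left]
    intro v hv hv'
    exact (mem_bdr.1 (Finset.mem_inter.1 hv').2).2 (mem_ins.1 (Finset.mem_inter.1 hv).2)
  have hsize : ∀ Z ∈ bad, cf Z ≤ (ins f Z \ F).card := by
    intro Z hZ
    have h1 : (ins f Z \ F).card + (F ∩ ins f Z).card = (ins f Z).card := by
      rw [Finset.inter_comm]
      exact Finset.card_sdiff_add_card_inter _ _
    have h2 := hFins Z
    have h4 := hFtch Z
    have h5 := hodd Z hZ
    obtain ⟨j, hj⟩ := h5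
    by_cases hA : (bdr f Z).card ≤ 1 ∧ Z.card + 1 ≤ 2 * (ins f Z).card
    · rw [cfA Z hA]
      omega
    · rw [cfB Z hA]
      have h6 : Z.card + 3 ≤ 2 * (ins f Z).card := by
        rcases htype Z hZ with h7 | h7
        · exact absurd h7 hA
        · exact h7
      have h8 := cs_card h3 hmm hmadj hcard hOwn hm (Z := Z)
        (Finset.mem_filter.2 ⟨((mem_bad Z).1 hZ).1, hodd Z hZ⟩)
      omega
  have hext : ∀ X : Finset V, ∃ t : Finset V, ∀ Z ∈ bad, ins f Z = X →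
      t ⊆ ins f Z \ F ∧ t.card = cf Z := by
    intro X
    by_cases hX : ∃ Z ∈ bad, ins f Z = X
    · obtain ⟨Z, hZ, hZX⟩ := hX
      obtain ⟨t, ht1, ht2⟩ := Finset.exists_subset_card_eq (hsize Z hZ)
      refine ⟨t, fun Z' hZ' hZ'X => ?_⟩
      have he : Z = Z' := hinj2 Z hZ Z' hZ' (by rw [hZX, hZ'X])
      rw [← he]
      exact ⟨ht1, ht2⟩
    · refine ⟨∅, fun Z hZ hZX => absurd ⟨Z, hZ, hZX⟩ hX⟩
  choose ext hext using hext
  have hext1 : ∀ Z ∈ bad, ext (ins f Z) ⊆ ins f Z \ F := fun Z hZ => (hext _ Z hZ rfl).1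
  have hext2 : ∀ Z ∈ bad, (ext (ins f Z)).card = cf Z := fun Z hZ => (hext _ Z hZ rfl).2
  -- the deleted boundary vertices
  obtain ⟨badB, hbadBdef⟩ : ∃ badB : Finset (Finset N),
      badB = bad.filter (fun Z => ¬ ((bdr f Z).card ≤ 1 ∧ Z.card + 1 ≤ 2 * (ins f Z).card)) :=
    ⟨_, rfl⟩
  have mem_badB : ∀ Z, Z ∈ badB ↔ Z ∈ bad ∧
      ¬ ((bdr f Z).card ≤ 1 ∧ Z.card + 1 ≤ 2 * (ins f Z).card) := by
    intro Z
    rw [hbadBdef, Finset.mem_filter]
  have hdisjD : ∀ Z ∈ bad, ∀ Z' ∈ bad, Disjoint (bdr f Z) (ins f Z') := by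
    intro Z hZ Z' hZ'
    rw [Finset.disjoint_left]
    intro v hv hv'
    obtain ⟨hv1, hv2⟩ := mem_bdr.1 hv
    obtain ⟨p, hp, hpZ⟩ := mem_tch.1 hv1
    have h1 := allC_disj ((mem_bad Z).1 hZ).1 ((mem_bad Z').1 hZ').1 hpZ (mem_ins.1 hv' hp)
    apply hv2
    rw [h1]
    exact mem_ins.1 hv'
  refine ⟨F, own, badB.biUnion (bdr f), bad.image (ins f), ext, hOwn, ⟨?_, ?_, ?_⟩, ?_, ?_, ?_, ?_⟩
  · intro X hX Y hY hXY
    obtain ⟨Z, hZ, rfl⟩ := Finset.mem_image.1 hX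
    obtain ⟨Z', hZ', rfl⟩ := Finset.mem_image.1 hY
    rw [Finset.disjoint_left]
    intro v hv hv'
    exact hXY (by rw [hinj Z ((mem_bad Z).1 hZ).1 Z' ((mem_bad Z').1 hZ').1 v hv hv'])
  · intro X hX
    obtain ⟨Z, hZ, rfl⟩ := Finset.mem_image.1 hX
    exact (hext1 Z hZ).trans Finset.sdiff_subset
  · intro X hX
    obtain ⟨Z, hZ, rfl⟩ := Finset.mem_image.1 hX
    by_cases hA : (bdr f Z).card ≤ 1 ∧ Z.card + 1 ≤ 2 * (ins f Z).card
    · refine ⟨bdr f Z, hA.1, ?_, ?_⟩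
      · intro Y hY
        obtain ⟨Z', hZ', rfl⟩ := Finset.mem_image.1 hY
        exact hdisjD Z hZ Z' hZ'
      · rintro u hu w ⟨huw, -, -⟩
        obtain ⟨-, p, hp, hpw⟩ := (h.adj u w).1 huw
        have h1 : w ∈ tch f Z := mem_tch.2 ⟨p, hpw, mem_ins.1 hu hp⟩
        by_cases hw : f w ⊆ Z
        · exact Or.inl (mem_ins.2 hw)
        · exact Or.inr (mem_bdr.2 ⟨h1, hw⟩)
    · refine ⟨∅, by simp, fun Y _ => Finset.disjoint_empty_left Y, ?_⟩
      rintro u hu w ⟨huw, -, hwD⟩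
      obtain ⟨-, p, hp, hpw⟩ := (h.adj u w).1 huw
      have h1 : w ∈ tch f Z := mem_tch.2 ⟨p, hpw, mem_ins.1 hu hp⟩
      by_cases hw : f w ⊆ Z
      · exact Or.inl (mem_ins.2 hw)
      · exact absurd (Finset.mem_biUnion.2 ⟨Z, (mem_badB Z).2 ⟨hZ, hA⟩, mem_bdr.2 ⟨h1, hw⟩⟩) hwD
  · intro X hX
    obtain ⟨Z, hZ, rfl⟩ := Finset.mem_image.1 hX
    rw [Finset.disjoint_left]
    intro v hv hv'
    obtain ⟨Z', hZ', hv'⟩ := Finset.mem_biUnion.1 hv'
    exact (Finset.disjoint_left.1 (hdisjD Z' ((mem_badB Z').1 hZ').1 Z hZ)) hv' hv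
  · intro X hX
    obtain ⟨Z, hZ, rfl⟩ := Finset.mem_image.1 hX
    rw [Finset.disjoint_left]
    intro v hv hvF
    exact (Finset.mem_sdiff.1 (hext1 Z hZ hv)).2 hvF
  · intro X hX
    obtain ⟨Z, hZ, rfl⟩ := Finset.mem_image.1 hX
    rw [hext2 Z hZ]
    by_cases hA : (bdr f Z).card ≤ 1 ∧ Z.card + 1 ≤ 2 * (ins f Z).card
    · rw [cfA Z hA]
      omega
    · rw [cfB Z hA]
      have h1 := bad_bdr hd h ((mem_bad Z).1 hZ).1 (hodd Z hZ) ((mem_bad Z).1 hZ).2
      have h2 : (F ∩ bdr f Z).card ≤ (bdr f Z).card := Finset.card_le_card Finset.inter_subset_right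
      omega
  · -- the count
    have hsum1 : ∑ X ∈ bad.image (ins f), ((ext X).card : ℝ) = ∑ Z ∈ bad, (cf Z : ℝ) := by
      rw [Finset.sum_image (fun Z hZ Z' hZ' he => hinj2 Z hZ Z' hZ' he)]
      refine Finset.sum_congr rfl fun Z hZ => ?_
      rw [hext2 Z hZ]
    have hsum2 : ∑ Z ∈ bad, cf Z = bad.card + ∑ Z ∈ badB, (F ∩ bdr f Z).card := by
      have e1 : ∀ Z ∈ bad, cf Z = 1 +
          (if ¬ ((bdr f Z).card ≤ 1 ∧ Z.card + 1 ≤ 2 * (ins f Z).card) then (F ∩ bdr f Z).card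
            else 0) := by
        intro Z hZ
        by_cases hA : (bdr f Z).card ≤ 1 ∧ Z.card + 1 ≤ 2 * (ins f Z).card
        · rw [cfA Z hA, if_neg (not_not.2 hA)]
        · rw [cfB Z hA, if_pos hA, add_comm]
      rw [Finset.sum_congr rfl e1, Finset.sum_add_distrib, Finset.sum_const, smul_eq_mul, mul_one,
        hbadBdef, Finset.sum_filter]
    have hFD : (F ∩ badB.biUnion (bdr f)).card ≤ ∑ Z ∈ badB, (F ∩ bdr f Z).card := by
      rw [Finset.inter_biUnion]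
      exact Finset.card_biUnion_le
    have hFD2 : (F \ badB.biUnion (bdr f)).card + (F ∩ badB.biUnion (bdr f)).card = F.card :=
      Finset.card_sdiff_add_card_inter _ _
    have hmain : F.card + bad.card ≤ (F \ badB.biUnion (bdr f)).card + ∑ Z ∈ bad, cf Z := by
      rw [hsum2]
      omega
    have hmain' : (F.card : ℝ) + (bad.card : ℝ) ≤
        ((F \ badB.biUnion (bdr f)).card : ℝ) + ∑ Z ∈ bad, (cf Z : ℝ) := by
      exact_mod_cast hmain
    have hE : -(1 / 2) * (bad.card : ℝ) ≤ ∑ Z ∈ allC (ngr f) U, Ez f U (wt d) Z := by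
      rw [← Finset.sum_filter_add_sum_filter_not (allC (ngr f) U)
        (fun Z => Ez f U (wt d) Z < 0), ← hbaddef]
      have e1 : ∑ Z ∈ bad, (-(1 / 2) : ℝ) ≤ ∑ Z ∈ bad, Ez f U (wt d) Z :=
        Finset.sum_le_sum fun Z hZ => ez_odd hd h ((mem_bad Z).1 hZ).1 (hodd Z hZ)
      rw [Finset.sum_const, nsmul_eq_mul] at e1
      have e2 : 0 ≤ ∑ Z ∈ (allC (ngr f) U).filter (fun Z => ¬ Ez f U (wt d) Z < 0),
          Ez f U (wt d) Z :=
        Finset.sum_nonneg fun Z hZ => not_lt.1 (Finset.mem_filter.1 hZ).2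
      linarith
    have hb0 : (0 : ℝ) ≤ (bad.card : ℝ) := Nat.cast_nonneg _
    rw [hsum1]
    linarith

end

end Pool.Agent.H64.KD
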