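import Pool.Agent.H64.K4.Co

/-!
MP_490a5a_co, graphs without induced `K_{1,4}` and without induced diamond (`K_4` minus an edge), every `d ≥ 4` (project MP_490a5a_KD).
Paper proof: /team-store/H64_KD.md.  Continues H64/K4 (tutte_berge, classes, own_model, own_frag).

`f v` is the set of the three nodes of the vertex `v` (maximal cliques, padded); two vertices are adjacent iff they share a node.
`mult f p` (H64/K4/Defs) = the number of vertices at the node `p` (any size now).
`ngr f` = node graph, `allC (ngr f) U` = classes of the complement of `U`, `oddC` = the odd ones; `tch f Z` = vertices with a node in `Z`,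
`ins f Z` = vertices with `f v ⊆ Z`, `bdr f Z` = the other vertices of `tch f Z` (they have nodes in `Z` and in `U`).
-/

set_option autoImplicit false
set_option linter.all false

namespace Pool.Agent.H64.KD

open Classical Pool.Agent.H67.CF Pool.Agent.H64.K4

noncomputable section

variable {V N : Type}

/-- no induced diamond: two different common neighbours of two adjacent vertices are adjacent -/
def DiaI {V : Type*} (G : SimpleGraph V) : Prop :=
  ∀ u v a b, G.Adj u v → G.Adj u a → G.Adj v a → G.Adj u b → G.Adj v b → a ≠ b → G.Adj a b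

/-- `f` is a point structure for `G` with degree bound `d` -/
structure PSd [Fintype V] (G : SimpleGraph V) (f : V → Finset N) (d : ℕ) : Prop where
  card3 : ∀ v, (f v).card = 3
  adj : ∀ u v, G.Adj u v ↔ u ≠ v ∧ ∃ p, p ∈ f u ∧ p ∈ f v
  lin : ∀ u v, u ≠ v → ∀ p q, p ∈ f u → p ∈ f v → q ∈ f u → q ∈ f v → p = q
  deg : ∀ v, ∑ p ∈ f v, mult f p ≤ d + 3

/-- regions: pairwise disjoint sets `X ∈ B`, each attached to the rest by at most one vertex, which lies in no
region; `ext X` is a subset of `X` -/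
structure Rge (G : SimpleGraph V) (B : Finset (Finset V)) (ext : Finset V → Finset V) : Prop where
  disj : ∀ X ∈ B, ∀ Y ∈ B, X ≠ Y → Disjoint X Y
  sub : ∀ X ∈ B, ext X ⊆ X
  cut : ∀ X ∈ B, ∃ C : Finset V, C.card ≤ 1 ∧ (∀ Y ∈ B, Disjoint C Y) ∧
    ∀ u ∈ X, ∀ w, G.Adj u w → w ∈ X ∨ w ∈ C

/-- `G` without the edges at `D` -/
def del (G : SimpleGraph V) (D : Finset V) : SimpleGraph V where
  Adj u v := G.Adj u v ∧ u ∉ D ∧ v ∉ D
  symm := ⟨fun _ _ h => ⟨h.1.symm, h.2.2, h.2.1⟩⟩
  loopless := ⟨fun _ h => h.1.ne rfl⟩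

/-- `1/m(p)` -/
def im [Fintype V] (f : V → Finset N) (p : N) : ℝ := 1 / (mult f p : ℝ)

/-- `u(v)` = the sum of `1/m(p)` over the nodes of `v` in `U` -/
def uu [Fintype V] (f : V → Finset N) (U : Finset N) (v : V) : ℝ :=
  ∑ p ∈ (f v).filter (fun p => p ∈ U), im f p

/-- the surplus `s(v) = (1/2) (sum of 1/m(p) over all nodes of v) + u(v)/2 - κ` -/
def sv [Fintype V] (f : V → Finset N) (U : Finset N) (κ : ℝ) (v : V) : ℝ :=
  (∑ p ∈ f v, im f p) / 2 + uu f U v / 2 - κ

/-- `E(Z) = ⌊|Z|/2⌋ + sum over the vertices v touching Z of (u(v) - κ)` -/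
def Ez [Fintype V] (f : V → Finset N) (U : Finset N) (κ : ℝ) (Z : Finset N) : ℝ :=
  (Z.card : ℝ) / 2 - (if Odd Z.card then 1 / 2 else 0) + ∑ v ∈ tch f Z, (uu f U v - κ)

end

end Pool.Agent.H64.KD
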