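import Pool.Agent.H64.KD.Defs

/-!
The class `LinThree`: line graphs of linear hypergraphs of rank at most 3.
-/

set_option autoImplicit false
set_option linter.all false

namespace Pool.Agent.H64.KD

open Classical Pool.Agent.H67.CF Pool.Agent.H64.K4

/-- `G` is the line graph of a linear hypergraph of rank at most 3: every vertex `v` is a hyperedge `f v` with at most three nodes, two different
vertices are adjacent iff they have a common node, and they never have two common nodes -/
def LinThree {V : Type*} (G : SimpleGraph V) : Prop :=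
  ∃ f : V → Finset ℕ, (∀ v, (f v).card ≤ 3) ∧
    (∀ u v, G.Adj u v ↔ u ≠ v ∧ ∃ p, p ∈ f u ∧ p ∈ f v) ∧
    ∀ u v, u ≠ v → ∀ p q, p ∈ f u → p ∈ f v → q ∈ f u → q ∈ f v → p = q

end Pool.Agent.H64.KD
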