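import Pool.Agent.H64.KD.Defs
import Pool.Agent.H64.K4.Fr

/-!
Module Fr2 (row KDFR).  Adding vertices in small regions keeps the pieces bounded.  Same proof as `frag_regions` in H64/K4/Fr.lean (copy it; prefix the copied helpers with Fr2_).

Let `Z ⊆ F1 ∪ B.biUnion ext` be connected, `X∪ := ⋃ B`, `Z0 := Z \ X∪ ⊆ F1` (`ext X ⊆ X`).
(a) `Z0 = ∅`: then `Z ⊆ X∪`; an edge from `X ∈ B` goes to `X` or to its `C`, and `C` is disjoint from all `Y ∈ B`; so the walks in `Z` stay in one `X`: `|Z| ≤ K`.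
(b) `Z0 ≠ ∅`: `Z0` is connected (a walk which enters `X ∈ B` comes from the only vertex `c` of `C X` and leaves `X` only to `c`), so `|Z0| ≤ C`; every `X ∈ B` which meets `Z` has `c ∈ Z0`
    adjacent to a point of `X`; at most `d |Z0| ≤ d C` regions meet `Z`, each of size `≤ K`: `|Z| ≤ C + d C K`.
-/

set_option autoImplicit false
set_option linter.all false

namespace Pool.Agent.H64.KD

open Classical Pool.Agent.H67.CF Pool.Agent.H64.K4

noncomputable section

theorem Fr2_step {V : Type} [Fintype V] {G : SimpleGraph V} {B : Finset (Finset V)}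
    (D : Finset V → Finset V)
    (hD1 : ∀ X ∈ B, (D X).card ≤ 1) (hD2 : ∀ X ∈ B, ∀ Y ∈ B, Disjoint (D X) Y)
    (hD3 : ∀ X ∈ B, ∀ u ∈ X, ∀ w, G.Adj u w → w ∈ X ∨ w ∈ D X)
    {Z Z0 : Finset V} (hZ0 : ∀ z, z ∈ Z0 ↔ z ∈ Z ∧ ∀ X ∈ B, z ∉ X) {a : V} (ha : a ∈ Z0)
    {v : V} (h : Rch G (Z : Set V) a v) :
    (v ∈ Z0 ∧ Rch G (Z0 : Set V) a v) ∨
      (∃ X ∈ B, v ∈ X ∧ ∃ c ∈ Z0, Rch G (Z0 : Set V) a c ∧ c ∈ D X ∧ ∃ w ∈ X, G.Adj c w) := by
  refine rch_induct (P := fun v => (v ∈ Z0 ∧ Rch G (Z0 : Set V) a v) ∨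
      (∃ X ∈ B, v ∈ X ∧ ∃ c ∈ Z0, Rch G (Z0 : Set V) a c ∧ c ∈ D X ∧ ∃ w ∈ X, G.Adj c w)) h
    (Or.inl ⟨ha, rch_refl⟩) ?_
  intro u y hu _ hadj hyZ
  have hyZ' : y ∈ Z := by simpa using hyZ
  rcases hu with ⟨hu1, hu2⟩ | ⟨X, hX, huX, c, hc1, hc2, hc3, w, hw1, hw2⟩
  · by_cases hy : y ∈ Z0
    · exact Or.inl ⟨hy, rch_tail hu2 hadj (by simpa using hy)⟩
    · have h1 : ∃ Y ∈ B, y ∈ Y := by
        by_contra hcon
        push Not at hcon
        exact hy ((hZ0 y).2 ⟨hyZ', hcon⟩)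
      obtain ⟨Y, hY, hyY⟩ := h1
      have huY : u ∉ Y := ((hZ0 u).1 hu1).2 Y hY
      have huD : u ∈ D Y := by
        rcases hD3 Y hY y hyY u hadj.symm with h2 | h2
        · exact absurd h2 huY
        · exact h2
      exact Or.inr ⟨Y, hY, hyY, u, hu1, hu2, huD, y, hyY, hadj⟩
  · rcases hD3 X hX u huX y hadj with h2 | h2
    · exact Or.inr ⟨X, hX, h2, c, hc1, hc2, hc3, w, hw1, hw2⟩
    · have hyc : y = c := Finset.card_le_one.1 (hD1 X hX) y h2 c hc3
      subst hyc
      exact Or.inl ⟨hc1, hc2⟩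

theorem Fr2_reg {V : Type} [Fintype V] {G : SimpleGraph V} {B : Finset (Finset V)}
    {ext : Finset V → Finset V} (hR : Rge G B ext) {K : ℕ} (hK : ∀ X ∈ B, X.card ≤ K) (w : V) :
    ((B.filter (fun X => w ∈ X)).biUnion id).card ≤ K := by
  by_cases h : ∃ X ∈ B, w ∈ X
  · obtain ⟨X, hX, hw⟩ := h
    have hsub : (B.filter (fun X => w ∈ X)).biUnion id ⊆ X := by
      intro z hz
      rw [Finset.mem_biUnion] at hz
      obtain ⟨Y, hY, hzY⟩ := hz
      rw [Finset.mem_filter] at hY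
      have hYX : Y = X := by
        by_contra hne
        exact (Finset.disjoint_left.1 (hR.disj Y hY.1 X hX hne)) hY.2 hw
      rw [← hYX]
      exact hzY
    exact (Finset.card_le_card hsub).trans (hK X hX)
  · have hem : (B.filter (fun X => w ∈ X)) = ∅ := by
      rw [Finset.filter_eq_empty_iff]
      intro X hX hw
      exact h ⟨X, hX, hw⟩
    rw [hem]
    simp

theorem frag_regions2 {V : Type} [Fintype V] {G : SimpleGraph V} {d : ℕ}
    (hdeg : ∀ v, (nb G v).card ≤ d) {F1 : Finset V} {B : Finset (Finset V)}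
    {ext : Finset V → Finset V} (hR : Rge G B ext) {C K : ℕ} (hK : ∀ X ∈ B, X.card ≤ K)
    (hF : ∀ Z : Finset V, Z ⊆ F1 → PConn G (Z : Set V) → Z.card ≤ C) :
    ∀ Z : Finset V, Z ⊆ F1 ∪ B.biUnion ext → PConn G (Z : Set V) → Z.card ≤ C + d * C * K + K := by
  intro Z hZ hconn
  have hcut := hR.cut
  choose! D hD1 hD2 hD3 using hcut
  set Z0 : Finset V := Z.filter (fun z => ∀ X ∈ B, z ∉ X) with hZ0def
  have hZ0 : ∀ z, z ∈ Z0 ↔ z ∈ Z ∧ ∀ X ∈ B, z ∉ X := by
    intro z
    rw [hZ0def, Finset.mem_filter]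
  have hZ0F : Z0 ⊆ F1 := by
    intro z hz
    have h1 := (hZ0 z).1 hz
    rcases Finset.mem_union.1 (hZ h1.1) with h2 | h2
    · exact h2
    · obtain ⟨X, hX, hxX⟩ := Finset.mem_biUnion.1 h2
      exact absurd (hR.sub X hX hxX) (h1.2 X hX)
  by_cases hne : Z0.Nonempty
  · obtain ⟨a, ha⟩ := hne
    have haZ : a ∈ Z := ((hZ0 a).1 ha).1
    have hconn0 : PConn G (Z0 : Set V) := by
      intro a' ha' b' hb'
      have ha1 : a' ∈ Z0 := by simpa using ha'
      have hb1 : b' ∈ Z0 := by simpa using hb'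
      have ha2 : a' ∈ (Z : Set V) := by simpa using ((hZ0 a').1 ha1).1
      have hb2 : b' ∈ (Z : Set V) := by simpa using ((hZ0 b').1 hb1).1
      rcases Fr2_step D hD1 hD2 hD3 hZ0 ha1 (hconn a' ha2 b' hb2) with h | ⟨X, hX, hbX, _⟩
      · exact h.2
      · exact absurd hbX (((hZ0 b').1 hb1).2 X hX)
    have hcard0 : Z0.card ≤ C := hF Z0 hZ0F hconn0
    have hsub : Z ⊆ Z0 ∪ Z0.biUnion (fun c => (nb G c).biUnion
        (fun w => (B.filter (fun X => w ∈ X)).biUnion id)) := by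
      intro z hz
      have haZ' : a ∈ (Z : Set V) := by simpa using haZ
      have hz' : z ∈ (Z : Set V) := by simpa using hz
      rcases Fr2_step D hD1 hD2 hD3 hZ0 ha (hconn a haZ' z hz') with
        h | ⟨X, hX, hzX, c, hc1, hc2, hc3, w, hw1, hw2⟩
      · exact Finset.mem_union_left _ h.1
      · refine Finset.mem_union_right _ ?_
        rw [Finset.mem_biUnion]
        refine ⟨c, hc1, ?_⟩
        rw [Finset.mem_biUnion]
        refine ⟨w, mem_nb.2 hw2, ?_⟩
        rw [Finset.mem_biUnion]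
        exact ⟨X, Finset.mem_filter.2 ⟨hX, hw1⟩, hzX⟩
    have hb1 : ∀ c ∈ Z0, ((nb G c).biUnion
        (fun w => (B.filter (fun X => w ∈ X)).biUnion id)).card ≤ d * K := by
      intro c _
      refine (Finset.card_biUnion_le_card_mul _ _ K (fun w _ => Fr2_reg hR hK w)).trans ?_
      exact Nat.mul_le_mul_right K (hdeg c)
    have hb2 : (Z0.biUnion (fun c => (nb G c).biUnion
        (fun w => (B.filter (fun X => w ∈ X)).biUnion id))).card ≤ C * (d * K) := by
      refine (Finset.card_biUnion_le_card_mul _ _ (d * K) hb1).trans ?_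
      exact Nat.mul_le_mul_right _ hcard0
    have hfin : Z.card ≤ C + C * (d * K) := by
      refine (Finset.card_le_card hsub).trans ?_
      refine (Finset.card_union_le _ _).trans ?_
      exact Nat.add_le_add hcard0 hb2
    have heq : C * (d * K) = d * C * K := by ring
    rw [heq] at hfin
    exact hfin.trans (Nat.le_add_right _ _)
  · rcases Z.eq_empty_or_nonempty with hZe | ⟨a, ha⟩
    · rw [hZe]
      simp
    · have hall : ∀ z ∈ Z, ∃ X ∈ B, z ∈ X := by
        intro z hz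
        by_contra hcon
        push Not at hcon
        exact hne ⟨z, (hZ0 z).2 ⟨hz, hcon⟩⟩
      obtain ⟨X, hX, haX⟩ := hall a ha
      have hsub : Z ⊆ X := by
        intro z hz
        have ha' : a ∈ (Z : Set V) := by simpa using ha
        have hz' : z ∈ (Z : Set V) := by simpa using hz
        refine rch_induct (P := fun v => v ∈ X) (hconn a ha' z hz') haX ?_
        intro u y hu _ hadj hyZ
        have hyZ' : y ∈ Z := by simpa using hyZ
        rcases hD3 X hX u hu y hadj with h2 | h2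
        · exact h2
        · obtain ⟨Y, hY, hyY⟩ := hall y hyZ'
          exact absurd hyY (Finset.disjoint_left.1 (hD2 X hX Y hY) h2)
      have h1 : Z.card ≤ K := (Finset.card_le_card hsub).trans (hK X hX)
      omega

end

end Pool.Agent.H64.KD
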