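import Pool.Agent.H64.K4.Lp

/-!
Module Pg (row KDPG).  `pgr_class` of H64/K4/Lp for fibres of `t` of size at most 3, with the degree bound 5.  Copy the proof of `pgr_class` (H64/K4/Lp.lean): the fibres of `t` are used there only as `≤ 3`
(`rw [ht p] at h2` becomes `h2.trans (ht p)`), and use its helper lemmas `Lp_adj, Lp_mem, Lp_single, Lp_two, Lp_third`.
Degree: `nb (pgr s t) a ⊆ ⋃_(e, s e = a) ((univ.filter (fun e' => t e' = t e)).image s).erase a`, each set has at most (fibre of `t` over `t e`) `- 1` elements (`a = s e` is in the image), three edges `e`: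
`≤ 8 - 3 = 5`.
-/

set_option autoImplicit false
set_option linter.all false

namespace Pool.Agent.H64.KD

open Classical Pool.Agent.H67.CF Pool.Agent.H64.K4

noncomputable section

theorem pgr_class5 {E A B : Type} [Fintype E] [Fintype A] {s : E → A} {t : E → B} {g : ℕ}
    (hs : ∀ a, (Finset.univ.filter (fun e => s e = a)).card = 3)
    (ht : ∀ b, (Finset.univ.filter (fun e => t e = b)).card ≤ 3)
    (hd : ∀ a, ∑ e ∈ Finset.univ.filter (fun e => s e = a),
      (Finset.univ.filter (fun e' => t e' = t e)).card ≤ 8)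
    (hR : Rg s t g) (hg : 13 ≤ g) :
    K14 (pgr s t) ∧ Dia (pgr s t) ∧ ∀ a, (nb (pgr s t) a).card ≤ 5 := by
  refine ⟨?_, ?_, ?_⟩
  · intro v a b c e ha hb hc he hab hac hae hbc hbe hce
    obtain ⟨-, pa, va, pa'⟩ := Lp_adj.1 ha
    obtain ⟨-, pb, vb, pb'⟩ := Lp_adj.1 hb
    obtain ⟨-, pc, vc, pc'⟩ := Lp_adj.1 hc
    obtain ⟨-, pe, ve, pe'⟩ := Lp_adj.1 he
    by_contra hcon
    push Not at hcon
    obtain ⟨n1, n2, n3, n4, n5, n6⟩ := hcon
    have m1 : pa ≠ pb := fun h => n1 (Lp_adj.2 ⟨hab, pa, pa', h ▸ pb'⟩)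
    have m2 : pa ≠ pc := fun h => n2 (Lp_adj.2 ⟨hac, pa, pa', h ▸ pc'⟩)
    have m3 : pa ≠ pe := fun h => n3 (Lp_adj.2 ⟨hae, pa, pa', h ▸ pe'⟩)
    have m4 : pb ≠ pc := fun h => n4 (Lp_adj.2 ⟨hbc, pb, pb', h ▸ pc'⟩)
    have m5 : pb ≠ pe := fun h => n5 (Lp_adj.2 ⟨hbe, pb, pb', h ▸ pe'⟩)
    have m6 : pc ≠ pe := fun h => n6 (Lp_adj.2 ⟨hce, pc, pc', h ▸ pe'⟩)
    have h1 : ({pa, pb, pc, pe} : Finset B) ⊆ pts s t {v} := by
      intro x hx
      simp only [Finset.mem_insert, Finset.mem_singleton] at hx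
      rcases hx with rfl | rfl | rfl | rfl
      · exact va
      · exact vb
      · exact vc
      · exact ve
    have h2 := Finset.card_le_card h1
    have h3 : ({pa, pb, pc, pe} : Finset B).card = 4 := by
      rw [Finset.card_insert_of_notMem, Finset.card_insert_of_notMem, Finset.card_pair m6]
      · simp [m4, m5]
      · simp [m1, m2, m3]
    have h4 := Lp_single (t := t) hs v
    omega
  · intro u v a b huv hua hva hub hvb
    obtain ⟨huv', p, hp1, hp2⟩ := Lp_adj.1 huv
    have hpa := Lp_third hs hR hg huv' hua hva hp1 hp2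
    have hpb := Lp_third hs hR hg huv' hub hvb hp1 hp2
    by_contra hab
    obtain ⟨eu, hu, hu'⟩ := Lp_mem.1 hp1
    obtain ⟨ev, hv, hv'⟩ := Lp_mem.1 hp2
    obtain ⟨ea, ha, ha'⟩ := Lp_mem.1 hpa
    obtain ⟨eb, hb, hb'⟩ := Lp_mem.1 hpb
    rw [Finset.mem_singleton] at hu hv ha hb
    have h1 : ({u, v, a, b} : Finset A) ⊆ (Finset.univ.filter (fun e => t e = p)).image s := by
      intro x hx
      simp only [Finset.mem_insert, Finset.mem_singleton] at hx
      rw [Finset.mem_image]
      rcases hx with rfl | rfl | rfl | rfl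
      · exact ⟨eu, by simp [hu'], hu⟩
      · exact ⟨ev, by simp [hv'], hv⟩
      · exact ⟨ea, by simp [ha'], ha⟩
      · exact ⟨eb, by simp [hb'], hb⟩
    have h2 := (Finset.card_le_card h1).trans Finset.card_image_le
    replace h2 := h2.trans (ht p)
    have h3 : ({u, v, a, b} : Finset A).card = 4 := by
      rw [Finset.card_insert_of_notMem, Finset.card_insert_of_notMem, Finset.card_pair hab]
      · simp [hva.ne, hvb.ne]
      · simp [huv', hua.ne, hub.ne]
    omega
  · intro v
    have hsub : nb (pgr s t) v ⊆ (Finset.univ.filter (fun e => s e = v)).biUnion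
        (fun e => ((Finset.univ.filter (fun e' => t e' = t e)).image s).erase v) := by
      intro w hw
      rw [mem_nb] at hw
      obtain ⟨hne, p, h1, h2⟩ := Lp_adj.1 hw
      obtain ⟨e1, he1, he1'⟩ := Lp_mem.1 h1
      obtain ⟨e, he, he'⟩ := Lp_mem.1 h2
      rw [Finset.mem_singleton] at he1 he
      rw [Finset.mem_biUnion]
      refine ⟨e1, by simp [he1], Finset.mem_erase.2 ⟨hne.symm, ?_⟩⟩
      exact Finset.mem_image.2 ⟨e, by simp [he', he1'], he⟩
    refine (Finset.card_le_card hsub).trans ?_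
    refine Finset.card_biUnion_le.trans ?_
    have h1 : ∀ e ∈ Finset.univ.filter (fun e => s e = v),
        (((Finset.univ.filter (fun e' => t e' = t e)).image s).erase v).card + 1 ≤
          (Finset.univ.filter (fun e' => t e' = t e)).card := by
      intro e he
      have he2 : s e = v := (Finset.mem_filter.1 he).2
      have hv : v ∈ (Finset.univ.filter (fun e' => t e' = t e)).image s :=
        Finset.mem_image.2 ⟨e, by simp, he2⟩
      rw [Finset.card_erase_of_mem hv]
      have h2 := Finset.card_image_le (s := Finset.univ.filter (fun e' => t e' = t e)) (f := s)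
      have h3 := Finset.card_pos.2 ⟨v, hv⟩
      omega
    have h4 := Finset.sum_le_sum h1
    rw [Finset.sum_add_distrib] at h4
    have h5 : ∑ e ∈ Finset.univ.filter (fun e => s e = v), 1 = 3 := by
      rw [Finset.sum_const, smul_eq_mul, mul_one]
      exact hs v
    have h6 := hd v
    omega

end

end Pool.Agent.H64.KD
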