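import Pool.Agent.H64.KD.Sp
import Pool.Agent.H64.KD.Pg
import Pool.Agent.H64.K4.Ls

/-!
Module L5 (row KDL5).  The lower bounds for `d = 5`: copy the proofs of `cf_low6`, `mu_low6` (H64/K4/Ls.lean) with `split_cover` in place of `Ls_tr` and `pgr_class5` in place of `pgr_class`
(use only their STATEMENTS), `|B| = 7n/6` in place of `|B| = n`, and `5/12` in place of `1/2`.  `low_model6` (H64/K4/Lm) is used as it is (it needs degrees `≤ 6`).
`2 |Sᶜ| ≤ |B| = 7n/6` gives `|S| ≥ 5n/12`.   In `mu_low5`: `ε := (5/12 - μ)/2`, `μ = 5/12 - 2ε`, `|Sᶜ| ≥ n - (μ + ε) n = (7/12 + ε) n`, `2|Sᶜ| ≥ |B| + 2ε n`.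
-/

set_option autoImplicit false
set_option linter.all false

namespace Pool.Agent.H64.KD

open Classical Pool.Agent.H67.CF Pool.Agent.H64.K4

noncomputable section

theorem cf_low5 {c : ℝ} (hc : c ∈ cfSet (fun _ G => K14 G ∧ Dia G) 5) : 5 / 12 ≤ c := by
  by_contra hlt
  rw [not_le] at hlt
  set ε : ℝ := (5 / 12 - c) / 2 with hε
  have hεp : 0 < ε := by rw [hε]; linarith
  obtain ⟨C, hC⟩ := hc ε hεp
  obtain ⟨E, B, iE, iB, n, s, t, hn, hgn, hB, hs, ht, hd, hR⟩ := split_cover (3 * C + 13)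
  obtain ⟨hK, hD, hdeg⟩ := pgr_class5 hs ht (fun a => by convert hd a) hR (by omega)
  obtain ⟨S, hS, hT⟩ := hC n (pgr s t) ⟨hK, hD⟩ fun v => by
    rw [← nb_card]
    exact hdeg v
  have h1 := pts_small hs hR Sᶜ (by
    intro Z hZ hconn
    rcases Z.eq_empty_or_nonempty with rfl | hZne
    · simp
    · have h2 := hT (Z : Set (Fin n)) (by
        rw [Finset.disjoint_coe]
        exact Finset.disjoint_left.2 fun x hx hxS => (Finset.mem_compl.1 (hZ hx)) hxS)
        (connected_iff.2 ⟨hZne, hconn⟩)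
      rw [Set.ncard_coe_finset] at h2
      omega)
  have h3 := Finset.card_le_univ (pts s t (Sᶜ : Finset (Fin n)))
  have h4 := h1.trans h3
  rw [Finset.card_compl, Fintype.card_fin] at h4
  have h5 : 5 * n ≤ 12 * S.card := by omega
  have h6 : 5 * (n : ℝ) ≤ 12 * S.card := by exact_mod_cast h5
  have hn' : (0 : ℝ) < n := by exact_mod_cast hn
  have h7 : (n : ℝ) * ε ≤ 0 := by
    have : c = 5 / 12 - 2 * ε := by rw [hε]; ring
    rw [this] at hS
    nlinarith
  have h8 := mul_pos hn' hεp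
  linarith

theorem mu_low5 {r : ℕ} {μ : ℝ} (hμ : μ ∈ muSet (fun _ G => K14 G ∧ Dia G) r 5) : 5 / 12 ≤ μ := by
  by_contra hlt
  rw [not_le] at hlt
  set ε : ℝ := (5 / 12 - μ) / 2 with hε
  have hεp : 0 < ε := by rw [hε]; linarith
  obtain ⟨N, hN⟩ := hμ ε hεp
  obtain ⟨m0, hm0⟩ := exists_nat_ge ((2 : ℝ) ^ r / (2 * ε))
  have hηp : 0 < 2 * ε := by linarith
  have hmη : (2 : ℝ) ^ r ≤ 2 * ε * ((m0 + 1 : ℕ) : ℝ) := by
    rw [div_le_iff₀ hηp] at hm0
    push_cast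
    nlinarith
  obtain ⟨E, B, iE, iB, n, s, t, hn, hgn, hB, hs, ht, hd, hR⟩ :=
    split_cover (3 * N + 6 * ((5 + 1) * (m0 + 1) ^ 2) + 13)
  obtain ⟨hK, hD, hdeg⟩ := pgr_class5 hs ht (fun a => by convert hd a) hR (by omega)
  obtain ⟨S, hS, hno⟩ := hN n (by omega) (pgr s t) ⟨hK, hD⟩ fun v => by
    rw [← nb_card]
    exact hdeg v
  haveI : Nonempty (Fin n) := ⟨⟨0, hn⟩⟩
  have hB' : 6 * (Fintype.card B : ℝ) = 7 * (n : ℝ) := by exact_mod_cast hB
  have hY : (Fintype.card B : ℝ) + 2 * ε * Fintype.card (Fin n) ≤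
      2 * ((Sᶜ : Finset (Fin n)).card : ℝ) := by
    rw [Finset.card_compl, Fintype.card_fin]
    have h1 : S.card ≤ n := by
      have := Finset.card_le_univ S
      rwa [Fintype.card_fin] at this
    rw [Nat.cast_sub h1]
    have : μ = 5 / 12 - 2 * ε := by rw [hε]; ring
    rw [this] at hS
    nlinarith
  obtain ⟨f, hf1, hf2, hf3⟩ := low_model6 (m := m0 + 1) (r := r) hs hdeg hR (by omega)
    (by omega) hηp hmη Sᶜ hY
  refine hno ⟨f, fun i => ?_, fun i => ?_, hf2, hf3⟩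
  · rw [Set.disjoint_left]
    intro x hx hxS
    have := (hf1 i).1 hx
    rw [Finset.mem_coe, Finset.mem_compl] at this
    exact this (Finset.mem_coe.1 hxS)
  · exact connected_iff.2 (hf1 i).2

end

end Pool.Agent.H64.KD
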