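import Pool.Agent.H64.KD.Defs
import Pool.Agent.H64.K4.Pt

/-!
Module Pt2 (row KDPT).  The point structure of a graph without induced `K_{1,4}` and without induced diamond.  Same proof as `exists_ps` in H64/K4/Pt.lean (copy it, and
prefix the copied helper lemmas with Pt2_); only the blocks are now maximal cliques of any size.

For adjacent `v, u` let `blk v u := insert v (insert u (nb G u ∩ nb G v))`.  By `DiaI` this is a clique (two common neighbours of `u, v` are adjacent), and it is the set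
of all vertices equal or adjacent to both `u` and `v`.
`P v := (nb G v).image (blk v)`.  Facts:
(1) if `a ≠ b` are both in `blk v u` then `a ~ b` and `blk a b = blk v u`.  (Clique: clear.  Every `w ∈ blk v u` is equal or adjacent to `a` and `b`, so `blk v u ⊆ blk a b`.
    Conversely, for `{a, b} ≠ {u, v}`: let `w ~ a, b`; say `a ∉ {u,v}` or `b ∉ {u, v}`; for `x ∈ {u, v} \ {a, b}`: `w` and `x` are both common neighbours of the adjacent `a, b`, so `w = x` or
    `w ~ x` by `DiaI`; so `w` is equal or adjacent to `u` and to `v`.)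
    Hence `blk v u ∈ P w` for all `w ∈ blk v u`, and `X ∈ P w` implies `w ∈ X`.
(2) the sets `X \ {v}`, `X ∈ P v`, partition `nb G v`; so `Σ_(X ∈ P v) (|X| - 1) = |nb G v| ≤ d`.
(3) `|P v| ≤ 3`: from four different blocks choose `u_i`; if `u_i ~ u_j` then `u_j ∈ blk v u_i`, so the blocks are equal; so the `u_i` are pairwise non-adjacent: contradiction to `K14`.
(4) if `u ≠ v` share `X ∈ P u ∩ P v` then `u ~ v` and `X = blk u v` (so two different vertices share at most one block); if `u ~ v` they share `blk u v`.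
Nodes: `N := Finset V ⊕ (V × Fin 3)`; `f v := (P v).image inl ∪ ((Finset.univ.filter (fun i : Fin 3 => (P v).card + i.val < 3)).image (fun i => inr (v, i)))`.
`|f v| = |P v| + (3 - |P v|) = 3`.  `mult f (inl X) ≤ |X|`, `mult f (inr (v, i)) ≤ 1`.
`Σ_(p ∈ f v) mult f p ≤ Σ_(X ∈ P v) |X| + (3 - |P v|) = |nb G v| + |P v| + 3 - |P v| ≤ d + 3`.
-/

set_option autoImplicit false
set_option linter.all false

namespace Pool.Agent.H64.KD

open Classical Pool.Agent.H67.CF Pool.Agent.H64.K4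

noncomputable section

lemma Pt2_blk_adj {V : Type} [Fintype V] {G : SimpleGraph V} (hdia : DiaI G) {v u a b : V}
    (hvu : G.Adj v u) (ha : a ∈ Pt_blk G v u) (hb : b ∈ Pt_blk G v u) (hab : a ≠ b) :
    G.Adj a b := by
  rw [Pt_mem_blk] at ha hb
  rcases ha with rfl | rfl | ⟨h1, h2⟩ <;> rcases hb with rfl | rfl | ⟨h3, h4⟩
  · exact absurd rfl hab
  · exact hvu
  · exact h4
  · exact hvu.symm
  · exact absurd rfl hab
  · exact h3
  · exact h2.symm
  · exact h1.symm
  · exact hdia v u a b hvu h2 h1 h4 h3 hab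

lemma Pt2_eq_or_adj {V : Type} [Fintype V] {G : SimpleGraph V} (hdia : DiaI G) {v u a b w x : V}
    (hvu : G.Adj v u) (ha : a ∈ Pt_blk G v u) (hb : b ∈ Pt_blk G v u) (hab : a ≠ b)
    (h1 : G.Adj a w) (h2 : G.Adj b w) (hx : x ∈ Pt_blk G v u) : w = x ∨ G.Adj x w := by
  have hab' := Pt2_blk_adj hdia hvu ha hb hab
  by_cases hwx : w = x
  · exact Or.inl hwx
  right
  by_cases hxa : x = a
  · rw [hxa]; exact h1
  by_cases hxb : x = b
  · rw [hxb]; exact h2
  have h3 := Pt2_blk_adj hdia hvu ha hx (fun h => hxa h.symm)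
  have h4 := Pt2_blk_adj hdia hvu hb hx (fun h => hxb h.symm)
  exact hdia a b x w hab' h3 h4 h1 h2 (fun h => hwx h.symm)

lemma Pt2_common {V : Type} [Fintype V] {G : SimpleGraph V} (hdia : DiaI G) {v u a b w : V}
    (hvu : G.Adj v u) (ha : a ∈ Pt_blk G v u) (hb : b ∈ Pt_blk G v u) (hab : a ≠ b)
    (h1 : G.Adj a w) (h2 : G.Adj b w) : w ∈ Pt_blk G v u := by
  rw [Pt_mem_blk]
  rcases Pt2_eq_or_adj hdia hvu ha hb hab h1 h2 Pt_left_mem with h3 | h3
  · exact Or.inl h3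
  rcases Pt2_eq_or_adj hdia hvu ha hb hab h1 h2 Pt_right_mem with h4 | h4
  · exact Or.inr (Or.inl h4)
  exact Or.inr (Or.inr ⟨h4, h3⟩)

lemma Pt2_blk_eq {V : Type} [Fintype V] {G : SimpleGraph V} (hdia : DiaI G) {v u a b : V}
    (hvu : G.Adj v u) (ha : a ∈ Pt_blk G v u) (hb : b ∈ Pt_blk G v u) (hab : a ≠ b) :
    Pt_blk G a b = Pt_blk G v u := by
  ext w
  constructor
  · intro hw
    rw [Pt_mem_blk] at hw
    rcases hw with rfl | rfl | ⟨h1, h2⟩
    · exact ha
    · exact hb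
    · exact Pt2_common hdia hvu ha hb hab h2 h1
  · intro hw
    rw [Pt_mem_blk]
    by_cases h1 : w = a
    · exact Or.inl h1
    by_cases h2 : w = b
    · exact Or.inr (Or.inl h2)
    exact Or.inr (Or.inr ⟨Pt2_blk_adj hdia hvu hb hw (fun h => h2 h.symm),
      Pt2_blk_adj hdia hvu ha hw (fun h => h1 h.symm)⟩)

lemma Pt2_other {V : Type} [Fintype V] {G : SimpleGraph V} (hdia : DiaI G) {v w : V} {X : Finset V}
    (h : X ∈ Pt_P G v) (hw : w ∈ X) (hwv : v ≠ w) : G.Adj v w ∧ X = Pt_blk G v w := by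
  obtain ⟨u, hu, rfl⟩ := Pt_mem_P.1 h
  exact ⟨Pt2_blk_adj hdia hu Pt_left_mem hw hwv, (Pt2_blk_eq hdia hu Pt_left_mem hw hwv).symm⟩

lemma Pt2_mem_P_of {V : Type} [Fintype V] {G : SimpleGraph V} (hdia : DiaI G) {v w : V}
    {X : Finset V} (h : X ∈ Pt_P G v) (hw : w ∈ X) : X ∈ Pt_P G w := by
  by_cases hwv : v = w
  · rw [← hwv]; exact h
  · obtain ⟨u, hu, rfl⟩ := Pt_mem_P.1 h
    have h1 := Pt2_blk_adj hdia hu hw Pt_left_mem (fun h => hwv h.symm)
    exact Pt_mem_P.2 ⟨v, h1, Pt2_blk_eq hdia hu hw Pt_left_mem (fun h => hwv h.symm)⟩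

lemma Pt2_sum {V : Type} [Fintype V] {G : SimpleGraph V} (hdia : DiaI G) (v : V) :
    ∑ X ∈ Pt_P G v, X.card = (nb G v).card + (Pt_P G v).card := by
  have h1 : nb G v = (Pt_P G v).biUnion (fun X => X.erase v) := by
    ext u
    rw [Finset.mem_biUnion, Pt_mem_nb]
    constructor
    · intro hu
      exact ⟨Pt_blk G v u, Pt_mem_P.2 ⟨u, hu, rfl⟩, Finset.mem_erase.2 ⟨hu.ne', Pt_right_mem⟩⟩
    · rintro ⟨X, hX, hu⟩
      rw [Finset.mem_erase] at hu
      exact (Pt2_other hdia hX hu.2 (fun h => hu.1 h.symm)).1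
  have h2 : (nb G v).card = ∑ X ∈ Pt_P G v, (X.erase v).card := by
    conv_lhs => rw [h1]
    apply Finset.card_biUnion
    intro X hX Y hY hXY
    show Disjoint (X.erase v) (Y.erase v)
    rw [Finset.disjoint_left]
    intro u hu hu'
    rw [Finset.mem_erase] at hu hu'
    apply hXY
    rw [(Pt2_other hdia hX hu.2 (fun h => hu.1 h.symm)).2,
      (Pt2_other hdia hY hu'.2 (fun h => hu'.1 h.symm)).2]
  rw [h2, Finset.card_eq_sum_ones, ← Finset.sum_add_distrib]
  apply Finset.sum_congr rfl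
  intro X hX
  rw [Finset.card_erase_add_one (Pt_mem_self hX)]

lemma Pt2_card_P {V : Type} [Fintype V] {G : SimpleGraph V} (h14 : K14 G) (hdia : DiaI G) (v : V) :
    (Pt_P G v).card ≤ 3 := by
  by_contra hcon
  obtain ⟨T, hT, hT4⟩ := Finset.exists_subset_card_eq (show 4 ≤ (Pt_P G v).card by omega)
  obtain ⟨e⟩ : Nonempty (T ≃ Fin 4) := ⟨T.equivFinOfCardEq hT4⟩
  have h1 : ∀ i : Fin 4, ∃ u, G.Adj v u ∧ Pt_blk G v u = (e.symm i : Finset V) := fun i =>
    Pt_mem_P.1 (hT (e.symm i).2)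
  choose u hu hb using h1
  have h2 : ∀ i j, i ≠ j → Pt_blk G v (u i) ≠ Pt_blk G v (u j) := by
    intro i j hij h
    rw [hb, hb] at h
    exact hij (e.symm.injective (Subtype.ext h))
  have h3 : ∀ i j, i ≠ j → u i ≠ u j := fun i j hij h => h2 i j hij (by rw [h])
  have h4 : ∀ i j, i ≠ j → ¬ G.Adj (u i) (u j) := by
    intro i j hij h
    apply h2 i j hij
    have h5 : u j ∈ Pt_blk G v (u i) := Pt_mem_blk.2 (Or.inr (Or.inr ⟨h, hu j⟩))
    exact (Pt2_blk_eq hdia (hu i) Pt_left_mem h5 (hu j).ne).symm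
  rcases h14 v (u 0) (u 1) (u 2) (u 3) (hu 0) (hu 1) (hu 2) (hu 3) (h3 0 1 (by decide))
    (h3 0 2 (by decide)) (h3 0 3 (by decide)) (h3 1 2 (by decide)) (h3 1 3 (by decide))
    (h3 2 3 (by decide)) with h | h | h | h | h | h
  · exact h4 0 1 (by decide) h
  · exact h4 0 2 (by decide) h
  · exact h4 0 3 (by decide) h
  · exact h4 1 2 (by decide) h
  · exact h4 1 3 (by decide) h
  · exact h4 2 3 (by decide) h

lemma Pt2_card_pad {V : Type} [Fintype V] {G : SimpleGraph V} (h14 : K14 G) (hdia : DiaI G)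
    (v : V) : (Pt_P G v).card + (Pt_pad G v).card = 3 := by
  have h1 := Pt2_card_P h14 hdia v
  unfold Pt_pad
  rw [Finset.card_image_of_injective _ (fun i j h => (Prod.ext_iff.1 h).2)]
  generalize (Pt_P G v).card = c at h1 ⊢
  interval_cases c <;> decide

theorem exists_psd {V : Type} [Fintype V] {G : SimpleGraph V} {d : ℕ} (h14 : K14 G) (hdia : DiaI G)
    (hdeg : ∀ v, (nb G v).card ≤ d) :
    ∃ (N : Type) (_ : Fintype N) (f : V → Finset N), PSd G f d := by
  have hm1 : ∀ X, mult (Pt_f G) (Sum.inl X) ≤ X.card := by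
    intro X
    exact Pt_mult_le _ _ X fun v hv => Pt_mem_self (Finset.inl_mem_disjSum.1 hv)
  have hm2 : ∀ x, mult (Pt_f G) (Sum.inr x) ≤ 1 := by
    intro x
    have h1 := Pt_mult_le (Pt_f G) (Sum.inr x) {x.1} fun v hv => by
      rw [Finset.mem_singleton, Pt_mem_pad (Finset.inr_mem_disjSum.1 hv)]
    rwa [Finset.card_singleton] at h1
  refine ⟨Finset V ⊕ (V × Fin 3), inferInstance, Pt_f G, ?_, ?_, ?_, ?_⟩
  · intro v
    unfold Pt_f
    rw [Finset.card_disjSum]
    exact Pt2_card_pad h14 hdia v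
  · intro u v
    constructor
    · intro h
      have h1 : Pt_blk G u v ∈ Pt_P G u := Pt_mem_P.2 ⟨v, h, rfl⟩
      exact ⟨h.ne, Sum.inl (Pt_blk G u v), Finset.inl_mem_disjSum.2 h1,
        Finset.inl_mem_disjSum.2 (Pt2_mem_P_of hdia h1 Pt_right_mem)⟩
    · rintro ⟨huv, p | p, hp, hq⟩
      · exact (Pt2_other hdia (Finset.inl_mem_disjSum.1 hp)
          (Pt_mem_self (Finset.inl_mem_disjSum.1 hq)) huv).1
      · exact absurd ((Pt_mem_pad (Finset.inr_mem_disjSum.1 hp)).symm.trans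
          (Pt_mem_pad (Finset.inr_mem_disjSum.1 hq))) huv
  · rintro u v huv (p | p) (q | q) h1 h2 h3 h4
    · congr 1
      rw [(Pt2_other hdia (Finset.inl_mem_disjSum.1 h1)
          (Pt_mem_self (Finset.inl_mem_disjSum.1 h2)) huv).2,
        (Pt2_other hdia (Finset.inl_mem_disjSum.1 h3)
          (Pt_mem_self (Finset.inl_mem_disjSum.1 h4)) huv).2]
    · exact absurd ((Pt_mem_pad (Finset.inr_mem_disjSum.1 h3)).symm.trans
          (Pt_mem_pad (Finset.inr_mem_disjSum.1 h4))) huv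
    · exact absurd ((Pt_mem_pad (Finset.inr_mem_disjSum.1 h1)).symm.trans
          (Pt_mem_pad (Finset.inr_mem_disjSum.1 h2))) huv
    · exact absurd ((Pt_mem_pad (Finset.inr_mem_disjSum.1 h1)).symm.trans
          (Pt_mem_pad (Finset.inr_mem_disjSum.1 h2))) huv
  · intro v
    have h1 : ∑ p ∈ Pt_f G v, mult (Pt_f G) p =
        ∑ X ∈ Pt_P G v, mult (Pt_f G) (Sum.inl X) + ∑ x ∈ Pt_pad G v, mult (Pt_f G) (Sum.inr x) := by
      conv_lhs => rw [Pt_f]
      rw [Finset.sum_disjSum]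
    have h2 : ∑ X ∈ Pt_P G v, mult (Pt_f G) (Sum.inl X) ≤ ∑ X ∈ Pt_P G v, X.card :=
      Finset.sum_le_sum fun X _ => hm1 X
    have h3 : ∑ x ∈ Pt_pad G v, mult (Pt_f G) (Sum.inr x) ≤ ∑ x ∈ Pt_pad G v, 1 :=
      Finset.sum_le_sum fun x _ => hm2 x
    rw [← Finset.card_eq_sum_ones] at h3
    have h4 := Pt2_sum hdia v
    have h5 := Pt2_card_pad h14 hdia v
    have h6 := hdeg v
    omega

end

end Pool.Agent.H64.KD
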