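import Pool.Agent.H64.KD.Dl
import Pool.Agent.H64.KD.Pt2

/-!
Module Ln (row KDLN).  Point structures for line graphs of linear hypergraphs of rank at most 3.

`psd_of_lin`: given `f : V → Finset ℕ` as in `LinThree`; `K := Finset.univ.biUnion f`, `N := ↥K ⊕ (V × Fin 3)`,
  `g v := (K.attach.filter (fun p => p.1 ∈ f v)).image Sum.inl ∪ ((Finset.univ.filter (fun i : Fin 3 => (f v).card + i.val < 3)).image (fun i => Sum.inr (v, i)))`.
  `|g v| = |f v| + (3 - |f v|) = 3` (padding with private nodes).  Adjacency and linearity as for `f` (the private nodes are in one `g v` only).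
  `mult g (inl p) = #{u : p ∈ f u}`, `mult g (inr (v, i)) ≤ 1`.  The sets `{u ≠ v : p ∈ f u}`, `p ∈ f v`, are disjoint (linearity) subsets of `nb G v`, so
  `Σ_(p ∈ f v) (#{u : p ∈ f u} - 1) ≤ d`, and `Σ_(p ∈ g v) mult g p ≤ d + |f v| + (3 - |f v|) = d + 3`.   (The end of the proof of `exists_ps` in H64/K4/Pt.lean is similar.)
`lin_of_k14`: `exists_psd` (use only its statement) with `d := Fintype.card V` (`Finset.card_le_univ`) gives `f : V → Finset N`, `N` finite; move it to `ℕ` with the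
  injective map `p ↦ (Fintype.equivFin N p : ℕ)` (`Finset.map`/`Finset.image`).
-/

set_option autoImplicit false
set_option linter.all false

namespace Pool.Agent.H64.KD

open Classical Pool.Agent.H67.CF Pool.Agent.H64.K4

noncomputable section

/-- all nodes -/
def Ln_K {V : Type} [Fintype V] (f : V → Finset ℕ) : Finset ℕ := Finset.univ.biUnion f

/-- the nodes of `v` -/
def Ln_A {V : Type} [Fintype V] (f : V → Finset ℕ) (v : V) : Finset {x // x ∈ Ln_K f} :=
  (Ln_K f).attach.filter (fun p => p.1 ∈ f v)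

/-- the private nodes of `v` -/
def Ln_pad {V : Type} [Fintype V] (f : V → Finset ℕ) (v : V) : Finset (V × Fin 3) :=
  (Finset.univ.filter (fun i : Fin 3 => (f v).card + i.val < 3)).image (fun i => (v, i))

/-- the nodes of `v`, with padding -/
def Ln_g {V : Type} [Fintype V] (f : V → Finset ℕ) (v : V) : Finset ({x // x ∈ Ln_K f} ⊕ (V × Fin 3)) :=
  (Ln_A f v).disjSum (Ln_pad f v)

lemma Ln_mem_A {V : Type} [Fintype V] {f : V → Finset ℕ} {v : V} {p : {x // x ∈ Ln_K f}} :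
    p ∈ Ln_A f v ↔ p.1 ∈ f v := by
  simp [Ln_A]

lemma Ln_mem_K {V : Type} [Fintype V] {f : V → Finset ℕ} {v : V} {p : ℕ} (h : p ∈ f v) : p ∈ Ln_K f :=
  Finset.mem_biUnion.2 ⟨v, Finset.mem_univ _, h⟩

lemma Ln_card_A {V : Type} [Fintype V] (f : V → Finset ℕ) (v : V) : (Ln_A f v).card = (f v).card := by
  have h1 : (Ln_A f v).image Subtype.val = f v := by
    ext p
    rw [Finset.mem_image]
    constructor
    · rintro ⟨q, hq, rfl⟩
      exact Ln_mem_A.1 hq
    · intro hp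
      exact ⟨⟨p, Ln_mem_K hp⟩, Ln_mem_A.2 hp, rfl⟩
  conv_rhs => rw [← h1]
  rw [Finset.card_image_of_injective _ Subtype.val_injective]

lemma Ln_mem_pad {V : Type} [Fintype V] {f : V → Finset ℕ} {v : V} {x : V × Fin 3}
    (h : x ∈ Ln_pad f v) : x.1 = v := by
  unfold Ln_pad at h
  rw [Finset.mem_image] at h
  obtain ⟨i, -, rfl⟩ := h
  rfl

lemma Ln_card_pad {V : Type} [Fintype V] (f : V → Finset ℕ) (v : V) (h : (f v).card ≤ 3) :
    (f v).card + (Ln_pad f v).card = 3 := by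
  unfold Ln_pad
  rw [Finset.card_image_of_injective _ (fun i j h => (Prod.ext_iff.1 h).2)]
  generalize (f v).card = c at h ⊢
  interval_cases c <;> decide

lemma Ln_sum {V : Type} [Fintype V] {G : SimpleGraph V} {f : V → Finset ℕ}
    (hadj : ∀ u v, G.Adj u v ↔ u ≠ v ∧ ∃ p, p ∈ f u ∧ p ∈ f v)
    (hlin : ∀ u v, u ≠ v → ∀ p q, p ∈ f u → p ∈ f v → q ∈ f u → q ∈ f v → p = q) (v : V) :
    ∑ p ∈ Ln_A f v, mult (Ln_g f) (Sum.inl p) ≤ (nb G v).card + (Ln_A f v).card := by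
  have h1 : ∀ p ∈ Ln_A f v, mult (Ln_g f) (Sum.inl p) ≤
      (Finset.univ.filter (fun u : V => u ≠ v ∧ p.1 ∈ f u)).card + 1 := by
    intro p hp
    refine (Pt_mult_le (Ln_g f) (Sum.inl p) (insert v (Finset.univ.filter (fun u : V => u ≠ v ∧ p.1 ∈ f u))) ?_).trans
      (Finset.card_insert_le _ _)
    intro u hu
    have h3 : p.1 ∈ f u := Ln_mem_A.1 (Finset.inl_mem_disjSum.1 hu)
    rw [Finset.mem_insert, Finset.mem_filter]
    by_cases huv : u = v
    · exact Or.inl huv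
    · exact Or.inr ⟨Finset.mem_univ _, huv, h3⟩
  refine (Finset.sum_le_sum h1).trans ?_
  rw [Finset.sum_add_distrib, ← Finset.card_eq_sum_ones]
  refine Nat.add_le_add_right ?_ _
  rw [← Finset.card_biUnion]
  · refine Finset.card_le_card fun u hu => ?_
    obtain ⟨p, hp, hu2⟩ := Finset.mem_biUnion.1 hu
    obtain ⟨_, h3, h4⟩ := Finset.mem_filter.1 hu2
    rw [mem_nb, hadj]
    exact ⟨fun h => h3 h.symm, p.1, Ln_mem_A.1 hp, h4⟩
  · intro p hp q hq hpq
    rw [Function.onFun, Finset.disjoint_left]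
    intro u hu hu'
    obtain ⟨_, h3, h4⟩ := Finset.mem_filter.1 hu
    obtain ⟨_, _, h5⟩ := Finset.mem_filter.1 hu'
    exact hpq (Subtype.ext (hlin u v h3 p.1 q.1 h4 (Ln_mem_A.1 hp) h5 (Ln_mem_A.1 hq)))

theorem psd_of_lin {V : Type} [Fintype V] {G : SimpleGraph V} {d : ℕ} (h : LinThree G)
    (hdeg : ∀ v, (nb G v).card ≤ d) :
    ∃ (N : Type) (_ : Fintype N) (f : V → Finset N), PSd G f d := by
  obtain ⟨f, hc, hadj, hlin⟩ := h
  refine ⟨{x // x ∈ Ln_K f} ⊕ (V × Fin 3), inferInstance, Ln_g f, ?_, ?_, ?_, ?_⟩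
  · intro v
    unfold Ln_g
    rw [Finset.card_disjSum, Ln_card_A]
    exact Ln_card_pad f v (hc v)
  · intro u v
    rw [hadj]
    constructor
    · rintro ⟨huv, p, hp, hq⟩
      exact ⟨huv, Sum.inl ⟨p, Ln_mem_K hp⟩, Finset.inl_mem_disjSum.2 (Ln_mem_A.2 hp),
        Finset.inl_mem_disjSum.2 (Ln_mem_A.2 hq)⟩
    · rintro ⟨huv, p | p, hp, hq⟩
      · exact ⟨huv, p.1, Ln_mem_A.1 (Finset.inl_mem_disjSum.1 hp), Ln_mem_A.1 (Finset.inl_mem_disjSum.1 hq)⟩
      · exact absurd ((Ln_mem_pad (Finset.inr_mem_disjSum.1 hp)).symm.trans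
          (Ln_mem_pad (Finset.inr_mem_disjSum.1 hq))) huv
  · rintro u v huv (p | p) (q | q) h1 h2 h3 h4
    · congr 1
      exact Subtype.ext (hlin u v huv p.1 q.1 (Ln_mem_A.1 (Finset.inl_mem_disjSum.1 h1))
        (Ln_mem_A.1 (Finset.inl_mem_disjSum.1 h2)) (Ln_mem_A.1 (Finset.inl_mem_disjSum.1 h3))
        (Ln_mem_A.1 (Finset.inl_mem_disjSum.1 h4)))
    · exact absurd ((Ln_mem_pad (Finset.inr_mem_disjSum.1 h3)).symm.trans
          (Ln_mem_pad (Finset.inr_mem_disjSum.1 h4))) huv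
    · exact absurd ((Ln_mem_pad (Finset.inr_mem_disjSum.1 h1)).symm.trans
          (Ln_mem_pad (Finset.inr_mem_disjSum.1 h2))) huv
    · exact absurd ((Ln_mem_pad (Finset.inr_mem_disjSum.1 h1)).symm.trans
          (Ln_mem_pad (Finset.inr_mem_disjSum.1 h2))) huv
  · intro v
    have h1 : ∑ p ∈ Ln_g f v, mult (Ln_g f) p =
        ∑ X ∈ Ln_A f v, mult (Ln_g f) (Sum.inl X) + ∑ x ∈ Ln_pad f v, mult (Ln_g f) (Sum.inr x) := by
      conv_lhs => rw [Ln_g]
      rw [Finset.sum_disjSum]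
    have hm2 : ∀ x, mult (Ln_g f) (Sum.inr x) ≤ 1 := by
      intro x
      have h1 := Pt_mult_le (Ln_g f) (Sum.inr x) {x.1} fun v hv => by
        rw [Finset.mem_singleton, Ln_mem_pad (Finset.inr_mem_disjSum.1 hv)]
      rwa [Finset.card_singleton] at h1
    have h3 : ∑ x ∈ Ln_pad f v, mult (Ln_g f) (Sum.inr x) ≤ ∑ x ∈ Ln_pad f v, 1 :=
      Finset.sum_le_sum fun x _ => hm2 x
    rw [← Finset.card_eq_sum_ones] at h3
    have h4 := Ln_sum hadj hlin v
    have h5 := Ln_card_pad f v (hc v)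
    have h6 := hdeg v
    have h7 := Ln_card_A f v
    omega

theorem lin_of_k14 {V : Type} [Fintype V] {G : SimpleGraph V} (h14 : K14 G) (hdia : DiaI G) :
    LinThree G := by
  obtain ⟨N, hN, f, hf⟩ := exists_psd (d := Fintype.card V) h14 hdia (fun v => Finset.card_le_univ _)
  have hinj : Function.Injective (fun p : N => ((Fintype.equivFin N p : Fin (Fintype.card N)) : ℕ)) := by
    intro p q hpq
    exact (Fintype.equivFin N).injective (Fin.ext hpq)
  refine ⟨fun v => (f v).image (fun p : N => ((Fintype.equivFin N p : Fin (Fintype.card N)) : ℕ)), ?_, ?_, ?_⟩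
  · intro v
    exact Finset.card_image_le.trans (hf.card3 v).le
  · intro u v
    rw [hf.adj]
    constructor
    · rintro ⟨huv, p, hp, hq⟩
      exact ⟨huv, _, Finset.mem_image_of_mem _ hp, Finset.mem_image_of_mem _ hq⟩
    · rintro ⟨huv, p, hp, hq⟩
      obtain ⟨a, ha, rfl⟩ := Finset.mem_image.1 hp
      obtain ⟨b, hb, hab⟩ := Finset.mem_image.1 hq
      have h1 := hinj hab
      exact ⟨huv, a, ha, h1 ▸ hb⟩
  · intro u v huv p q h1 h2 h3 h4
    obtain ⟨a, ha, rfl⟩ := Finset.mem_image.1 h1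
    obtain ⟨b, hb, hab⟩ := Finset.mem_image.1 h2
    obtain ⟨a', ha', rfl⟩ := Finset.mem_image.1 h3
    obtain ⟨b', hb', hab'⟩ := Finset.mem_image.1 h4
    have e1 := hinj hab
    have e2 := hinj hab'
    subst e1
    subst e2
    rw [hf.lin u v huv b b' ha hb ha' hb']

end

end Pool.Agent.H64.KD
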