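import Pool.Agent.H64.KD.Defs
import Pool.Agent.H64.K4.Mr

/-!
Module Mr2 (row KDMR).  Adding at most `e` vertices in every region raises the order of the complete minors by at most `e`.
Generalises `model_regions` of H64/K4/Mr (there `e = 1`); use `model_sdiff`, `model_sep` of that file.

(1) by induction on `|S|` (`model_sdiff`): a model of `K_(r+k)` in `T` with `S.card ≤ k` gives a model of `K_r` in `T \ S` (a model of `K_(r+k)` also gives one of `K_(r+j)`, `j ≤ k`).
(2) induction on `B`.  `B = ∅`: a model of `K_(r+e)` in `F` gives one of `K_r` in `F`.  `insert X B`: `r + e ≥ 3`; apply `model_sep` with `T := F ∪ (insert X B).biUnion ext` and the `C` of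
    `Rge.cut X`: a model in `T ∩ (X ∪ C)`: this set without `ext X` is contained in `F` (the other `ext Y ⊆ Y` are disjoint from `X` and from `C`), so by (1) `F` has a model of `K_r`;
    or a model in `T \ X ⊆ F ∪ B.biUnion ext`: induction (`Rge` for the smaller `B` is clear).
-/

set_option autoImplicit false
set_option linter.all false

namespace Pool.Agent.H64.KD

open Classical Pool.Agent.H67.CF Pool.Agent.H64.K4

noncomputable section

theorem Mr2_le {V : Type} {G : SimpleGraph V} {a b : ℕ} {T : Set V} (hab : b ≤ a)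
    (h : Model G a T) : Model G b T := by
  obtain ⟨f, h1, h2, h3⟩ := h
  refine ⟨fun i => f (Fin.castLE hab i), fun i => h1 _, ?_, ?_⟩
  · intro i j hij
    exact h2 _ _ (fun h => hij (Fin.castLE_injective hab h))
  · intro i j hij
    exact h3 _ _ (fun h => hij (Fin.castLE_injective hab h))

theorem Mr2_sdiff {V : Type} {G : SimpleGraph V} {r : ℕ} (S : Finset V) :
    ∀ (T : Set V) (k : ℕ), S.card ≤ k → Model G (r + k) T → Model G r (T \ (S : Set V)) := by
  induction S using Finset.induction_on with
  | empty =>
    intro T k _ h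
    refine Mr_mono (Mr2_le (Nat.le_add_right r k) h) ?_
    intro t ht
    exact ⟨ht, by simp⟩
  | insert x S hx ih =>
    intro T k hk h
    rw [Finset.card_insert_of_notMem hx] at hk
    obtain ⟨k', rfl⟩ : ∃ k', k = k' + 1 := ⟨k - 1, by omega⟩
    have h' : Model G (r + k') (T \ {x}) := model_sdiff x (by rw [← Nat.add_assoc] at h; exact h)
    refine Mr_mono (ih (T \ {x}) k' (by omega) h') ?_
    rintro t ⟨⟨ht, htx⟩, htS⟩
    refine ⟨ht, fun h => ?_⟩
    rcases Finset.mem_insert.1 (Finset.mem_coe.1 h) with h | h
    · exact htx h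
    · exact htS (Finset.mem_coe.2 h)

theorem Mr2_reg {V : Type} {G : SimpleGraph V} {B B' : Finset (Finset V)}
    {ext : Finset V → Finset V} (h : Rge G B ext) (hB : B' ⊆ B) : Rge G B' ext where
  disj X hX Y hY := h.disj X (hB hX) Y (hB hY)
  sub X hX := h.sub X (hB hX)
  cut X hX := by
    obtain ⟨C, h1, h2, h3⟩ := h.cut X (hB hX)
    exact ⟨C, h1, fun Y hY => h2 Y (hB hY), h3⟩

theorem model_regions2 {V : Type} [Fintype V] {G : SimpleGraph V} {F : Finset V}
    {B : Finset (Finset V)} {ext : Finset V → Finset V} (hR : Rge G B ext) {e r : ℕ}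
    (he : ∀ X ∈ B, (ext X).card ≤ e) (hr : 3 ≤ r)
    (hF : ¬ Model G r (F : Set V)) : ¬ Model G (r + e) ((F ∪ B.biUnion ext : Finset V) : Set V) := by
  induction B using Finset.induction_on with
  | empty =>
    intro h
    refine hF (Mr_mono (Mr2_le (Nat.le_add_right r e) h) ?_)
    intro t ht
    simpa using ht
  | insert X B hXB ih =>
    intro h
    have hXm : X ∈ insert X B := Finset.mem_insert_self _ _
    obtain ⟨C, hC, hCd, hcut⟩ := hR.cut X hXm
    have hXC : Disjoint ((X : Finset V) : Set V) (C : Set V) := by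
      have := hCd X hXm
      rw [Finset.disjoint_coe]
      exact this.symm
    have hsplit : ∀ t : V, t ∈ ((F ∪ (insert X B).biUnion ext : Finset V) : Set V) →
        t ∈ F ∨ t ∈ ext X ∨ ∃ Y ∈ B, t ∈ ext Y := by
      intro t ht
      rw [Finset.mem_coe, Finset.mem_union, Finset.mem_biUnion] at ht
      rcases ht with ht | ⟨Y, hY, htY⟩
      · exact Or.inl ht
      · rcases Finset.mem_insert.1 hY with h | hY
        · rw [h] at htY
          exact Or.inr (Or.inl htY)
        · exact Or.inr (Or.inr ⟨Y, hY, htY⟩)
    rcases model_sep (X := ((X : Finset V) : Set V)) (by omega) hC hXC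
      (fun u hu w huw => by
        rcases hcut u (Finset.mem_coe.1 hu) w huw with h | h
        · exact Or.inl (Finset.mem_coe.2 h)
        · exact Or.inr h) h with h | h
    · refine hF (Mr_mono (Mr2_sdiff (ext X) _ e (he X hXm) h) ?_)
      rintro t ⟨⟨ht, htXC⟩, htx⟩
      rcases hsplit t ht with h | h | ⟨Y, hY, htY⟩
      · exact Finset.mem_coe.2 h
      · exact absurd (Finset.mem_coe.2 h) htx
      · exfalso
        have hYm : Y ∈ insert X B := Finset.mem_insert_of_mem hY
        have hYX : X ≠ Y := fun h => hXB (h ▸ hY)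
        have hmem := hR.sub Y hYm htY
        rcases htXC with h | h
        · exact Finset.disjoint_left.1 (hR.disj X hXm Y hYm hYX) (Finset.mem_coe.1 h) hmem
        · exact Finset.disjoint_left.1 (hCd Y hYm) (Finset.mem_coe.1 h) hmem
    · refine ih (Mr2_reg hR (Finset.subset_insert _ _))
        (fun Y hY => he Y (Finset.mem_insert_of_mem hY)) (Mr_mono h ?_)
      rintro t ⟨ht, htX⟩
      rw [Finset.mem_coe, Finset.mem_union, Finset.mem_biUnion]
      rcases hsplit t ht with h | h | ⟨Y, hY, htY⟩
      · exact Or.inl h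
      · exfalso
        exact htX (Finset.mem_coe.2 (hR.sub X hXm h))
      · exact Or.inr ⟨Y, hY, htY⟩

end

end Pool.Agent.H64.KD
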