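import Pool.Agent.H64.KD.Defs

/-!
Module Nu (row KDNU).  Numerical inequalities for `wt d = 1/(⌊d/2⌋+1) + 1/(⌊(d+1)/2⌋+1)` (H67/CF/Defs).  Write `κ = wt d`.
`d = 2a - 2` (a ≥ 1): `κ = 2/a`.   `d = 2a - 1`: `κ = 1/a + 1/(a+1) = (2a+1)/(a(a+1))`.   (Write `d = 2b` or `d = 2b+1` and compute `d/2`, `(d+1)/2` by omega.)

`wt4`, `wt5`: norm_num.  `wt_half`: `κ = 2/a ≤ 1/2` for `a ≥ 4`; `(2a+1)/(a(a+1)) ≤ 1/2` for `a ≥ 4`  (or `wt_anti` of H67/CF/Ab and `wt 6 = 1/2`).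
`n2` (two nodes, `m1 + m2 ≤ d + 2`): with the same `a`: for every natural `m ≥ 1`: `1/m ≥ (2a + 1 - m)/(a(a+1))`, because `(m - a)(m - a - 1) ≥ 0`.  The sum is
   `≥ (4a + 2 - d - 2)/(a(a+1)) = (4a - d)/(a(a+1))`, which is `(2a+2)/(a(a+1)) = 2/a` resp. `(2a+1)/(a(a+1))`.
`n1` (three nodes, `m1 + m2 + m3 ≤ d + 3`): `d = 4, 5`: `1/m ≥ (5 - m)/6` (`(m-2)(m-3) ≥ 0`), sum `≥ (12 - d)/6 = 2κ` (`κ = 2/3, 7/12`).
   `d ≥ 6` (`a ≥ 4`): `1/m1 + 1/m2 + 1/m3 ≥ 9/(m1+m2+m3) ≥ 9/(d+3)`, and `9/(2a+1) ≥ 4/a` (`d = 2a-2`), `9/(2a+2) ≥ 2(2a+1)/(a(a+1))` (`d = 2a-1`): both say `9a ≥ 8a + 4`.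
`n3`: `d = 4, 5`: `1/m ≥ (4 - m)/4` (`(m-2)^2 ≥ 0`) and `3/m ≥ (7 - m)/4` (`(m-3)(m-4) ≥ 0`): sum `≥ (15 - (d+3))/4 = (12-d)/4 = 3κ`.
   `d ≥ 6` (`a ≥ 4`): Cauchy (Sedrakyan) with `(17/10)^2 ≤ 3`: `3/m1 + 1/m2 + 1/m3 ≥ (17/10 + 1 + 1)^2/(m1+m2+m3) ≥ (37/10)^2/(d+3) = 13.69/(d+3)`; and
   `13.69/(2a+1) ≥ 6/a`, `13.69/(2a+2) ≥ 3(2a+1)/(a(a+1))`: both follow from `13.69 a ≥ 12 a + 6`.
   (`13.69/(d+3) ≤ ...` can be proved with `div_add_div_same, div_add_div, div_le_div_iff` or: for every `λ > 0`: `c²/m ≥ 2cλ - λ² m` with `λ := (37/10)/(d+3)`; sum of the three: `2 (37/10) λ - λ² (m1+m2+m3) ≥ (37/10)²/(d+3)`.)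
-/

set_option autoImplicit false
set_option linter.all false

namespace Pool.Agent.H64.KD

open Classical Pool.Agent.H67.CF Pool.Agent.H64.K4

noncomputable section

theorem Nu_even (b : ℕ) : wt (2 * b) = 2 / ((b : ℝ) + 1) := by
  unfold wt
  have h1 : 2 * b / 2 = b := by omega
  have h2 : (2 * b + 1) / 2 = b := by omega
  rw [h1, h2]
  ring

theorem Nu_odd (b : ℕ) : wt (2 * b + 1) = 1 / ((b : ℝ) + 1) + 1 / ((b : ℝ) + 2) := by
  unfold wt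
  have h1 : (2 * b + 1) / 2 = b := by omega
  have h2 : (2 * b + 1 + 1) / 2 = b + 1 := by omega
  rw [h1, h2]
  push_cast
  ring

theorem Nu_t (b m : ℕ) (hm : 1 ≤ m) :
    (2 * (b : ℝ) + 3 - m) / (((b : ℝ) + 1) * ((b : ℝ) + 2)) ≤ 1 / (m : ℝ) := by
  have hb : (0 : ℝ) ≤ b := Nat.cast_nonneg b
  have hm' : (0 : ℝ) < m := by exact_mod_cast hm
  rw [div_le_div_iff₀ (by positivity) hm']
  rcases Nat.lt_or_ge b m with h | h
  · rcases Nat.lt_or_ge (b + 1) m with h' | h'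
    · have h1 : (b : ℝ) + 2 ≤ m := by exact_mod_cast h'
      nlinarith
    · have h1 : m = b + 1 := by omega
      rw [h1]
      push_cast
      nlinarith
  · have h1 : (m : ℝ) ≤ b := by exact_mod_cast h
    nlinarith

theorem Nu_tan {c l m : ℝ} (hm : 0 < m) : 2 * c * l - l ^ 2 * m ≤ c ^ 2 / m := by
  rw [le_div_iff₀ hm]
  nlinarith [sq_nonneg (c - l * m)]

theorem Nu_sum {c m1 m2 m3 S : ℝ} (hc : 0 < c) (h1 : 0 < m1) (h2 : 0 < m2) (h3 : 0 < m3)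
    (hS : 0 < S) (h : m1 + m2 + m3 ≤ S) :
    (c + 2) ^ 2 / S ≤ c ^ 2 / m1 + 1 / m2 + 1 / m3 := by
  have e1 := Nu_tan (c := c) (l := (c + 2) / S) h1
  have e2 := Nu_tan (c := 1) (l := (c + 2) / S) h2
  have e3 := Nu_tan (c := 1) (l := (c + 2) / S) h3
  have e4 : ((c + 2) / S) ^ 2 * (m1 + m2 + m3) ≤ ((c + 2) / S) ^ 2 * S :=
    mul_le_mul_of_nonneg_left h (sq_nonneg _)
  have e5 : ((c + 2) / S) ^ 2 * S = (c + 2) ^ 2 / S := by
    field_simp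
  have e6 : 2 * c * ((c + 2) / S) + 2 * 1 * ((c + 2) / S) + 2 * 1 * ((c + 2) / S) =
      2 * ((c + 2) ^ 2 / S) := by
    field_simp
    ring
  rw [one_pow] at e2 e3
  nlinarith

theorem wt4 : wt 4 = 2 / 3 := by
  have h := Nu_even 2
  norm_num at h
  rw [h]

theorem wt5 : wt 5 = 7 / 12 := by
  have h := Nu_odd 2
  norm_num at h
  rw [h]

theorem wt_half {d : ℕ} (hd : 6 ≤ d) : wt d ≤ 1 / 2 := by
  have h6 := Nu_even 3
  norm_num at h6
  rw [← h6]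
  rcases Nat.even_or_odd' d with ⟨b, rfl | rfl⟩
  · have hb : (3 : ℝ) ≤ b := by
      have : 3 ≤ b := by omega
      exact_mod_cast this
    rw [Nu_even, h6, div_le_div_iff₀ (by linarith) (by norm_num)]
    linarith
  · have hb : (3 : ℝ) ≤ b := by
      have : 3 ≤ b := by omega
      exact_mod_cast this
    rw [Nu_odd, h6]
    have h1 : 1 / ((b : ℝ) + 1) ≤ 1 / 4 := by
      rw [div_le_div_iff₀ (by linarith) (by norm_num)]
      linarith
    have h2 : 1 / ((b : ℝ) + 2) ≤ 1 / 4 := by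
      rw [div_le_div_iff₀ (by linarith) (by norm_num)]
      linarith
    linarith

theorem n2 {d m1 m2 : ℕ} (h1 : 1 ≤ m1) (h2 : 1 ≤ m2) (h : m1 + m2 ≤ d + 2) :
    wt d ≤ 1 / (m1 : ℝ) + 1 / (m2 : ℝ) := by
  rcases Nat.even_or_odd' d with ⟨b, rfl | rfl⟩
  · have e1 := Nu_t b m1 h1
    have e2 := Nu_t b m2 h2
    have hb : (0 : ℝ) ≤ b := Nat.cast_nonneg b
    have h' : (m1 : ℝ) + m2 ≤ 2 * b + 2 := by exact_mod_cast h
    have e3 : 2 / ((b : ℝ) + 1) ≤ (2 * (b : ℝ) + 3 - m1) / (((b : ℝ) + 1) * ((b : ℝ) + 2)) +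
        (2 * (b : ℝ) + 3 - m2) / (((b : ℝ) + 1) * ((b : ℝ) + 2)) := by
      rw [← add_div, div_le_div_iff₀ (by linarith) (by positivity)]
      nlinarith
    rw [Nu_even]
    linarith
  · have e1 := Nu_t b m1 h1
    have e2 := Nu_t b m2 h2
    have hb : (0 : ℝ) ≤ b := Nat.cast_nonneg b
    have h' : (m1 : ℝ) + m2 ≤ 2 * b + 1 + 2 := by exact_mod_cast h
    have e3 : 1 / ((b : ℝ) + 1) + 1 / ((b : ℝ) + 2) ≤
        (2 * (b : ℝ) + 3 - m1) / (((b : ℝ) + 1) * ((b : ℝ) + 2)) +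
        (2 * (b : ℝ) + 3 - m2) / (((b : ℝ) + 1) * ((b : ℝ) + 2)) := by
      rw [← add_div, div_add_div _ _ (by linarith) (by linarith),
        div_le_div_iff_of_pos_right (by positivity)]
      linarith
    rw [Nu_odd]
    linarith

theorem n1 {d m1 m2 m3 : ℕ} (hd : 4 ≤ d) (h1 : 1 ≤ m1) (h2 : 1 ≤ m2) (h3 : 1 ≤ m3)
    (h : m1 + m2 + m3 ≤ d + 3) :
    2 * wt d ≤ 1 / (m1 : ℝ) + 1 / (m2 : ℝ) + 1 / (m3 : ℝ) := by
  have p1 : (0 : ℝ) < m1 := by exact_mod_cast h1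
  have p2 : (0 : ℝ) < m2 := by exact_mod_cast h2
  have p3 : (0 : ℝ) < m3 := by exact_mod_cast h3
  rcases Nat.lt_or_ge d 6 with h6 | h6
  · have e1 := Nu_t 1 m1 h1
    have e2 := Nu_t 1 m2 h2
    have e3 := Nu_t 1 m3 h3
    norm_num at e1 e2 e3
    have h7 : d = 4 ∨ d = 5 := by omega
    rcases h7 with rfl | rfl
    · have h' : (m1 : ℝ) + m2 + m3 ≤ 7 := by exact_mod_cast h
      rw [wt4]
      simp only [one_div]
      linarith
    · have h' : (m1 : ℝ) + m2 + m3 ≤ 8 := by exact_mod_cast h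
      rw [wt5]
      simp only [one_div]
      linarith
  · have h' : (m1 : ℝ) + m2 + m3 ≤ (d : ℝ) + 3 := by exact_mod_cast h
    have hd' : (0 : ℝ) < (d : ℝ) + 3 := by positivity
    have e := Nu_sum (c := 1) one_pos p1 p2 p3 hd' h'
    rw [one_pow] at e
    refine le_trans ?_ e
    rcases Nat.even_or_odd' d with ⟨b, rfl | rfl⟩
    · have hb : (3 : ℝ) ≤ b := by
        have : 3 ≤ b := by omega
        exact_mod_cast this
      rw [Nu_even]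
      push_cast
      rw [← mul_div_assoc, div_le_div_iff₀ (by linarith) (by linarith)]
      nlinarith
    · have hb : (3 : ℝ) ≤ b := by
        have : 3 ≤ b := by omega
        exact_mod_cast this
      rw [Nu_odd, div_add_div _ _ (by linarith) (by linarith)]
      push_cast
      rw [← mul_div_assoc, div_le_div_iff₀ (by positivity) (by linarith)]
      nlinarith

theorem n3 {d m1 m2 m3 : ℕ} (hd : 4 ≤ d) (h1 : 1 ≤ m1) (h2 : 1 ≤ m2) (h3 : 1 ≤ m3)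
    (h : m1 + m2 + m3 ≤ d + 3) :
    3 * wt d ≤ 3 / (m1 : ℝ) + 1 / (m2 : ℝ) + 1 / (m3 : ℝ) := by
  have p1 : (0 : ℝ) < m1 := by exact_mod_cast h1
  have p2 : (0 : ℝ) < m2 := by exact_mod_cast h2
  have p3 : (0 : ℝ) < m3 := by exact_mod_cast h3
  rcases Nat.lt_or_ge d 6 with h6 | h6
  · have e1 : (7 - (m1 : ℝ)) / 4 ≤ 3 / (m1 : ℝ) := by
      rw [div_le_div_iff₀ (by norm_num) p1]
      rcases Nat.lt_or_ge 3 m1 with h | h
      · have h1 : (4 : ℝ) ≤ m1 := by exact_mod_cast h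
        nlinarith
      · have h1 : (m1 : ℝ) ≤ 3 := by exact_mod_cast h
        nlinarith
    have e2 : (4 - (m2 : ℝ)) / 4 ≤ 1 / (m2 : ℝ) := by
      rw [div_le_div_iff₀ (by norm_num) p2]
      nlinarith [sq_nonneg ((m2 : ℝ) - 2)]
    have e3 : (4 - (m3 : ℝ)) / 4 ≤ 1 / (m3 : ℝ) := by
      rw [div_le_div_iff₀ (by norm_num) p3]
      nlinarith [sq_nonneg ((m3 : ℝ) - 2)]
    have h7 : d = 4 ∨ d = 5 := by omega
    rcases h7 with rfl | rfl
    · have h' : (m1 : ℝ) + m2 + m3 ≤ 7 := by exact_mod_cast h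
      rw [wt4]
      linarith
    · have h' : (m1 : ℝ) + m2 + m3 ≤ 8 := by exact_mod_cast h
      rw [wt5]
      linarith
  · have h' : (m1 : ℝ) + m2 + m3 ≤ (d : ℝ) + 3 := by exact_mod_cast h
    have hd' : (0 : ℝ) < (d : ℝ) + 3 := by positivity
    have e := Nu_sum (c := 17 / 10) (by norm_num) p1 p2 p3 hd' h'
    have e0 : (17 / 10 : ℝ) ^ 2 / (m1 : ℝ) ≤ 3 / (m1 : ℝ) := by
      rw [div_le_div_iff_of_pos_right p1]
      norm_num
    have e1 : 3 * wt d ≤ (17 / 10 + 2) ^ 2 / ((d : ℝ) + 3) := by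
      rcases Nat.even_or_odd' d with ⟨b, rfl | rfl⟩
      · have hb : (3 : ℝ) ≤ b := by
          have : 3 ≤ b := by omega
          exact_mod_cast this
        rw [Nu_even]
        push_cast
        rw [← mul_div_assoc, div_le_div_iff₀ (by linarith) (by linarith)]
        nlinarith
      · have hb : (3 : ℝ) ≤ b := by
          have : 3 ≤ b := by omega
          exact_mod_cast this
        rw [Nu_odd, div_add_div _ _ (by linarith) (by linarith)]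
        push_cast
        rw [← mul_div_assoc, div_le_div_iff₀ (by positivity) (by linarith)]
        nlinarith
    linarith

end

end Pool.Agent.H64.KD
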