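import Pool.Agent.H64.KD.Nu

/-!
Module Nv (row KDNV).  The vertex inequalities, `d ≥ 4`, `κ = wt d`.  Use only the STATEMENTS of Nu.

`f v = {p, q, r}` (three different nodes), all multiplicities are `≥ 1` (`v` itself), their sum is `≤ d + 3`.  Order the nodes so that the nodes in `U` come first.
`v1`: `n1`.  `v2`: two nodes `p, q` in `U`: `m(p) + m(q) ≤ d + 2`, `n2`, the other terms are nonnegative.
`v0`: `sv = (Σ im)/2 + uu/2 - κ ≥ 0` by `v1`, `uu ≥ 0`.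
`v4`: `sv ≥ uu/2` by `v1`, and `uu ≥ 1/m(p) ≥ 1/(d+1)` for a node `p ∈ U` of `v`.
`v3`: `Σ_(f v) im = uu + R` with `R` the sum over the nodes outside `U`; `2 sv - (κ - uu) = uu + R + uu - 2κ - κ + uu = 3 uu + R - 3κ ≥ 0` by `n3` with `m1` := a node in `U`
   (if more nodes are in `U`, `3 uu + R` is even larger: `3/m2 ≥ 1/m2`).
-/

set_option autoImplicit false
set_option linter.all false

namespace Pool.Agent.H64.KD

open Classical Pool.Agent.H67.CF Pool.Agent.H64.K4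

noncomputable section

variable {V N : Type} [Fintype V] [Fintype N] {G : SimpleGraph V} {f : V → Finset N} {d : ℕ}
  {U : Finset N}

lemma Nv_mult {v : V} {p : N} (hp : p ∈ f v) : 1 ≤ mult f p := by
  unfold mult
  exact Finset.card_pos.2 ⟨v, Finset.mem_filter.2 ⟨Finset.mem_univ _, hp⟩⟩

lemma Nv_three (h : PSd G f d) (v : V) {a b c : N} (hab : a ≠ b) (hac : a ≠ c) (hbc : b ≠ c)
    (hf : f v = {a, b, c}) : 1 ≤ mult f a ∧ 1 ≤ mult f b ∧ 1 ≤ mult f c ∧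
      mult f a + mult f b + mult f c ≤ d + 3 ∧
      ∑ p ∈ f v, im f p = 1 / (mult f a : ℝ) + 1 / (mult f b : ℝ) + 1 / (mult f c : ℝ) := by
  have ha : a ∈ f v := by rw [hf]; simp
  have hb : b ∈ f v := by rw [hf]; simp
  have hc : c ∈ f v := by rw [hf]; simp
  have h1 := h.deg v
  have hs : ∀ {M : Type} [AddCommMonoid M] (g : N → M), ∑ p ∈ f v, g p = g a + (g b + g c) := by
    intro M _ g
    rw [hf, Finset.sum_insert (by simp [hab, hac]), Finset.sum_insert (by simp [hbc]),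
      Finset.sum_singleton]
  rw [hs] at h1
  refine ⟨Nv_mult ha, Nv_mult hb, Nv_mult hc, by omega, ?_⟩
  rw [hs]
  unfold im
  ring

lemma Nv_one (h : PSd G f d) (v : V)
    (hU : 1 ≤ ((f v).filter (fun p => p ∈ U)).card) : ∃ m1 m2 m3 : ℕ, 1 ≤ m1 ∧ 1 ≤ m2 ∧ 1 ≤ m3 ∧
      m1 + m2 + m3 ≤ d + 3 ∧ 1 / (m1 : ℝ) ≤ uu f U v ∧
      ∑ p ∈ f v, im f p = 1 / (m1 : ℝ) + 1 / (m2 : ℝ) + 1 / (m3 : ℝ) := by
  obtain ⟨a, ha⟩ := Finset.card_pos.1 hU
  have haf := (Finset.mem_filter.1 ha).1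
  have h2 : ((f v).erase a).card = 2 := by
    rw [Finset.card_erase_of_mem haf, h.card3 v]
  obtain ⟨b, c, hbc, he⟩ := Finset.card_eq_two.1 h2
  have hb : b ∈ (f v).erase a := by rw [he]; simp
  have hc : c ∈ (f v).erase a := by rw [he]; simp
  have hf : f v = {a, b, c} := by
    rw [← Finset.insert_erase haf, he]
  obtain ⟨g1, g2, g3, g4, g5⟩ := Nv_three h v (Finset.ne_of_mem_erase hb).symm
    (Finset.ne_of_mem_erase hc).symm hbc hf
  refine ⟨mult f a, mult f b, mult f c, g1, g2, g3, g4, ?_, g5⟩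
  have h4 : im f a ≤ ∑ p ∈ (f v).filter (fun p => p ∈ U), im f p :=
    Finset.single_le_sum (f := fun p => im f p) (fun p _ => by unfold im; positivity) ha
  exact h4

lemma Nv_two (h : PSd G f d) (v : V)
    (hU : 2 ≤ ((f v).filter (fun p => p ∈ U)).card) : ∃ m1 m2 : ℕ, 1 ≤ m1 ∧ 1 ≤ m2 ∧
      m1 + m2 ≤ d + 2 ∧ 1 / (m1 : ℝ) + 1 / (m2 : ℝ) ≤ uu f U v := by
  obtain ⟨a, b, ha, hb, hab⟩ := Finset.one_lt_card_iff.1 hU
  have haf := (Finset.mem_filter.1 ha).1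
  have hbf := (Finset.mem_filter.1 hb).1
  have h2 : (((f v).erase a).erase b).card = 1 := by
    rw [Finset.card_erase_of_mem (Finset.mem_erase.2 ⟨hab.symm, hbf⟩),
      Finset.card_erase_of_mem haf, h.card3 v]
  obtain ⟨c, he⟩ := Finset.card_eq_one.1 h2
  have hc : c ∈ ((f v).erase a).erase b := by rw [he]; simp
  have hf : f v = {a, b, c} := by
    rw [← Finset.insert_erase haf, ← Finset.insert_erase (Finset.mem_erase.2 ⟨hab.symm, hbf⟩), he]
  obtain ⟨g1, g2, g3, g4, g5⟩ := Nv_three h v hab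
    (Finset.ne_of_mem_erase (Finset.mem_of_mem_erase hc)).symm
    (Finset.ne_of_mem_erase hc).symm hf
  refine ⟨mult f a, mult f b, g1, g2, by omega, ?_⟩
  have h3 : ({a, b} : Finset N) ⊆ (f v).filter (fun p => p ∈ U) := by
    intro x hx
    rw [Finset.mem_insert, Finset.mem_singleton] at hx
    rcases hx with rfl | rfl
    · exact ha
    · exact hb
  have h4 : ∑ p ∈ ({a, b} : Finset N), im f p ≤ ∑ p ∈ (f v).filter (fun p => p ∈ U), im f p :=
    Finset.sum_le_sum_of_subset_of_nonneg h3 fun p _ _ => by unfold im; positivity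
  rw [Finset.sum_pair hab] at h4
  exact h4

lemma Nv_uu_nonneg (v : V) : 0 ≤ uu f U v :=
  Finset.sum_nonneg fun p _ => by unfold im; positivity

theorem v1 (hd : 4 ≤ d) (h : PSd G f d) (v : V) : 2 * wt d ≤ ∑ p ∈ f v, im f p := by
  obtain ⟨a, b, c, hab, hac, hbc, hf⟩ := Finset.card_eq_three.1 (h.card3 v)
  obtain ⟨g1, g2, g3, g4, g5⟩ := Nv_three h v hab hac hbc hf
  rw [g5]
  exact n1 hd g1 g2 g3 g4

theorem v2 (hd : 4 ≤ d) (h : PSd G f d) (v : V) (hU : 2 ≤ ((f v).filter (fun p => p ∈ U)).card) :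
    wt d ≤ uu f U v := by
  obtain ⟨m1, m2, g1, g2, g3, g4⟩ := Nv_two h v hU
  exact (n2 g1 g2 g3).trans g4

theorem v0 (hd : 4 ≤ d) (h : PSd G f d) (v : V) : 0 ≤ sv f U (wt d) v := by
  have h1 := v1 hd h v
  have h2 : 0 ≤ uu f U v := Nv_uu_nonneg v
  unfold sv
  linarith

theorem v3 (hd : 4 ≤ d) (h : PSd G f d) (v : V) (hU : 1 ≤ ((f v).filter (fun p => p ∈ U)).card) :
    wt d - uu f U v ≤ 2 * sv f U (wt d) v := by
  obtain ⟨m1, m2, m3, g1, g2, g3, g4, g5, g6⟩ := Nv_one h v hU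
  have h1 := n3 hd g1 g2 g3 g4
  have h2 : (3 : ℝ) / (m1 : ℝ) = 3 * (1 / (m1 : ℝ)) := by ring
  rw [h2] at h1
  unfold sv
  rw [g6]
  linarith

theorem v4 (hd : 4 ≤ d) (h : PSd G f d) (v : V) (hU : 1 ≤ ((f v).filter (fun p => p ∈ U)).card) :
    1 / (2 * ((d : ℝ) + 1)) ≤ sv f U (wt d) v := by
  obtain ⟨m1, m2, m3, g1, g2, g3, g4, g5, g6⟩ := Nv_one h v hU
  have h1 := v1 hd h v
  have h2 : (m1 : ℝ) ≤ (d : ℝ) + 1 := by
    have : m1 ≤ d + 1 := by omega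
    exact_mod_cast this
  have h3 : (0 : ℝ) < m1 := by exact_mod_cast g1
  have h4 : 1 / ((d : ℝ) + 1) ≤ 1 / (m1 : ℝ) := one_div_le_one_div_of_le h3 h2
  have h5 : 1 / (2 * ((d : ℝ) + 1)) = (1 / ((d : ℝ) + 1)) / 2 := by
    rw [mul_comm, ← div_div]
  unfold sv
  rw [h5]
  linarith

end

end Pool.Agent.H64.KD
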