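import Pool.Agent.H64.KD.Defs
import Pool.Agent.H64.K4.Of

/-!
Module Of2.  `own_frag` of H64/K4/Of with multiplicities at most `c` (same proof, by helper19).
-/

set_option autoImplicit false
set_option linter.all false

namespace Pool.Agent.H64.KD

open Classical Pool.Agent.H67.CF Pool.Agent.H64.K4

noncomputable section

theorem own_frag2 {V N : Type} [Fintype V] {G : SimpleGraph V} {f : V → Finset N} {d : ℕ}
    (h3 : ∀ v, (f v).card = 3) (hadj : ∀ u v, G.Adj u v ↔ u ≠ v ∧ ∃ p, p ∈ f u ∧ p ∈ f v)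
    {c : ℕ} (hm3 : ∀ p, mult f p ≤ c)
    (hdeg : ∀ v, (nb G v).card ≤ d) {F : Finset V} {own : V → Finset N} (hown : Own f F own)
    {m : ℕ} (hm : 1 ≤ m) :
    ∃ F1 : Finset V, F1 ⊆ F ∧ m * F.card ≤ m * F1.card + 2 * F.card ∧
      ∀ Z : Finset V, Z ⊆ F1 → PConn G (Z : Set V) → Z.card ≤ (d + 1) ^ m * (m + c) := by
  obtain ⟨t, ht⟩ := Of_third h3 hown
  obtain ⟨par, hpar⟩ := Of_par F own t
  have hdj : ∀ u ∈ F, ∀ v ∈ F, ∀ p, p ∈ own u → p ∈ own v → u = v := by
    intro u hu v hv p hpu hpv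
    by_contra hne
    exact (Finset.disjoint_left.1 (hown.disj u hu v hv hne)) hpu hpv
  have H1 : ∀ v ∈ F, par v ∈ F := by
    intro v hv
    rcases hpar v with h | h
    · exact h.1
    · rw [h.1]; exact hv
  have H2 : ∀ v ∈ F, par v ≠ v → G.Adj v (par v) := by
    intro v hv hne
    rcases hpar v with h | h
    · rw [hadj]
      exact ⟨hne.symm, t v, (ht v).1, hown.sub _ h.1 h.2.2⟩
    · exact absurd h.1 hne
  have H0 : ∀ v ∈ F, ∀ w ∈ F, t v ∈ own w → par v = w := by
    intro v hv w hw h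
    have hwv : w ≠ v := by
      rintro rfl
      exact ((ht w).2 hw).1 h
    rcases hpar v with h' | h'
    · exact hdj _ h'.1 _ hw _ h'.2.2 h
    · exact absurd h (h'.2 w hw hwv)
  have H3 : ∀ u ∈ F, ∀ v ∈ F, G.Adj u v → par v = u ∨ par u = v ∨ t u = t v := by
    intro u hu v hv huv
    obtain ⟨hne, p, hpu, hpv⟩ := (hadj u v).1 huv
    by_cases h1 : p ∈ own u
    · have h2 : p ∉ own v := fun h => hne (hdj u hu v hv p h1 h)
      have h3' := ((ht v).2 hv).2 p hpv h2
      exact Or.inl (H0 v hv u hu (by rw [← h3']; exact h1))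
    · have h3' := ((ht u).2 hu).2 p hpu h1
      by_cases h2 : p ∈ own v
      · exact Or.inr (Or.inl (H0 u hu v hv (by rw [← h3']; exact h2)))
      · have h4 := ((ht v).2 hv).2 p hpv h2
        exact Or.inr (Or.inr (h3'.symm.trans h4))
  have H4 : ∀ u ∈ F, ∀ v ∈ F, t u = t v → (par u = u ∧ par v = v) ∨ par u = par v := by
    intro u hu v hv h
    rcases hpar u with h1 | h1
    · exact Or.inr (H0 v hv _ h1.1 (by rw [← h]; exact h1.2.2)).symm
    · rcases hpar v with h2 | h2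
      · exact Or.inr (H0 u hu _ h2.1 (by rw [h]; exact h2.2.2))
      · exact Or.inl ⟨h1.1, h2.1⟩
  obtain ⟨X0, lev, sm, hX0F, hX0c, hX0, hsm, hsm0, hl1, hl0, hbas⟩ := par_lev F par H1 hm
  obtain ⟨X', hX'X, -, hX'c, hX'⟩ := layer (G := G) hdeg (F \ X0) lev par
    (by
      intro v hv h
      obtain ⟨hvF, hv0⟩ := Finset.mem_sdiff.1 hv
      obtain ⟨h1, h2, h3'⟩ := hl1 v hvF hv0 h
      exact ⟨Finset.mem_sdiff.2 ⟨H1 v hvF, h1⟩, H2 v hvF h2, h3'⟩)
    (fun u hu v hv huv => Of_lev H3 H4 hsm hsm0 hl1 hl0 hu hv huv) (m + c)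
    (by
      intro x0 hx0
      obtain ⟨hxF, hx0'⟩ := Finset.mem_sdiff.1 hx0
      by_cases hs : sm x0
      · refine le_trans (Finset.card_le_card ?_) ((hbas x0 hxF hs).trans (Nat.le_add_right m c))
        intro z hz
        rw [Finset.mem_filter] at hz
        obtain ⟨h1, h2, h4⟩ := Of_small H3 H4 hsm hsm0 hx0 hs hz.2.2
        rw [Finset.mem_filter]
        exact ⟨(Finset.mem_sdiff.1 h1).1, h2, h4⟩
      · refine le_trans (Finset.card_le_card ?_) ((hm3 (t x0)).trans (Nat.le_add_left c m))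
        intro z hz
        rw [Finset.mem_filter] at hz
        obtain ⟨h1, h2, h4, h5⟩ := Of_rows H1 H3 H4 hsm hsm0 hl1 hl0 hx0 hs hz.2.2
        rw [Finset.mem_filter]
        refine ⟨Finset.mem_univ z, ?_⟩
        have e : lev z - lev x0 = 0 := by have := hz.2.1; omega
        rw [e] at h5
        have h6 : t z = t x0 := h5
        rw [← h6]
        exact (ht z).1)
    hm
  refine ⟨X', hX'X.trans Finset.sdiff_subset, ?_, hX'⟩
  have e1 : (F \ X0).card + X0.card = F.card := Finset.card_sdiff_add_card_eq_card hX0F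
  have e2 : m * F.card = m * (F \ X0).card + m * X0.card := by rw [← mul_add, e1]
  omega

end

end Pool.Agent.H64.KD
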