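import Pool.Agent.H64.K4.Ls

/-!
Module Sp (row KDSP).  The extremal structure for `d = 5`: a bipartite graph of large girth whose left vertices have degree 3, two neighbours of degree 3 and one neighbour of degree 2.
Use the STATEMENT of `cover` (H67/CF/Cv), `fibre_card`, `Ls_Rg`, `Ls_fib`, `Ls_F3` (H64/K4/Ls), `pts_lower` (H64/K4/Lp).

From `cover 4 3`: `s0 : E → W` with fibres of size 4, `t0 : E → A` with fibres of size 3, `Rg s0 t0 g` (every nonempty `Y`, `|Y| < g`: `|Y| < |s0(Y)| + |t0(Y)|`).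
Choose `c : E → Fin 2` such that every `(w, i)` has exactly 2 edges `e` with `s0 e = w`, `c e = i` (a subset with two elements of every fibre: `Finset.exists_subset_card_eq`).
New structure: left side `V := W × Fin 2`, edges `E' := E ⊕ V`, right side `B' := A ⊕ W`:
   `s (inl e) = (s0 e, c e)`, `s (inr v) = v`;   `t (inl e) = inl (t0 e)`, `t (inr (w, i)) = inr w`.
Fibres of `s`: 2 + 1 = 3.  Fibres of `t`: 3 over `inl a`, 2 over `inr w`.  The three edges at a left vertex `v`: two `inl` edges (fibre 3 each) and `inr v` (fibre 2): sum 8.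
`|V| = 2|W|`, `4|W| = |E| = 3|A|`, `|B'| = |A| + |W| = (7/3)|W|`: `6 |B'| = 7 |V|`.
`Rg s t g`: let `Y = Y1 ⊔ Y2`, `Y1 ⊆ E`, `Y2 ⊆ V`, `X := s(Y) = v(Y1) ∪ Y2`, `W(Y2)` = first components of `Y2`.  `|t(Y)| = |t0(Y1)| + |W(Y2)|`.
   CLAIM `|X| + |W(Y2)| ≥ |Y2| + |s0(Y1) ∪ W(Y2)|`: for every `w` (sum over `w ∈ W` of the fibre parts): if `w ∈ W(Y2)`: `|X_w| ≥ |(Y2)_w|` and both sides get `+1`; otherwise `(Y2)_w = ∅` and
   `[w ∈ s0(Y1)] ≤ |X_w|`.   So `|s(Y)| + |t(Y)| ≥ |Y2| + |s0(Y1) ∪ W(Y2)| + |t0(Y1)|`, which is `> |Y2| + |Y1|` by `Rg s0 t0` if `Y1 ≠ ∅` (`|Y1| ≤ |Y| < g`), and `≥ |Y2| + 1` if `Y1 = ∅`.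
   (Another way for the claim: `X \ Y2 ⊇` one element over every `w ∈ s0(Y1) \ W(Y2)`: the map `X \ Y2 → W` (first component) has all of `s0(Y1) \ W(Y2)` in its image, so
   `|X| - |Y2| ≥ |s0(Y1) \ W(Y2)|`, and `|s0(Y1) ∪ W(Y2)| = |W(Y2)| + |s0(Y1) \ W(Y2)|`.)
Finally transport the left side to `Fin n`, `n = |V|` (`Fintype.equivFin`), as in `Ls_tr`; `g ≤ 3n`: as in `Ls_tr` (`pts_lower` with `Y := univ` if `3 n < g`: `2n + 1 ≤ |B'| = 7n/6`, contradiction, `n ≥ 1`).
-/

set_option autoImplicit false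
set_option linter.all false

namespace Pool.Agent.H64.KD

open Classical Pool.Agent.H67.CF Pool.Agent.H64.K4

noncomputable section

def Sp_c {α : Type} [Fintype α] (p : α → Prop) : ℕ :=
  (@Finset.filter α p (fun _ => Classical.propDecidable _) Finset.univ).card

theorem Sp_e {α : Type} [Fintype α] (p : α → Prop) (i : DecidablePred p) :
    (@Finset.filter α p i Finset.univ).card = Sp_c p := by
  unfold Sp_c
  rw [Subsingleton.elim i (fun _ => Classical.propDecidable _)]

theorem Sp_sum {α β : Type} [Fintype α] [Fintype β] (p : α ⊕ β → Prop) :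
    Sp_c p = Sp_c (fun a => p (Sum.inl a)) + Sp_c (fun b => p (Sum.inr b)) := by
  unfold Sp_c
  simp only [Finset.card_filter]
  rw [Fintype.sum_sum_type]

theorem Sp_zero {α : Type} [Fintype α] {p : α → Prop} (h : ∀ a, ¬ p a) : Sp_c p = 0 := by
  unfold Sp_c
  rw [Finset.card_eq_zero, Finset.filter_eq_empty_iff]
  exact fun x _ => h x

theorem Sp_congr {α : Type} [Fintype α] {p q : α → Prop} (h : ∀ a, p a ↔ q a) :
    Sp_c p = Sp_c q := by
  rw [show p = q from funext fun a => propext (h a)]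

theorem Sp_one {α : Type} [Fintype α] (v : α) : Sp_c (fun a => a = v) = 1 := by
  unfold Sp_c
  rw [Finset.card_eq_one]
  refine ⟨v, ?_⟩
  ext b
  rw [Finset.mem_filter, Finset.mem_singleton]
  exact ⟨fun h => h.2, fun h => ⟨Finset.mem_univ _, h⟩⟩

theorem Sp_col {E W : Type} [Fintype E] {s0 : E → W}
    (hs : ∀ a, Sp_c (fun e => s0 e = a) = 4) :
    ∃ c : E → Bool, ∀ v : W × Bool, Sp_c (fun e => (s0 e, c e) = v) = 2 := by
  have h0 : ∀ w, ∃ F ⊆ Finset.univ.filter (fun e => s0 e = w), F.card = 2 := by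
    intro w
    apply Finset.exists_subset_card_eq
    rw [Sp_e, hs w]
    omega
  choose F hF hc using h0
  refine ⟨fun e => decide (e ∈ F (s0 e)), ?_⟩
  have hcT : ∀ w, Sp_c (fun e => (s0 e, decide (e ∈ F (s0 e))) = (w, true)) = 2 := by
    intro w
    rw [← hc w]
    unfold Sp_c
    apply congrArg
    ext e
    simp only [Finset.mem_filter, Finset.mem_univ, true_and, Prod.mk.injEq, decide_eq_true_eq]
    constructor
    · rintro ⟨rfl, h⟩
      exact h
    · intro h
      have h2 := (Finset.mem_filter.1 (hF w h)).2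
      refine ⟨h2, ?_⟩
      rw [h2]
      exact h
  rintro ⟨w, b⟩
  cases b with
  | true => exact hcT w
  | false =>
    have e1 : Sp_c (fun e => (s0 e, decide (e ∈ F (s0 e))) = (w, false)) =
        (Finset.univ.filter (fun e => s0 e = w) \ F w).card := by
      unfold Sp_c
      apply congrArg
      ext e
      simp only [Finset.mem_filter, Finset.mem_univ, true_and, Prod.mk.injEq,
        decide_eq_false_iff_not, Finset.mem_sdiff]
      constructor
      · rintro ⟨rfl, h⟩
        exact ⟨rfl, h⟩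
      · rintro ⟨rfl, h⟩
        exact ⟨rfl, h⟩
    rw [e1, Finset.card_sdiff_of_subset (hF w), Sp_e, hs w, hc w]

theorem Sp_Rg {E A W : Type} {s0 : E → W} {t0 : E → A} {g : ℕ} (hR : Rg s0 t0 g) (c : E → Bool) :
    Rg (Sum.elim (fun e => (s0 e, c e)) (id : W × Bool → W × Bool))
      (Sum.elim (fun e => (Sum.inl (t0 e) : A ⊕ W)) (fun v : W × Bool => Sum.inr v.1)) g := by
  intro Y hY hYg
  set s1 : E ⊕ (W × Bool) → W × Bool := Sum.elim (fun e => (s0 e, c e)) id with hs1
  set t1 : E ⊕ (W × Bool) → A ⊕ W :=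
    Sum.elim (fun e => (Sum.inl (t0 e) : A ⊕ W)) (fun v : W × Bool => Sum.inr v.1) with ht1
  have hcard : Y.toLeft.card + Y.toRight.card = Y.card := Finset.card_toLeft_add_card_toRight
  have hT : (Y.toLeft.image t0).card + (Y.toRight.image Prod.fst).card ≤ (Y.image t1).card := by
    rw [← Finset.card_disjSum]
    apply Finset.card_le_card
    intro x hx
    rw [Finset.mem_disjSum] at hx
    rcases hx with ⟨a, ha, rfl⟩ | ⟨w, hw, rfl⟩
    · obtain ⟨e, he, rfl⟩ := Finset.mem_image.1 ha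
      exact Finset.mem_image.2 ⟨Sum.inl e, Finset.mem_toLeft.1 he, rfl⟩
    · obtain ⟨v, hv, rfl⟩ := Finset.mem_image.1 hw
      exact Finset.mem_image.2 ⟨Sum.inr v, Finset.mem_toRight.1 hv, rfl⟩
  have hsub : Y.toRight ⊆ Y.image s1 := by
    intro v hv
    exact Finset.mem_image.2 ⟨Sum.inr v, Finset.mem_toRight.1 hv, rfl⟩
  have hX : Y.toRight.card + (Y.toLeft.image s0 \ Y.toRight.image Prod.fst).card ≤
      (Y.image s1).card := by
    have h1 : (Y.image s1 \ Y.toRight).card + Y.toRight.card = (Y.image s1).card :=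
      Finset.card_sdiff_add_card_eq_card hsub
    have h2 : (Y.toLeft.image s0 \ Y.toRight.image Prod.fst) ⊆
        (Y.image s1 \ Y.toRight).image Prod.fst := by
      intro w hw
      obtain ⟨hw1, hw2⟩ := Finset.mem_sdiff.1 hw
      obtain ⟨e, he, rfl⟩ := Finset.mem_image.1 hw1
      refine Finset.mem_image.2 ⟨(s0 e, c e), Finset.mem_sdiff.2 ⟨?_, ?_⟩, rfl⟩
      · exact Finset.mem_image.2 ⟨Sum.inl e, Finset.mem_toLeft.1 he, rfl⟩
      · intro h
        exact hw2 (Finset.mem_image.2 ⟨_, h, rfl⟩)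
    have h3 := (Finset.card_le_card h2).trans Finset.card_image_le
    omega
  have hW : (Y.toLeft.image s0).card ≤
      (Y.toLeft.image s0 \ Y.toRight.image Prod.fst).card + (Y.toRight.image Prod.fst).card :=
    Finset.card_le_card_sdiff_add_card
  have e1 : ∀ i1 i2 : DecidableEq (W × Bool),
      (@Finset.image _ _ i1 s1 Y).card = (@Finset.image _ _ i2 s1 Y).card := by
    intro i1 i2
    rw [Subsingleton.elim i1 i2]
  have e2 : ∀ i1 i2 : DecidableEq (A ⊕ W),
      (@Finset.image _ _ i1 t1 Y).card = (@Finset.image _ _ i2 t1 Y).card := by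
    intro i1 i2
    rw [Subsingleton.elim i1 i2]
  suffices key : Y.card < (Y.image s1).card + (Y.image t1).card from
    lt_of_lt_of_eq key (congrArg₂ (fun x y => x + y) (e1 _ _) (e2 _ _))
  rcases Y.toLeft.eq_empty_or_nonempty with h0 | h0
  · have h1 : Y.toLeft.card = 0 := by rw [h0]; rfl
    have h2 : Y.toRight.Nonempty := by
      rw [← Finset.card_pos]
      have := hY.card_pos
      omega
    have h3 : 0 < (Y.toRight.image Prod.fst).card := (h2.image _).card_pos
    omega
  · have h1 := hR Y.toLeft h0 (by omega)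
    omega

theorem split_cover (g : ℕ) :
    ∃ (E B : Type) (_ : Fintype E) (_ : Fintype B) (n : ℕ) (s : E → Fin n) (t : E → B),
      1 ≤ n ∧ g ≤ 3 * n ∧ 6 * Fintype.card B = 7 * n ∧ Ls_F3 s ∧
      (∀ b, (Finset.univ.filter (fun e => t e = b)).card ≤ 3) ∧
      (∀ a, ∑ e ∈ Finset.univ.filter (fun e => s e = a),
        (Finset.univ.filter (fun e' => t e' = t e)).card ≤ 8) ∧ Rg s t g := by
  obtain ⟨E, W, A, iE, iW, iA, hne, s0, t0, hs, ht, hR⟩ :=
    cover 4 3 (by omega) (by omega) g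
  have hpos : 1 ≤ Fintype.card E := Fintype.card_pos
  have cW := fibre_card hs
  have cA := fibre_card ht
  obtain ⟨c, hc⟩ := Sp_col (s0 := s0) (fun a => (Sp_e _ _).symm.trans (hs a))
  set s1 : E ⊕ (W × Bool) → W × Bool := Sum.elim (fun e => (s0 e, c e)) id with hs1
  set t1 : E ⊕ (W × Bool) → A ⊕ W :=
    Sum.elim (fun e => (Sum.inl (t0 e) : A ⊕ W)) (fun v : W × Bool => Sum.inr v.1) with ht1
  have hR1 : Rg s1 t1 g := Sp_Rg hR c
  have cV : Fintype.card (W × Bool) = 2 * Fintype.card W := by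
    rw [Fintype.card_prod, Fintype.card_bool, mul_comm]
  have cB : Fintype.card (A ⊕ W) = Fintype.card A + Fintype.card W := Fintype.card_sum
  have hF3 : Ls_F3 s1 := by
    intro v
    rw [Sp_e, Sp_sum]
    have h1 : Sp_c (fun a => s1 (Sum.inl a) = v) = 2 := hc v
    have h2 : Sp_c (fun b => s1 (Sum.inr b) = v) = 1 := Sp_one v
    rw [h1, h2]
  have hta : ∀ a : A, Sp_c (fun e => t1 e = Sum.inl a) = 3 := by
    intro a
    rw [Sp_sum]
    have h1 : Sp_c (fun e => t1 (Sum.inl e) = Sum.inl a) = 3 := by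
      refine (Sp_congr fun e => ?_).trans ((Sp_e _ _).symm.trans (ht a))
      simp [ht1]
    have h2 : Sp_c (fun e => t1 (Sum.inr e) = Sum.inl a) = 0 := by
      apply Sp_zero
      intro x
      simp [ht1]
    rw [h1, h2]
  have htw : ∀ w : W, Sp_c (fun e => t1 e = Sum.inr w) = 2 := by
    intro w
    rw [Sp_sum]
    have h1 : Sp_c (fun e => t1 (Sum.inl e) = Sum.inr w) = 0 := by
      apply Sp_zero
      intro x
      simp [ht1]
    have h2 : Sp_c (fun e : W × Bool => t1 (Sum.inr e) = Sum.inr w) = 2 := by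
      have e1 : Sp_c (fun e : W × Bool => t1 (Sum.inr e) = Sum.inr w) =
          ({(w, true), (w, false)} : Finset (W × Bool)).card := by
        unfold Sp_c
        apply congrArg
        ext ⟨x, b⟩
        cases b <;> simp [ht1]
      rw [e1, Finset.card_pair (by simp)]
    rw [h1, h2]
  have hdeg : ∀ v, ∀ i : DecidablePred (fun e => s1 e = v),
      ∑ e ∈ @Finset.filter _ (fun e => s1 e = v) i Finset.univ,
      Sp_c (fun e' => t1 e' = t1 e) ≤ 8 := by
    intro v i
    rw [Finset.sum_filter, Fintype.sum_sum_type]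
    have h1 : ∀ e : E, Sp_c (fun e' => t1 e' = t1 (Sum.inl e)) = 3 := fun e => hta (t0 e)
    have h3 : ∀ e : W × Bool, Sp_c (fun e' => t1 e' = t1 (Sum.inr e)) = 2 := fun e => htw e.1
    rw [← Finset.sum_filter, ← Finset.sum_filter, Finset.sum_congr rfl (fun e _ => h1 e),
      Finset.sum_congr rfl (fun e _ => h3 e), Finset.sum_const, Finset.sum_const, Sp_e, Sp_e]
    have h4 : Sp_c (fun a => s1 (Sum.inl a) = v) = 2 := hc v
    have h5 : Sp_c (fun b => s1 (Sum.inr b) = v) = 1 := Sp_one v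
    rw [h4, h5]
    simp
  refine ⟨E ⊕ (W × Bool), A ⊕ W, inferInstance, inferInstance, Fintype.card (W × Bool),
    fun e => Fintype.equivFin (W × Bool) (s1 e), t1, by omega, ?_, by omega, Ls_fib hF3 _, ?_, ?_,
    Ls_Rg hR1 _⟩
  · by_contra hlt
    haveI : Nonempty W := hne.map s0
    have h1 := pts_lower hF3 hR1 (Y := Finset.univ) Finset.univ_nonempty (by
      rw [Finset.card_univ]; omega)
    have h2 := Finset.card_le_univ (pts s1 t1 (Finset.univ : Finset (W × Bool)))
    rw [Finset.card_univ] at h1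
    omega
  · rintro (a | w)
    · rw [Sp_e, hta a]
    · rw [Sp_e, htw w]
      omega
  · intro a
    refine le_trans (le_of_eq ?_) (hdeg ((Fintype.equivFin (W × Bool)).symm a) inferInstance)
    apply Finset.sum_congr
    · ext e
      simp only [Finset.mem_filter, Finset.mem_univ, true_and]
      exact (Equiv.eq_symm_apply _).symm
    · intro e _
      exact Sp_e _ _

end

end Pool.Agent.H64.KD
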