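import Pool.Agent.H64.KD.Co2
import Pool.Agent.H64.KD.Mr2
import Pool.Agent.H64.KD.Fr2
import Pool.Agent.H64.KD.Of2
import Pool.Agent.H64.KD.Ln
import Pool.Agent.H64.K4.Om
import Pool.Agent.H67.CF.Sd

/-!
Module Up2.  The upper bounds for every `d ≥ 4` (helper64).  See /team-store/H64_KD.md, 7, 8.
-/

set_option autoImplicit false
set_option linter.all false

namespace Pool.Agent.H64.KD

open Classical Pool.Agent.H67.CF Pool.Agent.H64.K4

noncomputable section

/-! ### deleting the edges at `D` -/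

theorem rch_del {V : Type} {G : SimpleGraph V} {D : Finset V} {X : Set V}
    (hX : ∀ x ∈ X, x ∉ D) {a b : V} (ha : a ∈ X) (h : Rch G X a b) : Rch (del G D) X a b := by
  have h1 : b ∈ X ∧ Rch (del G D) X a b := by
    induction h with
    | refl => exact ⟨ha, rch_refl⟩
    | @tail x y _ hxy ih =>
      refine ⟨hxy.2, ?_⟩
      exact Relation.ReflTransGen.tail ih.2 ⟨⟨hxy.1, hX _ ih.1, hX _ hxy.2⟩, hxy.2⟩
  exact h1.2

theorem rch_of_del {V : Type} {G : SimpleGraph V} {D : Finset V} {X : Set V} {a b : V}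
    (h : Rch (del G D) X a b) : Rch G X a b := by
  induction h with
  | refl => exact rch_refl
  | tail _ hxy ih => exact Relation.ReflTransGen.tail ih ⟨hxy.1.1, hxy.2⟩

theorem pconn_del {V : Type} {G : SimpleGraph V} {D : Finset V} {X : Set V}
    (hX : ∀ x ∈ X, x ∉ D) (h : PConn G X) : PConn (del G D) X :=
  fun a ha b hb => rch_del hX ha (h a ha b hb)

theorem pconn_of_del {V : Type} {G : SimpleGraph V} {D : Finset V} {X : Set V}
    (h : PConn (del G D) X) : PConn G X := fun a ha b hb => rch_of_del (h a ha b hb)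

theorem model_del {V : Type} {G : SimpleGraph V} {D : Finset V} {X : Set V} {r : ℕ}
    (hX : ∀ x ∈ X, x ∉ D) (h : Model G r X) : Model (del G D) r X := by
  obtain ⟨g, h1, h2, h3⟩ := h
  refine ⟨g, fun i => ⟨(h1 i).1, (h1 i).2.1, pconn_del (fun x hx => hX x ((h1 i).1 hx)) (h1 i).2.2⟩,
    h2, fun i j hij => ?_⟩
  obtain ⟨u, hu, v, hv, huv⟩ := h3 i j hij
  exact ⟨u, hu, v, hv, huv, hX u ((h1 i).1 hu), hX v ((h1 j).1 hv)⟩

theorem model_of_del {V : Type} {G : SimpleGraph V} {D : Finset V} {X : Set V} {r : ℕ}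
    (h : Model (del G D) r X) : Model G r X := by
  obtain ⟨g, h1, h2, h3⟩ := h
  refine ⟨g, fun i => ⟨(h1 i).1, (h1 i).2.1, pconn_of_del (h1 i).2.2⟩, h2, fun i j hij => ?_⟩
  obtain ⟨u, hu, v, hv, huv⟩ := h3 i j hij
  exact ⟨u, hu, v, hv, huv.1⟩

theorem nb_del {V : Type} [Fintype V] {G : SimpleGraph V} {D : Finset V} {d : ℕ}
    (hdeg : ∀ v, (nb G v).card ≤ d) (v : V) : (nb (del G D) v).card ≤ d := by
  refine le_trans (Finset.card_le_card ?_) (hdeg v)
  intro u hu
  unfold nb at hu ⊢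
  rw [Finset.mem_filter] at hu ⊢
  exact ⟨hu.1, hu.2.1⟩

theorem own_sub {V N : Type} {f : V → Finset N} {F F' : Finset V} {own : V → Finset N}
    (h : Own f F own) (hF : F' ⊆ F) : Own f F' own :=
  ⟨fun v hv => h.sub v (hF hv), fun v hv => h.card2 v (hF hv),
    fun u hu v hv huv => h.disj u (hF hu) v (hF hv) huv⟩

theorem rge_sub {V : Type} {G : SimpleGraph V} {B B' : Finset (Finset V)}
    {ext : Finset V → Finset V} (hR : Rge G B ext) (hB : B' ⊆ B) : Rge G B' ext := by
  refine ⟨fun X hX Y hY hne => hR.disj X (hB hX) Y (hB hY) hne, fun X hX => hR.sub X (hB hX), ?_⟩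
  intro X hX
  obtain ⟨C, h1, h2, h3⟩ := hR.cut X (hB hX)
  exact ⟨C, h1, fun Y hY => h2 Y (hB hY), h3⟩

theorem card_add2 {V : Type} [Fintype V] {G : SimpleGraph V} {F : Finset V}
    {B : Finset (Finset V)} {ext : Finset V → Finset V} (hR : Rge G B ext)
    (hx : ∀ X ∈ B, Disjoint (ext X) F) :
    (F ∪ B.biUnion ext).card = F.card + ∑ X ∈ B, (ext X).card := by
  rw [Finset.card_union_of_disjoint]
  · congr 1
    apply Finset.card_biUnion
    intro X hX Y hY hne
    exact Finset.disjoint_of_subset_left (hR.sub X hX)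
      (Finset.disjoint_of_subset_right (hR.sub Y hY) (hR.disj X hX Y hY hne))
  · rw [Finset.disjoint_biUnion_right]
    intro X hX
    exact (hx X hX).symm

theorem mult_le {V N : Type} [Fintype V] {G : SimpleGraph V} {f : V → Finset N} {d : ℕ}
    (h : PSd G f d) (p : N) : mult f p ≤ d + 1 := by
  rcases Nat.eq_zero_or_pos (mult f p) with h0 | h0
  · omega
  · unfold mult at h0
    obtain ⟨v, hv⟩ := Finset.card_pos.1 h0
    have hp : p ∈ f v := (Finset.mem_filter.1 hv).2
    have h1 := h.deg v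
    rw [← Finset.add_sum_erase _ _ hp] at h1
    have h2 : ∑ q ∈ (f v).erase p, 1 ≤ ∑ q ∈ (f v).erase p, mult f q := by
      refine Finset.sum_le_sum fun q hq => ?_
      unfold mult
      exact Finset.card_pos.2 ⟨v, Finset.mem_filter.2 ⟨Finset.mem_univ v, Finset.mem_of_mem_erase hq⟩⟩
    rw [Finset.sum_const, Finset.card_erase_of_mem hp, h.card3 v] at h2
    norm_num at h2
    omega

theorem up_model2 {V : Type} [Fintype V] {G : SimpleGraph V} {d : ℕ}
    (hd : 4 ≤ d) (hL : LinThree G) (hdeg : ∀ v, (nb G v).card ≤ d) :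
    ∃ T : Finset V, wt d * (Fintype.card V : ℝ) ≤ (T.card : ℝ) ∧
      ∀ r, 2 * d + 3 ≤ r → ¬ Model G r (T : Set V) := by
  obtain ⟨N, iN, f, h⟩ := psd_of_lin hL hdeg
  obtain ⟨F, own, D, B, ext, hOwn, hR, hXD, hx, hec, hcard⟩ := core2 hd h
  refine ⟨(F \ D) ∪ B.biUnion ext, ?_, ?_⟩
  · rw [card_add2 hR (fun X hX => Finset.disjoint_of_subset_right Finset.sdiff_subset (hx X hX))]
    push_cast
    exact hcard
  · intro r hr hM
    obtain ⟨s, rfl⟩ : ∃ s, r = s + (d + 1) := ⟨r - (d + 1), by omega⟩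
    have hTD : ∀ x ∈ (((F \ D) ∪ B.biUnion ext : Finset V) : Set V), x ∉ D := by
      intro x hx'
      rw [Finset.mem_coe, Finset.mem_union] at hx'
      rcases hx' with hx' | hx'
      · exact (Finset.mem_sdiff.1 hx').2
      · obtain ⟨X, hX, hxX⟩ := Finset.mem_biUnion.1 hx'
        exact (Finset.disjoint_left.1 (hXD X hX)) (hR.sub X hX hxX)
    refine model_regions2 hR (e := d + 1) hec (r := s) (by omega) ?_ (model_del hTD hM)
    intro hM'
    exact own_model h.card3 h.adj hdeg (own_sub hOwn Finset.sdiff_subset) (r := s) (by omega)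
      (by omega) (model_of_del hM')

/-- the bound on the size of the pieces -/
def CD (d m : ℕ) : ℕ :=
  (d + 1) ^ m * (m + (d + 1)) + d * ((d + 1) ^ m * (m + (d + 1))) * m + m

theorem up_frag2 {V : Type} [Fintype V] {G : SimpleGraph V} {d : ℕ}
    (hd : 4 ≤ d) (hL : LinThree G) (hdeg : ∀ v, (nb G v).card ≤ d)
    {m : ℕ} (hm : 1 ≤ m) :
    ∃ T : Finset V, (m : ℝ) * (wt d * (Fintype.card V : ℝ)) ≤
        (m : ℝ) * (T.card : ℝ) + ((d : ℝ) + 3) * (Fintype.card V : ℝ) ∧
      ∀ Z : Finset V, Z ⊆ T → PConn G (Z : Set V) → Z.card ≤ CD d m := by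
  obtain ⟨N, iN, f, h⟩ := psd_of_lin hL hdeg
  obtain ⟨F, own, D, B, ext, hOwn, hR, hXD, hx, hec, hcard⟩ := core2 hd h
  obtain ⟨F1, hF1, hF1card, hF1p⟩ := own_frag2 h.card3 h.adj (c := d + 1) (mult_le h) hdeg
    (own_sub hOwn (Finset.sdiff_subset : F \ D ⊆ F)) hm
  obtain ⟨B1, hB1⟩ : ∃ B1, B1 = B.filter (fun X => X.card ≤ m) := ⟨_, rfl⟩
  have hB1B : B1 ⊆ B := by rw [hB1]; exact Finset.filter_subset _ _
  have hR1 := rge_sub hR hB1B
  refine ⟨F1 ∪ B1.biUnion ext, ?_, ?_⟩
  · rw [card_add2 hR1 (fun X hX => Finset.disjoint_of_subset_right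
      (hF1.trans Finset.sdiff_subset) (hx X (hB1B hX)))]
    -- the large regions
    have h2 : m * (B.filter (fun X => ¬ X.card ≤ m)).card ≤ Fintype.card V := by
      have e1 : ((B.filter (fun X => ¬ X.card ≤ m)).biUnion id).card =
          ∑ X ∈ B.filter (fun X => ¬ X.card ≤ m), X.card := by
        rw [Finset.card_biUnion]
        · rfl
        · intro X hX Y hY hne
          exact hR.disj X (Finset.mem_filter.1 hX).1 Y (Finset.mem_filter.1 hY).1 hne
      have e2 : ∑ X ∈ B.filter (fun X => ¬ X.card ≤ m), m ≤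
          ∑ X ∈ B.filter (fun X => ¬ X.card ≤ m), X.card := by
        refine Finset.sum_le_sum fun X hX => ?_
        have := (Finset.mem_filter.1 hX).2
        omega
      rw [Finset.sum_const, smul_eq_mul, mul_comm, ← e1] at e2
      exact e2.trans (Finset.card_le_univ _)
    have h3 : (F \ D).card ≤ Fintype.card V := Finset.card_le_univ _
    have h4 : ∑ X ∈ B.filter (fun X => ¬ X.card ≤ m), (ext X).card ≤
        (d + 1) * (B.filter (fun X => ¬ X.card ≤ m)).card := by
      have e1 : ∑ X ∈ B.filter (fun X => ¬ X.card ≤ m), (ext X).card ≤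
          ∑ X ∈ B.filter (fun X => ¬ X.card ≤ m), (d + 1) :=
        Finset.sum_le_sum fun X hX => hec X (Finset.mem_filter.1 hX).1
      rw [Finset.sum_const, smul_eq_mul, mul_comm] at e1
      exact e1
    have h5 : ∑ X ∈ B, (ext X).card = ∑ X ∈ B1, (ext X).card +
        ∑ X ∈ B.filter (fun X => ¬ X.card ≤ m), (ext X).card := by
      rw [hB1]
      exact (Finset.sum_filter_add_sum_filter_not B (fun X => X.card ≤ m) _).symm
    have h6 : m * ((F \ D).card + ∑ X ∈ B, (ext X).card) ≤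
        m * (F1.card + ∑ X ∈ B1, (ext X).card) + (d + 3) * Fintype.card V := by
      have e1 : m * (∑ X ∈ B.filter (fun X => ¬ X.card ≤ m), (ext X).card) ≤
          (d + 1) * Fintype.card V := by
        calc m * (∑ X ∈ B.filter (fun X => ¬ X.card ≤ m), (ext X).card) ≤
            m * ((d + 1) * (B.filter (fun X => ¬ X.card ≤ m)).card) := Nat.mul_le_mul_left m h4
          _ = (d + 1) * (m * (B.filter (fun X => ¬ X.card ≤ m)).card) := by ring
          _ ≤ (d + 1) * Fintype.card V := Nat.mul_le_mul_left _ h2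
      calc m * ((F \ D).card + ∑ X ∈ B, (ext X).card) =
          m * (F \ D).card + m * (∑ X ∈ B1, (ext X).card) +
            m * (∑ X ∈ B.filter (fun X => ¬ X.card ≤ m), (ext X).card) := by rw [h5]; ring
        _ ≤ (m * F1.card + 2 * (F \ D).card) + m * (∑ X ∈ B1, (ext X).card) +
            (d + 1) * Fintype.card V := by omega
        _ ≤ (m * F1.card + 2 * Fintype.card V) + m * (∑ X ∈ B1, (ext X).card) +
            (d + 1) * Fintype.card V := by omega
        _ = m * (F1.card + ∑ X ∈ B1, (ext X).card) + (d + 3) * Fintype.card V := by ring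
    have h7 : (m : ℝ) * (((F \ D).card : ℝ) + ∑ X ∈ B, ((ext X).card : ℝ)) ≤
        (m : ℝ) * ((F1.card + ∑ X ∈ B1, (ext X).card : ℕ) : ℝ) +
          ((d : ℝ) + 3) * (Fintype.card V : ℝ) := by
      exact_mod_cast h6
    exact (mul_le_mul_of_nonneg_left hcard (Nat.cast_nonneg m)).trans h7
  · intro Z hZ hconn
    have hZD : ∀ x ∈ (Z : Set V), x ∉ D := by
      intro x hx'
      have hx2 := hZ (Finset.mem_coe.1 hx')
      rw [Finset.mem_union] at hx2
      rcases hx2 with hx2 | hx2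
      · exact (Finset.mem_sdiff.1 (hF1 hx2)).2
      · obtain ⟨X, hX, hxX⟩ := Finset.mem_biUnion.1 hx2
        exact (Finset.disjoint_left.1 (hXD X (hB1B hX))) (hR1.sub X hX hxX)
    exact frag_regions2 (G := del G D) (nb_del hdeg) hR1 (fun X hX => by
      rw [hB1] at hX
      exact (Finset.mem_filter.1 hX).2) (fun Z' hZ' hc => hF1p Z' hZ' (pconn_of_del hc)) Z hZ
      (pconn_del hZD hconn)

theorem mu_mem2 {P : (n : ℕ) → SimpleGraph (Fin n) → Prop} (hP : ∀ n G, P n G → LinThree G)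
    {d r : ℕ} (hd : 4 ≤ d) (hr : 2 * d + 3 ≤ r) : 1 - wt d ∈ muSet P r d := by
  intro ε hε
  refine ⟨0, fun n _ G hPG hdeg => ?_⟩
  have hL := hP n G hPG
  have hdeg' : ∀ v, (nb G v).card ≤ d := fun v => by
    rw [nb_card]
    exact hdeg v
  obtain ⟨T, hT, hM⟩ := up_model2 hd hL hdeg'
  refine ⟨Tᶜ, ?_, ?_⟩
  · have h1 : T.card ≤ n := by simpa using Finset.card_le_univ T
    rw [Finset.card_compl, Fintype.card_fin, Nat.cast_sub h1]
    rw [Fintype.card_fin] at hT
    have h2 : 0 ≤ ε * (n : ℝ) := mul_nonneg hε.le (Nat.cast_nonneg n)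
    linarith
  · rintro ⟨g, hg1, hg2, hg3, hg4⟩
    apply hM r hr
    refine ⟨g, fun i => ⟨?_, (connected_iff.1 (hg2 i)).1, (connected_iff.1 (hg2 i)).2⟩, hg3, hg4⟩
    intro x hx
    by_contra hxT
    refine (Set.disjoint_left.1 (hg1 i)) hx ?_
    rw [Finset.mem_coe, Finset.mem_compl]
    exact hxT

theorem cf_mem2 {P : (n : ℕ) → SimpleGraph (Fin n) → Prop} (hP : ∀ n G, P n G → LinThree G)
    {d : ℕ} (hd : 4 ≤ d) : 1 - wt d ∈ cfSet P d := by
  intro ε hε
  obtain ⟨m, hm⟩ := exists_nat_gt (((d : ℝ) + 3) / ε)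
  have hm0 : (0 : ℝ) < m := lt_of_le_of_lt (by positivity) hm
  have hm1 : 1 ≤ m := by
    have h0 : 0 < m := by exact_mod_cast hm0
    omega
  have hm3 : (d : ℝ) + 3 ≤ ε * (m : ℝ) := by
    rw [div_lt_iff₀ hε] at hm
    linarith
  refine ⟨CD d m, fun n G hPG hdeg => ?_⟩
  have hL := hP n G hPG
  have hdeg' : ∀ v, (nb G v).card ≤ d := fun v => by
    rw [nb_card]
    exact hdeg v
  obtain ⟨T, hT, hM⟩ := up_frag2 hd hL hdeg' hm1
  refine ⟨Tᶜ, ?_, ?_⟩
  · have h1 : T.card ≤ n := by simpa using Finset.card_le_univ T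
    rw [Finset.card_compl, Fintype.card_fin, Nat.cast_sub h1]
    rw [Fintype.card_fin] at hT
    have hn0 : (0 : ℝ) ≤ n := Nat.cast_nonneg n
    have h4 : ((d : ℝ) + 3) * (n : ℝ) ≤ ε * (m : ℝ) * n := mul_le_mul_of_nonneg_right hm3 hn0
    have h5 : (m : ℝ) * (n - T.card) ≤ m * ((1 - wt d + ε) * n) := by nlinarith
    exact le_of_mul_le_mul_left h5 hm0
  · intro T' hT' hconn
    have h1 : T' ⊆ (T : Set (Fin n)) := by
      intro x hx
      by_contra hxT
      refine (Set.disjoint_left.1 hT') hx ?_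
      rw [Finset.mem_coe, Finset.mem_compl]
      exact hxT
    have hfin : T'.Finite := Set.toFinite T'
    have h2 := hM hfin.toFinset (by
      intro x hx
      exact h1 (hfin.mem_toFinset.1 hx)) (by
      rw [hfin.coe_toFinset]
      exact (connected_iff.1 hconn).2)
    rw [Set.ncard_eq_toFinset_card T' hfin]
    exact h2

theorem bip_class2 {n : ℕ} {s t : Fin n → ℕ} (hinj : ∀ e e', s e = s e' → t e = t e' → e = e') :
    K14 (bipLine s t) ∧ DiaI (bipLine s t) := by
  constructor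
  · rintro v a b c e ⟨-, ha⟩ ⟨-, hb⟩ ⟨-, hc⟩ - hab hac - hbc - -
    rcases ha with ha | ha <;> rcases hb with hb | hb <;> rcases hc with hc | hc
    · exact Or.inl ⟨hab, Or.inl (ha.symm.trans hb)⟩
    · exact Or.inl ⟨hab, Or.inl (ha.symm.trans hb)⟩
    · exact Or.inr (Or.inl ⟨hac, Or.inl (ha.symm.trans hc)⟩)
    · exact Or.inr (Or.inr (Or.inr (Or.inl ⟨hbc, Or.inr (hb.symm.trans hc)⟩)))
    · exact Or.inr (Or.inr (Or.inr (Or.inl ⟨hbc, Or.inl (hb.symm.trans hc)⟩)))
    · exact Or.inr (Or.inl ⟨hac, Or.inr (ha.symm.trans hc)⟩)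
    · exact Or.inl ⟨hab, Or.inr (ha.symm.trans hb)⟩
    · exact Or.inl ⟨hab, Or.inr (ha.symm.trans hb)⟩
  · rintro u v a b ⟨huv, h1⟩ ⟨hua, h2⟩ ⟨hva, h3⟩ ⟨hub, h4⟩ ⟨hvb, h5⟩ hab
    rcases h1 with h1 | h1
    · have htuv : t u ≠ t v := fun h => huv (hinj _ _ h1 h)
      have hsa : s u = s a := by
        rcases h2 with h2 | h2
        · exact h2
        · rcases h3 with h3 | h3
          · exact h1.trans h3
          · exact absurd (h2.trans h3.symm) htuv
      have hsb : s u = s b := by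
        rcases h4 with h4 | h4
        · exact h4
        · rcases h5 with h5 | h5
          · exact h1.trans h5
          · exact absurd (h4.trans h5.symm) htuv
      exact ⟨hab, Or.inl (hsa.symm.trans hsb)⟩
    · have hsuv : s u ≠ s v := fun h => huv (hinj _ _ h h1)
      have hta : t u = t a := by
        rcases h2 with h2 | h2
        · rcases h3 with h3 | h3
          · exact absurd (h2.trans h3.symm) hsuv
          · exact h1.trans h3
        · exact h2
      have htb : t u = t b := by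
        rcases h4 with h4 | h4
        · rcases h5 with h5 | h5
          · exact absurd (h4.trans h5.symm) hsuv
          · exact h1.trans h5
        · exact h4
      exact ⟨hab, Or.inr (hta.symm.trans htb)⟩

end

end Pool.Agent.H64.KD
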